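import Pool.Agent.Helper52.RC.Per

/-!
# RC module Stat: fixed points of powers of a random permutation

(a) `β^m x = x` iff the length of the cycle of `x` divides `m`: sum over the lengths `l ∈ [1,d]`, `l ∣ m`.
(b) Let `D` be the set of fixed points of `β^m` (a union of cycles), `|D| ≥ d - r`. Either some cycle in
`D` has length `l > d - t` (`l ∣ m`); the number of such `β` is at most `(1/l) ∑_x #{β : length at x = l}
≤ d!/l`. Or every `x ∈ D` has a cycle of length `≤ d - t`, so at least `t` points lie outside of it, at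
most `r ≤ t/2` of them outside `D`: at least `t/2` points `y ∈ D` are not in the cycle of `x`; since
`|D| ≥ d/2` there are at least `d t / 4` pairs `(x, y) ∈ D²` in different cycles. By `card_pair` the number
of triples `(β, x, y)` is at most `d (d - 1) (d - 2)! dv² = d! dv²`.
-/

open Equiv

namespace Pool.Agent.Helper52.RC

private theorem pow_fix_iff {d : ℕ} (β : Perm (Fin d)) (m : ℕ) (x : Fin d) :
    (β ^ m) x = x ↔ Function.minimalPeriod β x ∣ m := by
  rw [← Function.isPeriodicPt_iff_minimalPeriod_dvd]
  unfold Function.IsPeriodicPt Function.IsFixedPt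
  rw [Equiv.Perm.iterate_eq_pow]

private theorem mem_per {d : ℕ} (β : Perm (Fin d)) (x : Fin d) :
    x ∈ Function.periodicPts (β : Fin d → Fin d) := by
  refine Function.mk_mem_periodicPts (orderOf_pos β) ?_
  unfold Function.IsPeriodicPt Function.IsFixedPt
  rw [Equiv.Perm.iterate_eq_pow, pow_orderOf_eq_one]
  rfl

/-- the cycle of `x` -/
private noncomputable def cyc {d : ℕ} (β : Perm (Fin d)) (x : Fin d) : Finset (Fin d) :=
  (Finset.range (Function.minimalPeriod β x)).image fun i => (β : Fin d → Fin d)^[i] x

private theorem card_cyc {d : ℕ} (β : Perm (Fin d)) (x : Fin d) :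
    (cyc β x).card = Function.minimalPeriod β x := by
  unfold cyc
  rw [Finset.card_image_of_injOn, Finset.card_range]
  intro i hi j hj h
  exact Function.iterate_injOn_Iio_minimalPeriod (f := β) (x := x)
    (by simpa using hi) (by simpa using hj) h

private theorem mp_pos {d : ℕ} (β : Perm (Fin d)) (x : Fin d) :
    0 < Function.minimalPeriod β x :=
  Function.minimalPeriod_pos_of_mem_periodicPts (mem_per β x)

private theorem mp_le {d : ℕ} (β : Perm (Fin d)) (x : Fin d) :
    Function.minimalPeriod β x ≤ d := by
  rw [← card_cyc]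
  exact (Finset.card_le_univ _).trans_eq (Fintype.card_fin d)

private theorem mp_cyc {d : ℕ} (β : Perm (Fin d)) (x y : Fin d) (h : y ∈ cyc β x) :
    Function.minimalPeriod β y = Function.minimalPeriod β x := by
  unfold cyc at h
  rw [Finset.mem_image] at h
  obtain ⟨i, _, rfl⟩ := h
  exact Function.minimalPeriod_apply_iterate (mem_per β x) i

private theorem same_cyc {d : ℕ} (β : Perm (Fin d)) (x y : Fin d) (h : β.SameCycle x y) :
    y ∈ cyc β x := by
  obtain ⟨i, rfl⟩ := h.exists_nat_pow_eq
  unfold cyc
  rw [Finset.mem_image]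
  refine ⟨i % Function.minimalPeriod β x, ?_, ?_⟩
  · rw [Finset.mem_range]
    exact Nat.mod_lt _ (mp_pos β x)
  · rw [Function.iterate_mod_minimalPeriod_eq, Equiv.Perm.iterate_eq_pow]

private theorem card_dvd {d : ℕ} (m : ℕ) (x : Fin d) :
    (Finset.univ.filter fun β : Perm (Fin d) => Function.minimalPeriod β x ∣ m).card
      ≤ (d - 1).factorial * dv d m := by
  have hsub : (Finset.univ.filter fun β : Perm (Fin d) => Function.minimalPeriod β x ∣ m) ⊆
      ((Finset.Icc 1 d).filter (· ∣ m)).biUnion fun l =>
        Finset.univ.filter fun β : Perm (Fin d) => Function.minimalPeriod β x = l := by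
    intro β hβ
    rw [Finset.mem_filter] at hβ
    rw [Finset.mem_biUnion]
    refine ⟨Function.minimalPeriod β x, ?_, ?_⟩
    · rw [Finset.mem_filter, Finset.mem_Icc]
      exact ⟨⟨mp_pos β x, mp_le β x⟩, hβ.2⟩
    · rw [Finset.mem_filter]
      exact ⟨Finset.mem_univ _, rfl⟩
  refine (Finset.card_le_card hsub).trans (Finset.card_biUnion_le.trans ?_)
  refine (Finset.sum_le_sum fun l _ => card_period x l).trans ?_
  rw [Finset.sum_const, smul_eq_mul, dv, mul_comm]

private theorem d_fact (d : ℕ) (hd : 0 < d) : d * (d - 1).factorial = d.factorial := by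
  obtain ⟨e, rfl⟩ : ∃ e, d = e + 1 := ⟨d - 1, by omega⟩
  rw [Nat.factorial_succ, Nat.add_sub_cancel]

theorem sum_fx (d m : ℕ) : ∑ β : Perm (Fin d), fx (β ^ m) ≤ d.factorial * dv d m := by
  have h1 : ∑ β : Perm (Fin d), fx (β ^ m) = ∑ x : Fin d,
      (Finset.univ.filter fun β : Perm (Fin d) => Function.minimalPeriod β x ∣ m).card := by
    unfold fx
    simp_rw [Finset.card_filter, pow_fix_iff]
    exact Finset.sum_comm
  rw [h1]
  rcases Nat.eq_zero_or_pos d with rfl | hd
  · simp
  refine (Finset.sum_le_sum fun x _ => card_dvd m x).trans ?_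
  rw [Finset.sum_const, Finset.card_univ, Fintype.card_fin, smul_eq_mul, ← mul_assoc, d_fact d hd]

/-- the permutations with a cycle of length `l` -/
private theorem card_len (d l : ℕ) (hl : 0 < l) (hd : 0 < d) :
    ((Finset.univ.filter fun β : Perm (Fin d) => ∃ x, Function.minimalPeriod β x = l).card : ℝ) ≤
      d.factorial * ((1 : ℝ) / l) := by
  have h1 : (Finset.univ.filter fun β : Perm (Fin d) => ∃ x, Function.minimalPeriod β x = l).card * l
      ≤ d.factorial := by
    calc (Finset.univ.filter fun β : Perm (Fin d) => ∃ x, Function.minimalPeriod β x = l).card * l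
        = ∑ β ∈ (Finset.univ.filter fun β : Perm (Fin d) => ∃ x, Function.minimalPeriod β x = l), l := by
          rw [Finset.sum_const, smul_eq_mul]
      _ ≤ ∑ β ∈ (Finset.univ.filter fun β : Perm (Fin d) => ∃ x, Function.minimalPeriod β x = l),
            (Finset.univ.filter fun x : Fin d => Function.minimalPeriod β x = l).card := by
          refine Finset.sum_le_sum fun β hβ => ?_
          rw [Finset.mem_filter] at hβ
          obtain ⟨x, hx⟩ := hβ.2
          have : cyc β x ⊆ Finset.univ.filter fun x : Fin d => Function.minimalPeriod β x = l := by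
            intro y hy
            rw [Finset.mem_filter]
            exact ⟨Finset.mem_univ _, (mp_cyc β x y hy).trans hx⟩
          have h2 := Finset.card_le_card this
          rwa [card_cyc, hx] at h2
      _ ≤ ∑ β : Perm (Fin d), (Finset.univ.filter fun x : Fin d => Function.minimalPeriod β x = l).card := by
          exact Finset.sum_le_sum_of_subset (Finset.filter_subset _ _)
      _ = ∑ x : Fin d, (Finset.univ.filter fun β : Perm (Fin d) => Function.minimalPeriod β x = l).card := by
          simp_rw [Finset.card_filter]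
          exact Finset.sum_comm
      _ ≤ ∑ x : Fin d, (d - 1).factorial := Finset.sum_le_sum fun x _ => card_period x l
      _ = d.factorial := by
          rw [Finset.sum_const, Finset.card_univ, Fintype.card_fin, smul_eq_mul, d_fact d hd]
  have h2 : (0 : ℝ) < l := by exact_mod_cast hl
  rw [mul_one_div, le_div_iff₀ h2]
  exact_mod_cast h1

open Classical in
private theorem card_pairs {d : ℕ} (m : ℕ) (x y : Fin d) (hxy : x ≠ y) :
    (Finset.univ.filter fun β : Perm (Fin d) => Function.minimalPeriod β x ∣ m ∧
      Function.minimalPeriod β y ∣ m ∧ ¬ β.SameCycle x y).card ≤ (dv d m) ^ 2 * (d - 2).factorial := by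
  have hsub : (Finset.univ.filter fun β : Perm (Fin d) => Function.minimalPeriod β x ∣ m ∧
      Function.minimalPeriod β y ∣ m ∧ ¬ β.SameCycle x y) ⊆
      (((Finset.Icc 1 d).filter (· ∣ m)) ×ˢ ((Finset.Icc 1 d).filter (· ∣ m))).biUnion fun q =>
        Finset.univ.filter fun β : Perm (Fin d) => Function.minimalPeriod β x = q.1 ∧
          Function.minimalPeriod β y = q.2 ∧ ¬ β.SameCycle x y := by
    intro β hβ
    rw [Finset.mem_filter] at hβ
    rw [Finset.mem_biUnion]
    refine ⟨(Function.minimalPeriod β x, Function.minimalPeriod β y), ?_, ?_⟩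
    · rw [Finset.mem_product, Finset.mem_filter, Finset.mem_filter, Finset.mem_Icc, Finset.mem_Icc]
      exact ⟨⟨⟨mp_pos β x, mp_le β x⟩, hβ.2.1⟩, ⟨⟨mp_pos β y, mp_le β y⟩, hβ.2.2.1⟩⟩
    · rw [Finset.mem_filter]
      exact ⟨Finset.mem_univ _, rfl, rfl, hβ.2.2.2⟩
  refine (Finset.card_le_card hsub).trans (Finset.card_biUnion_le.trans ?_)
  refine (Finset.sum_le_sum fun q _ => card_pair x y hxy q.1 q.2).trans ?_
  rw [Finset.sum_const, smul_eq_mul, Finset.card_product, dv, sq]

theorem near_id (d m r t : ℕ) (ht : 0 < t) (htd : t ≤ d) (hr : 2 * r ≤ t) :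
    ((Finset.univ.filter fun β : Perm (Fin d) => d ≤ fx (β ^ m) + r).card : ℝ) ≤
      d.factorial * ((∑ l ∈ (Finset.Ioc (d - t) d).filter (· ∣ m), (1 : ℝ) / l)
        + 4 * (dv d m : ℝ) ^ 2 / (d * t)) := by
  classical
  have hd : 0 < d := lt_of_lt_of_le ht htd
  set S2 : Finset (Perm (Fin d)) := Finset.univ.filter fun β : Perm (Fin d) =>
    d ≤ fx (β ^ m) + r ∧ ∀ x, Function.minimalPeriod β x ∣ m → Function.minimalPeriod β x ≤ d - t
    with hS2
  have hsub : (Finset.univ.filter fun β : Perm (Fin d) => d ≤ fx (β ^ m) + r) ⊆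
      (((Finset.Ioc (d - t) d).filter (· ∣ m)).biUnion fun l =>
        Finset.univ.filter fun β : Perm (Fin d) => ∃ x, Function.minimalPeriod β x = l) ∪ S2 := by
    intro β hβ
    rw [Finset.mem_filter] at hβ
    rw [Finset.mem_union]
    by_cases h : ∀ x, Function.minimalPeriod β x ∣ m → Function.minimalPeriod β x ≤ d - t
    · right
      rw [hS2, Finset.mem_filter]
      exact ⟨Finset.mem_univ _, hβ.2, h⟩
    · left
      push Not at h
      obtain ⟨x, hx, hx2⟩ := h
      rw [Finset.mem_biUnion]
      refine ⟨Function.minimalPeriod β x, ?_, ?_⟩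
      · rw [Finset.mem_filter, Finset.mem_Ioc]
        exact ⟨⟨hx2, mp_le β x⟩, hx⟩
      · rw [Finset.mem_filter]
        exact ⟨Finset.mem_univ _, x, rfl⟩
  have hA : (((((Finset.Ioc (d - t) d).filter (· ∣ m)).biUnion fun l =>
        Finset.univ.filter fun β : Perm (Fin d) => ∃ x, Function.minimalPeriod β x = l).card : ℕ) : ℝ)
      ≤ d.factorial * (∑ l ∈ (Finset.Ioc (d - t) d).filter (· ∣ m), (1 : ℝ) / l) := by
    refine (Nat.cast_le.mpr Finset.card_biUnion_le).trans ?_
    push_cast
    rw [Finset.mul_sum]
    refine Finset.sum_le_sum fun l hl => ?_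
    rw [Finset.mem_filter, Finset.mem_Ioc] at hl
    exact card_len d l (by omega) hd
  -- the pairs
  have hB : S2.card * (d * t) ≤ 4 * (d.factorial * (dv d m) ^ 2) := by
    have key : ∀ β ∈ S2, d * t ≤ 4 * ∑ x : Fin d, ∑ y : Fin d,
        (if x ≠ y ∧ (Function.minimalPeriod β x ∣ m ∧ Function.minimalPeriod β y ∣ m ∧
          ¬ β.SameCycle x y) then 1 else 0) := by
      intro β hβ
      rw [hS2, Finset.mem_filter] at hβ
      obtain ⟨_, h1, h2⟩ := hβ
      set D : Finset (Fin d) := Finset.univ.filter fun x => Function.minimalPeriod β x ∣ m with hD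
      have hDc : fx (β ^ m) = D.card := by
        unfold fx
        rw [hD]
        simp_rw [pow_fix_iff]
      rw [hDc] at h1
      have h3 : ∀ x ∈ D, t ≤ 2 * ∑ y : Fin d,
          (if x ≠ y ∧ (Function.minimalPeriod β x ∣ m ∧ Function.minimalPeriod β y ∣ m ∧
          ¬ β.SameCycle x y) then 1 else 0) := by
        intro x hx
        have hxm : Function.minimalPeriod β x ∣ m := by
          rw [hD, Finset.mem_filter] at hx
          exact hx.2
        rw [← Finset.card_filter]
        have h4 : D \ cyc β x ⊆ Finset.univ.filter fun y => x ≠ y ∧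
            (Function.minimalPeriod β x ∣ m ∧ Function.minimalPeriod β y ∣ m ∧
            ¬ β.SameCycle x y) := by
          intro y hy
          rw [Finset.mem_sdiff, hD, Finset.mem_filter] at hy
          rw [Finset.mem_filter]
          refine ⟨Finset.mem_univ _, ?_, hxm, hy.1.2, ?_⟩
          · rintro rfl
            exact hy.2 (same_cyc β x x (Equiv.Perm.SameCycle.refl β x))
          · intro hs
            exact hy.2 (same_cyc β x y hs)
        have h5 := Finset.card_le_card h4
        have h6 : D.card - (cyc β x).card ≤ (D \ cyc β x).card := Finset.le_card_sdiff _ _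
        have h7 := h2 x hxm
        rw [card_cyc] at h6
        omega
      have h8 : D.card * t ≤ 2 * ∑ x : Fin d, ∑ y : Fin d,
          (if x ≠ y ∧ (Function.minimalPeriod β x ∣ m ∧ Function.minimalPeriod β y ∣ m ∧
          ¬ β.SameCycle x y) then 1 else 0) := by
        rw [Finset.mul_sum]
        calc D.card * t = ∑ x ∈ D, t := by rw [Finset.sum_const, smul_eq_mul]
          _ ≤ ∑ x ∈ D, 2 * ∑ y : Fin d,
          (if x ≠ y ∧ (Function.minimalPeriod β x ∣ m ∧ Function.minimalPeriod β y ∣ m ∧
          ¬ β.SameCycle x y) then 1 else 0) := Finset.sum_le_sum h3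
          _ ≤ _ := Finset.sum_le_sum_of_subset (Finset.subset_univ _)
      have h9 : d ≤ 2 * D.card := by omega
      calc d * t ≤ 2 * D.card * t := Nat.mul_le_mul_right _ h9
        _ = 2 * (D.card * t) := by ring
        _ ≤ 2 * (2 * _) := Nat.mul_le_mul_left _ h8
        _ = 4 * _ := by ring
    calc S2.card * (d * t) = ∑ β ∈ S2, d * t := by rw [Finset.sum_const, smul_eq_mul]
      _ ≤ ∑ β ∈ S2, 4 * ∑ x : Fin d, ∑ y : Fin d,
        (if x ≠ y ∧ (Function.minimalPeriod β x ∣ m ∧ Function.minimalPeriod β y ∣ m ∧
          ¬ β.SameCycle x y) then 1 else 0) := Finset.sum_le_sum key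
      _ ≤ ∑ β : Perm (Fin d), 4 * ∑ x : Fin d, ∑ y : Fin d,
        (if x ≠ y ∧ (Function.minimalPeriod β x ∣ m ∧ Function.minimalPeriod β y ∣ m ∧
          ¬ β.SameCycle x y) then 1 else 0) :=
          Finset.sum_le_sum_of_subset (Finset.subset_univ _)
      _ = 4 * ∑ x : Fin d, ∑ y : Fin d, ∑ β : Perm (Fin d),
        (if x ≠ y ∧ (Function.minimalPeriod β x ∣ m ∧ Function.minimalPeriod β y ∣ m ∧
          ¬ β.SameCycle x y) then 1 else 0) := by
          rw [← Finset.mul_sum, Finset.sum_comm]
          congr 1
          refine Finset.sum_congr rfl fun x _ => ?_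
          rw [Finset.sum_comm]
      _ ≤ 4 * ∑ x : Fin d, ∑ y : Fin d, (if x ≠ y then (dv d m) ^ 2 * (d - 2).factorial else 0) := by
          refine Nat.mul_le_mul_left _ (Finset.sum_le_sum fun x _ => Finset.sum_le_sum fun y _ => ?_)
          by_cases hxy : x ≠ y
          · rw [if_pos hxy]
            refine le_trans (le_of_eq ?_) (card_pairs m x y hxy)
            rw [Finset.card_filter]
            refine Finset.sum_congr rfl fun β _ => ?_
            simp only [hxy, true_and, ne_eq, not_false_eq_true]
          · rw [if_neg hxy]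
            simp only [hxy, false_and, if_false, Finset.sum_const_zero, le_refl]
      _ ≤ 4 * (d.factorial * (dv d m) ^ 2) := by
          refine Nat.mul_le_mul_left _ ?_
          have : ∀ x : Fin d, ∑ y : Fin d, (if x ≠ y then (dv d m) ^ 2 * (d - 2).factorial else 0) =
              (d - 1) * ((dv d m) ^ 2 * (d - 2).factorial) := by
            intro x
            rw [← Finset.sum_filter, Finset.sum_const, smul_eq_mul, Finset.filter_ne,
              Finset.card_erase_of_mem (Finset.mem_univ _), Finset.card_univ, Fintype.card_fin]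
          rw [Finset.sum_congr rfl fun x _ => this x, Finset.sum_const, Finset.card_univ,
            Fintype.card_fin, smul_eq_mul]
          have h10 : d * ((d - 1) * (d - 2).factorial) ≤ d.factorial := by
            rcases Nat.lt_or_ge d 2 with h | h
            · have : d = 1 := by omega
              subst this
              simp
            · rw [← d_fact d hd, ← d_fact (d - 1) (by omega)]
              rfl
          calc d * ((d - 1) * ((dv d m) ^ 2 * (d - 2).factorial))
              = (d * ((d - 1) * (d - 2).factorial)) * (dv d m) ^ 2 := by ring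
            _ ≤ d.factorial * (dv d m) ^ 2 := Nat.mul_le_mul_right _ h10
  have hB' : (S2.card : ℝ) ≤ d.factorial * (4 * (dv d m : ℝ) ^ 2 / (d * t)) := by
    have hdt : (0 : ℝ) < d * t := by positivity
    have : (S2.card : ℝ) * (d * t) ≤ 4 * (d.factorial * (dv d m : ℝ) ^ 2) := by exact_mod_cast hB
    rw [mul_div_assoc', le_div_iff₀ hdt]
    linarith
  have hC := (Nat.cast_le (α := ℝ)).mpr ((Finset.card_le_card hsub).trans (Finset.card_union_le _ _))
  push_cast at hC
  rw [mul_add]
  linarith

end Pool.Agent.Helper52.RC
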