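import Pool.Agent.Helper52.RC.Had
import Pool.Agent.Helper52.RC.Stat

/-!
# RC module Avg: the average of the second moment over `β`

`It` is between `0` and `1` (hypothesis `h01`, proved elsewhere), `It (τ⁻¹) = It τ` (transpose of the
matrix), so the double sum is `M It 1 + 2 ∑_{m=1}^{M-1} (M - m) It (β^(2m))` with `It 1 = 1`. `M = K d`.
For `τ = β^(2m)`, `s = d - fx τ` moved points, `δ` small (in terms of `ε`), `r = ⌊√d⌋`,
`t = ⌊d^(3/4)⌋`, `d` large:
* `fx ≤ δ d`: `It ≤ 2/((1-δ)² d) + exp(-δ(1-δ)d/2) ≤ (2 + ε/4)/d`;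
* `δ d < fx`, `s > r`: `It ≤ 5/r`; the proportion of `β` with `fx > δ d` is `≤ dv(d,2m)/(δ d)` (`sum_fx`);
* `s ≤ r`: `It ≤ 1`, proportion by `near_id`.
-/

open Equiv

namespace Pool.Agent.Helper52.RC

theorem avg_It_inv {α : Type*} [Fintype α] [DecidableEq α] (τ : Perm α) : It τ⁻¹ = It τ := by
  unfold It wt
  congr 1
  funext x
  rw [← Matrix.det_transpose]
  congr 1
  ext i j
  simp only [Matrix.transpose_apply, mat, Matrix.of_apply]
  congr 1
  · simp only [eq_comm]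
  · have : (j = τ⁻¹ i) ↔ (i = τ j) := by
      rw [Perm.eq_inv_iff_eq, eq_comm]
    simp only [this]

theorem avg_It_diff {α : Type*} [Fintype α] [DecidableEq α] (β : Perm α) (i j : ℕ) :
    It (β ^ (2 * j) * (β ^ (2 * i))⁻¹) = It (β ^ (2 * ((i - j) + (j - i)))) := by
  rcases le_total i j with h | h
  · obtain ⟨k, rfl⟩ := Nat.exists_eq_add_of_le h
    rw [show i - (i + k) + (i + k - i) = k by omega, show 2 * (i + k) = 2 * k + 2 * i by ring,
      pow_add, mul_inv_cancel_right]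
  · obtain ⟨k, rfl⟩ := Nat.exists_eq_add_of_le h
    rw [show j + k - j + (j - (j + k)) = k by omega, show 2 * (j + k) = 2 * j + 2 * k by ring,
      pow_add, mul_inv_rev, ← avg_It_inv (β ^ (2 * k))]
    congr 1
    rw [← mul_assoc, ((Commute.refl β).pow_pow (2 * j) (2 * k)).inv_right.eq, mul_inv_cancel_right]

theorem avg_sum_dist (f : ℕ → ℝ) (hf : ∀ m, 0 ≤ f m) (M i : ℕ) (hi : i < M) :
    ∑ j ∈ Finset.range M, f ((i - j) + (j - i)) ≤ f 0 + 2 * ∑ m ∈ Finset.Ico 1 M, f m := by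
  have h1 : ∑ j ∈ Finset.range M, f ((i - j) + (j - i)) =
      ∑ m ∈ Finset.range M, ∑ j ∈ (Finset.range M).filter (fun j => (i - j) + (j - i) = m), f m := by
    rw [← Finset.sum_fiberwise_of_maps_to (s := Finset.range M) (t := Finset.range M)
      (g := fun j => (i - j) + (j - i)) (fun j hj => by
        rw [Finset.mem_range] at hj ⊢; omega)]
    refine Finset.sum_congr rfl fun m _ => Finset.sum_congr rfl fun j hj => ?_
    rw [(Finset.mem_filter.1 hj).2]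
  rw [h1, Finset.range_eq_Ico, Finset.sum_eq_sum_Ico_succ_bot (by omega : 0 < M), Finset.mul_sum]
  apply add_le_add
  · rw [Finset.sum_const, nsmul_eq_mul]
    have : ((Finset.Ico 0 M).filter (fun j => (i - j) + (j - i) = 0)).card ≤ 1 := by
      rw [Finset.card_le_one]
      intro a ha b hb
      have := (Finset.mem_filter.1 ha).2
      have := (Finset.mem_filter.1 hb).2
      omega
    have h2 : (((Finset.Ico 0 M).filter (fun j => (i - j) + (j - i) = 0)).card : ℝ) ≤ 1 := by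
      exact_mod_cast this
    nlinarith [hf 0]
  · refine Finset.sum_le_sum fun m _ => ?_
    rw [Finset.sum_const, nsmul_eq_mul]
    have : ((Finset.Ico 0 M).filter (fun j => (i - j) + (j - i) = m)).card ≤ 2 := by
      refine (Finset.card_le_card (t := {i - m, i + m}) ?_).trans Finset.card_le_two
      intro j hj
      have := (Finset.mem_filter.1 hj).2
      simp only [Finset.mem_insert, Finset.mem_singleton]
      omega
    have h2 : (((Finset.Ico 0 M).filter (fun j => (i - j) + (j - i) = m)).card : ℝ) ≤ 2 := by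
      exact_mod_cast this
    nlinarith [hf m]

theorem avg_count (M l : ℕ) (hl : 1 ≤ l) :
    (((Finset.Ico 1 M).filter (fun m => l ∣ 2 * m)).card : ℝ) ≤ 2 * M / l := by
  have h1 : ((Finset.Ico 1 M).filter (fun m => l ∣ 2 * m)).card ≤ (Finset.Icc 1 (2 * M / l)).card := by
    refine Finset.card_le_card_of_injOn (fun m => 2 * m / l) ?_ ?_
    · intro m hm
      simp only [Finset.coe_filter, Finset.mem_Ico, Set.mem_ofPred_eq] at hm
      obtain ⟨⟨h1, h2⟩, k, hk⟩ := hm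
      simp only [Finset.coe_Icc, Set.mem_Icc]
      constructor
      · rw [hk, Nat.mul_div_cancel_left _ (by omega)]
        rcases Nat.eq_zero_or_pos k with h | h
        · subst h; omega
        · exact h
      · exact Nat.div_le_div_right (by omega)
    · intro a ha b hb hab
      simp only [Finset.coe_filter, Finset.mem_Ico, Set.mem_ofPred_eq] at ha hb
      obtain ⟨_, k, hk⟩ := ha
      obtain ⟨_, k', hk'⟩ := hb
      simp only [hk, hk', Nat.mul_div_cancel_left _ (show 0 < l by omega)] at hab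
      subst hab
      omega
  rw [Nat.card_Icc, Nat.add_sub_cancel] at h1
  calc (((Finset.Ico 1 M).filter (fun m => l ∣ 2 * m)).card : ℝ) ≤ ((2 * M / l : ℕ) : ℝ) := by
        exact_mod_cast h1
    _ ≤ ((2 * M : ℕ) : ℝ) / l := Nat.cast_div_le
    _ = 2 * M / l := by push_cast; ring

theorem avg_sum_dv (d M : ℕ) :
    ∑ m ∈ Finset.Ico 1 M, (dv d (2 * m) : ℝ) ≤ 2 * M * (1 + Real.log d) := by
  have h1 : ∑ m ∈ Finset.Ico 1 M, (dv d (2 * m) : ℝ) =
      ∑ l ∈ Finset.Icc 1 d, (((Finset.Ico 1 M).filter (fun m => l ∣ 2 * m)).card : ℝ) := by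
    unfold dv
    simp only [Finset.card_filter, Nat.cast_sum]
    rw [Finset.sum_comm]
  have h2 : ∑ l ∈ Finset.Icc 1 d, (1 : ℝ) / l ≤ 1 + Real.log d := by
    have h := harmonic_le_one_add_log d
    rw [harmonic_eq_sum_Icc] at h
    push_cast at h
    simpa [one_div] using h
  rw [h1]
  calc ∑ l ∈ Finset.Icc 1 d, (((Finset.Ico 1 M).filter (fun m => l ∣ 2 * m)).card : ℝ)
      ≤ ∑ l ∈ Finset.Icc 1 d, 2 * M * ((1 : ℝ) / l) := by
        refine Finset.sum_le_sum fun l hl => ?_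
        rw [Finset.mem_Icc] at hl
        have := avg_count M l hl.1
        rwa [mul_one_div]
    _ = 2 * M * ∑ l ∈ Finset.Icc 1 d, (1 : ℝ) / l := by rw [Finset.mul_sum]
    _ ≤ 2 * M * (1 + Real.log d) := by gcongr

theorem avg_dv_le (d n : ℕ) (hn : 0 < n) : dv d n ≤ 2 * Nat.sqrt n := by
  unfold dv
  have h1 : (Finset.Icc 1 d).filter (· ∣ n) ⊆
      (Finset.Icc 1 (Nat.sqrt n)) ∪ (Finset.Icc 1 (Nat.sqrt n)).image (fun a => n / a) := by
    intro a ha
    rw [Finset.mem_filter, Finset.mem_Icc] at ha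
    obtain ⟨⟨h1, _⟩, b, hb⟩ := ha
    rw [Finset.mem_union, Finset.mem_image]
    have hb0 : 0 < b := Nat.pos_of_ne_zero fun h => by subst h; omega
    by_cases h : a ≤ Nat.sqrt n
    · left; exact Finset.mem_Icc.2 ⟨h1, h⟩
    · right
      refine ⟨b, Finset.mem_Icc.2 ⟨hb0, ?_⟩, ?_⟩
      · by_contra h'
        push Not at h h'
        have h2 : Nat.sqrt n + 1 ≤ a := h
        have h3 : Nat.sqrt n + 1 ≤ b := h'
        have h4 := Nat.mul_le_mul h2 h3
        have h5 := Nat.lt_succ_sqrt n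
        rw [Nat.succ_eq_add_one] at h5
        rw [← hb] at h4
        omega
      · rw [hb, Nat.mul_div_cancel _ hb0]
  refine (Finset.card_le_card h1).trans ((Finset.card_union_le _ _).trans ?_)
  have h2 := Finset.card_image_le (s := Finset.Icc 1 (Nat.sqrt n)) (f := fun a => n / a)
  rw [Nat.card_Icc] at h2 ⊢
  omega

theorem avg_sum_far (d t M : ℕ) (ht : 2 * t ≤ d) (hd : 0 < d) :
    ∑ m ∈ Finset.Ico 1 M, ∑ l ∈ (Finset.Ioc (d - t) d).filter (· ∣ 2 * m), (1 : ℝ) / l ≤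
      8 * t * M / d ^ 2 := by
  have h1 : ∑ m ∈ Finset.Ico 1 M, ∑ l ∈ (Finset.Ioc (d - t) d).filter (· ∣ 2 * m), (1 : ℝ) / l =
      ∑ l ∈ Finset.Ioc (d - t) d,
        (((Finset.Ico 1 M).filter (fun m => l ∣ 2 * m)).card : ℝ) * ((1 : ℝ) / l) := by
    simp only [Finset.sum_filter]
    rw [Finset.sum_comm]
    refine Finset.sum_congr rfl fun l _ => ?_
    rw [Finset.card_filter, Nat.cast_sum, Finset.sum_mul]
    refine Finset.sum_congr rfl fun m _ => ?_
    split_ifs <;> simp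
  rw [h1]
  have hd' : (0 : ℝ) < d := by exact_mod_cast hd
  have h2 : ∀ l ∈ Finset.Ioc (d - t) d,
      (((Finset.Ico 1 M).filter (fun m => l ∣ 2 * m)).card : ℝ) * ((1 : ℝ) / l) ≤
        8 * M / d ^ 2 := by
    intro l hl
    rw [Finset.mem_Ioc] at hl
    have hl1 : d ≤ 2 * l := by omega
    have hl2 : (d : ℝ) ≤ 2 * l := by exact_mod_cast hl1
    have hl0 : (0 : ℝ) < l := by linarith
    have h3 := avg_count M l (by omega)
    calc (((Finset.Ico 1 M).filter (fun m => l ∣ 2 * m)).card : ℝ) * ((1 : ℝ) / l)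
        ≤ (2 * M / l) * ((1 : ℝ) / l) := by gcongr
      _ = 2 * M / l ^ 2 := by field_simp
      _ ≤ 8 * M / d ^ 2 := by
        rw [div_le_div_iff₀ (by positivity) (by positivity)]
        have h4 : (d : ℝ) ^ 2 ≤ (2 * l) ^ 2 := by gcongr
        have hM : (0 : ℝ) ≤ M := Nat.cast_nonneg _
        nlinarith
  refine (Finset.sum_le_sum h2).trans (le_of_eq ?_)
  rw [Finset.sum_const, nsmul_eq_mul, Nat.card_Ioc, Nat.sub_sub_self (by omega)]
  ring

theorem avg_fx_add {d : ℕ} (σ : Perm (Fin d)) : σ.support.card + fx σ = d := by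
  unfold fx
  have h : σ.support = Finset.univ.filter fun x => ¬ σ x = x := by
    ext x; simp [Perm.mem_support]
  rw [h, add_comm, Finset.card_filter_add_card_filter_not, Finset.card_univ, Fintype.card_fin]

/-- the pointwise bound -/
theorem avg_case {d r : ℕ} (hd : 0 < d) (hr : 64 ≤ r) {ε δ : ℝ} (hε : 0 < ε) (hδ : 0 < δ)
    (hδ1 : δ ≤ 1 / 4) (hδ2 : 64 * δ ≤ ε)
    (he : Real.exp (-(δ * ((1 - δ) * d) / 2)) ≤ ε / 8 / d)
    (h01 : ∀ τ : Perm (Fin d), 0 ≤ It τ ∧ It τ ≤ 1) (τ : Perm (Fin d)) :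
    It τ ≤ (2 + ε / 4) / d + (if δ * d < fx τ then 5 / (r : ℝ) else 0) +
      (if d ≤ fx τ + r then 1 else 0) := by
  have hd' : (0 : ℝ) < d := by exact_mod_cast hd
  have hr' : (64 : ℝ) ≤ r := by exact_mod_cast hr
  have hs := avg_fx_add τ
  have hs' : (τ.support.card : ℝ) + fx τ = d := by exact_mod_cast hs
  have ha : 0 ≤ (2 + ε / 4) / d := by positivity
  by_cases h3 : d ≤ fx τ + r
  · rw [if_pos h3]
    have h4 : (0 : ℝ) ≤ if δ * d < fx τ then 5 / (r : ℝ) else 0 := by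
      split_ifs
      · positivity
      · exact le_rfl
    linarith [(h01 τ).2]
  rw [if_neg h3, add_zero]
  have hsr : r < τ.support.card := by omega
  have hsr' : (r : ℝ) < τ.support.card := by exact_mod_cast hsr
  have hs0 : 0 < τ.support.card := by omega
  by_cases h2 : δ * d < fx τ
  · rw [if_pos h2]
    have h4 := It_le τ hs0 (1 / 2) (by norm_num) le_rfl
    have h5 : 2 / ((1 - 1 / 2) * (τ.support.card : ℝ)) ≤ 4 / r := by
      rw [div_le_div_iff₀ (by positivity) (by positivity)]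
      linarith
    have h6 : Real.exp (-(1 / 2 * (τ.support.card : ℝ) / 2)) ≤ 1 / r := by
      have h7 : Real.exp (-(1 / 2 * (τ.support.card : ℝ) / 2)) ≤ Real.exp (-(r / 4)) :=
        Real.exp_le_exp.2 (by linarith)
      refine h7.trans ?_
      rw [Real.exp_neg, one_div]
      apply inv_anti₀ (by positivity)
      have h8 := Real.add_one_le_exp ((r : ℝ) / 8)
      have h9 : Real.exp ((r : ℝ) / 4) = Real.exp (r / 8) * Real.exp (r / 8) := by
        rw [← Real.exp_add]; congr 1; ring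
      rw [h9]
      nlinarith
    have h7 : (5 : ℝ) / r = 4 / r + 1 / r := by ring
    linarith
  · rw [if_neg h2, add_zero]
    push Not at h2
    have h3 : (1 - δ) * d ≤ τ.support.card := by linarith
    have h4 := It_le τ hs0 δ hδ (by linarith)
    have h5 : 2 / ((1 - δ) * (τ.support.card : ℝ)) ≤ (2 + ε / 8) / d := by
      have h6 : 0 < 1 - δ := by linarith
      rw [div_le_div_iff₀ (by positivity) (by positivity)]
      have h7 : (1 - δ) * ((1 - δ) * d) ≤ (1 - δ) * (τ.support.card : ℝ) := by gcongr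
      have h8 : 2 ≤ (2 + ε / 8) * ((1 - δ) * (1 - δ)) := by nlinarith [sq_nonneg δ]
      nlinarith
    have h6 : Real.exp (-(δ * (τ.support.card : ℝ) / 2)) ≤ ε / 8 / d := by
      refine le_trans (Real.exp_le_exp.2 ?_) he
      have : δ * ((1 - δ) * d) ≤ δ * (τ.support.card : ℝ) := by gcongr
      linarith
    have h7 : (2 + ε / 4) / d = (2 + ε / 8) / d + ε / 8 / d := by ring
    linarith

/-- sum over `β` -/
theorem avg_sum_beta {d r t m : ℕ} (hd : 0 < d) (hr : 64 ≤ r) (ht : 2 * r ≤ t) (htd : t ≤ d)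
    {ε δ : ℝ} (hε : 0 < ε) (hδ : 0 < δ) (hδ1 : δ ≤ 1 / 4) (hδ2 : 64 * δ ≤ ε)
    (he : Real.exp (-(δ * ((1 - δ) * d) / 2)) ≤ ε / 8 / d)
    (h01 : ∀ τ : Perm (Fin d), 0 ≤ It τ ∧ It τ ≤ 1) :
    ∑ β : Perm (Fin d), It (β ^ m) ≤ d.factorial * ((2 + ε / 4) / d +
      (5 / (r * (δ * d)) * dv d m +
        (∑ l ∈ (Finset.Ioc (d - t) d).filter (· ∣ m), (1 : ℝ) / l) +
        4 * (dv d m : ℝ) ^ 2 / (d * t))) := by
  have hd' : (0 : ℝ) < d := by exact_mod_cast hd
  have hr' : (64 : ℝ) ≤ r := by exact_mod_cast hr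
  have h1 : ∑ β : Perm (Fin d), It (β ^ m) ≤ ∑ β : Perm (Fin d), ((2 + ε / 4) / d +
      (if δ * d < fx (β ^ m) then 5 / (r : ℝ) else 0) + (if d ≤ fx (β ^ m) + r then 1 else 0)) :=
    Finset.sum_le_sum fun β _ => avg_case hd hr hε hδ hδ1 hδ2 he h01 _
  refine h1.trans ?_
  rw [Finset.sum_add_distrib, Finset.sum_add_distrib, Finset.sum_const, Finset.card_univ,
    Fintype.card_perm, Fintype.card_fin, nsmul_eq_mul]
  have h2 : ∑ β : Perm (Fin d), (if δ * d < fx (β ^ m) then 5 / (r : ℝ) else 0) ≤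
      d.factorial * (5 / (r * (δ * d)) * dv d m) := by
    have h3 : ∀ β : Perm (Fin d), (if δ * d < fx (β ^ m) then 5 / (r : ℝ) else 0) ≤
        5 / (r * (δ * d)) * (fx (β ^ m) : ℝ) := by
      intro β
      split_ifs with h
      · rw [div_mul_eq_mul_div, div_le_div_iff₀ (by positivity) (by positivity)]
        have : 0 < 5 * (r : ℝ) := by positivity
        nlinarith
      · positivity
    refine (Finset.sum_le_sum fun β _ => h3 β).trans ?_
    rw [← Finset.mul_sum]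
    have h4 : ∑ β : Perm (Fin d), (fx (β ^ m) : ℝ) ≤ d.factorial * dv d m := by
      have := sum_fx d m
      exact_mod_cast this
    calc 5 / (r * (δ * d)) * ∑ β : Perm (Fin d), (fx (β ^ m) : ℝ)
        ≤ 5 / (r * (δ * d)) * (d.factorial * dv d m) := by gcongr
      _ = _ := by ring
  have h3 : ∑ β : Perm (Fin d), (if d ≤ fx (β ^ m) + r then (1 : ℝ) else 0) ≤
      d.factorial * ((∑ l ∈ (Finset.Ioc (d - t) d).filter (· ∣ m), (1 : ℝ) / l) +
        4 * (dv d m : ℝ) ^ 2 / (d * t)) := by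
    rw [← Finset.sum_filter, Finset.sum_const, nsmul_eq_mul, mul_one]
    exact near_id d m r t (by omega) htd ht
  calc _ ≤ (d.factorial : ℝ) * ((2 + ε / 4) / d) + d.factorial * (5 / (r * (δ * d)) * dv d m) +
        d.factorial * ((∑ l ∈ (Finset.Ioc (d - t) d).filter (· ∣ m), (1 : ℝ) / l) +
        4 * (dv d m : ℝ) ^ 2 / (d * t)) := by gcongr
    _ = _ := by ring

/-- the error terms -/
theorem avg_err {d r t K : ℕ} (hK : 0 < K) {x δ C : ℝ} (hδ : 0 < δ) (hx : 9 ≤ x) (hxd : x ^ 4 = d)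
    (hr1 : x ^ 2 / 2 ≤ r) (ht1 : x ^ 3 / 2 ≤ t) (ht2 : (t : ℝ) ≤ x ^ 3) (htd : 2 * t ≤ d)
    (hd : 0 < d) (hC : (20 / δ + 8 + 32 * √(2 * K)) * ((1 + Real.log d) / x) ≤ C) :
    (d : ℝ) / (K * d : ℕ) * ∑ m ∈ Finset.Ico 1 (K * d), (5 / (r * (δ * d)) * dv d (2 * m) +
        (∑ l ∈ (Finset.Ioc (d - t) d).filter (· ∣ 2 * m), (1 : ℝ) / l) +
        4 * (dv d (2 * m) : ℝ) ^ 2 / (d * t)) ≤ C := by
  have hd' : (0 : ℝ) < d := by exact_mod_cast hd
  have hK' : (0 : ℝ) < K := by exact_mod_cast hK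
  have hx0 : 0 < x := by linarith
  have hd1 : (1 : ℝ) ≤ d := by exact_mod_cast hd
  have hlog : 0 ≤ Real.log d := Real.log_nonneg hd1
  set L := 1 + Real.log d with hL
  have hL1 : 1 ≤ L := by linarith
  set M := K * d with hM
  have hM0 : 0 < M := Nat.mul_pos hK hd
  have hM' : (0 : ℝ) < M := by exact_mod_cast hM0
  have hMr : (M : ℝ) = K * d := by rw [hM]; push_cast; ring
  have hr0 : (0 : ℝ) < r := by nlinarith
  have ht0 : (0 : ℝ) < t := by
    have : 0 < x ^ 3 / 2 := by positivity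
    linarith
  have hsd := avg_sum_dv d M
  rw [← hL] at hsd
  have hsq : ∀ m ∈ Finset.Ico 1 M, (dv d (2 * m) : ℝ) ^ 2 ≤ 2 * √(2 * M) * dv d (2 * m) := by
    intro m hm
    rw [Finset.mem_Ico] at hm
    have h1 := avg_dv_le d (2 * m) (by omega)
    have h2 : (dv d (2 * m) : ℝ) ≤ 2 * (Nat.sqrt (2 * m) : ℝ) := by exact_mod_cast h1
    have h3 : (Nat.sqrt (2 * m) : ℝ) ≤ √(2 * M) := by
      refine (Real.nat_sqrt_le_real_sqrt).trans (Real.sqrt_le_sqrt ?_)
      push_cast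
      have : (m : ℝ) ≤ M := by exact_mod_cast hm.2.le
      linarith
    rw [sq]
    gcongr
    linarith
  rw [Finset.sum_add_distrib, Finset.sum_add_distrib, ← Finset.mul_sum]
  have e1 : (d : ℝ) / M * (5 / (r * (δ * d)) * ∑ m ∈ Finset.Ico 1 M, (dv d (2 * m) : ℝ)) ≤
      20 / δ * (L / x) := by
    calc (d : ℝ) / M * (5 / (r * (δ * d)) * ∑ m ∈ Finset.Ico 1 M, (dv d (2 * m) : ℝ))
        ≤ (d : ℝ) / M * (5 / (r * (δ * d)) * (2 * M * L)) := by gcongr
      _ = 10 * L / (δ * r) := by field_simp; ring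
      _ ≤ 10 * L / (δ * (x ^ 2 / 2)) := by gcongr
      _ = 20 / δ * (L / x ^ 2) := by field_simp; ring
      _ ≤ 20 / δ * (L / x) := by
        gcongr
        nlinarith
  have e2 : (d : ℝ) / M * (∑ m ∈ Finset.Ico 1 M,
      ∑ l ∈ (Finset.Ioc (d - t) d).filter (· ∣ 2 * m), (1 : ℝ) / l) ≤ 8 * (L / x) := by
    calc (d : ℝ) / M * (∑ m ∈ Finset.Ico 1 M,
          ∑ l ∈ (Finset.Ioc (d - t) d).filter (· ∣ 2 * m), (1 : ℝ) / l)
        ≤ (d : ℝ) / M * (8 * t * M / d ^ 2) := by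
          gcongr
          exact avg_sum_far d t M htd hd
      _ = 8 * (t / d) := by field_simp
      _ ≤ 8 * (x ^ 3 / d) := by gcongr
      _ = 8 * (1 / x) := by rw [← hxd]; field_simp
      _ ≤ 8 * (L / x) := by gcongr
  have e3 : (d : ℝ) / M * (∑ m ∈ Finset.Ico 1 M, 4 * (dv d (2 * m) : ℝ) ^ 2 / (d * t)) ≤
      32 * √(2 * K) * (L / x) := by
    have h1 : √(2 * (M : ℝ)) = √(2 * K) * x ^ 2 := by
      rw [hMr, ← hxd, show 2 * ((K : ℝ) * x ^ 4) = (2 * K) * (x ^ 2) ^ 2 by ring,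
        Real.sqrt_mul (by positivity), Real.sqrt_sq (by positivity)]
    calc (d : ℝ) / M * (∑ m ∈ Finset.Ico 1 M, 4 * (dv d (2 * m) : ℝ) ^ 2 / (d * t))
        ≤ (d : ℝ) / M * (∑ m ∈ Finset.Ico 1 M, 4 * (2 * √(2 * M) * dv d (2 * m)) / (d * t)) := by
          gcongr with m hm
          exact hsq m hm
      _ = (d : ℝ) / M * (8 * √(2 * M) / (d * t) * ∑ m ∈ Finset.Ico 1 M, (dv d (2 * m) : ℝ)) := by
          have : ∑ m ∈ Finset.Ico 1 M, 4 * (2 * √(2 * M) * (dv d (2 * m) : ℝ)) / (d * t) =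
              8 * √(2 * M) / (d * t) * ∑ m ∈ Finset.Ico 1 M, (dv d (2 * m) : ℝ) := by
            rw [Finset.mul_sum]
            refine Finset.sum_congr rfl fun m _ => ?_
            ring
          rw [this]
      _ ≤ (d : ℝ) / M * (8 * √(2 * M) / (d * t) * (2 * M * L)) := by gcongr
      _ = 16 * √(2 * M) * L / t := by field_simp; ring
      _ ≤ 16 * √(2 * M) * L / (x ^ 3 / 2) := by gcongr
      _ = 32 * √(2 * K) * (L / x) := by rw [h1]; field_simp; ring
  calc _ = (d : ℝ) / M * (5 / (r * (δ * d)) * ∑ m ∈ Finset.Ico 1 M, (dv d (2 * m) : ℝ)) +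
        (d : ℝ) / M * (∑ m ∈ Finset.Ico 1 M,
          ∑ l ∈ (Finset.Ioc (d - t) d).filter (· ∣ 2 * m), (1 : ℝ) / l) +
        (d : ℝ) / M * (∑ m ∈ Finset.Ico 1 M, 4 * (dv d (2 * m) : ℝ) ^ 2 / (d * t)) := by ring
    _ ≤ 20 / δ * (L / x) + 8 * (L / x) + 32 * √(2 * K) * (L / x) := by gcongr
    _ = (20 / δ + 8 + 32 * √(2 * K)) * (L / x) := by ring
    _ ≤ C := hC

theorem avg_fin {d r t K : ℕ} (hK : 0 < K) {x ε δ : ℝ} (hε : 0 < ε) (hδ : 0 < δ)
    (hδ1 : δ ≤ 1 / 4) (hδ2 : 64 * δ ≤ ε) (hK2 : 2 ≤ ε * K)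
    (he : Real.exp (-(δ * ((1 - δ) * d) / 2)) ≤ ε / 8 / d) (hx : 9 ≤ x) (hxd : x ^ 4 = d)
    (hr : 64 ≤ r) (ht : 2 * r ≤ t)
    (hr1 : x ^ 2 / 2 ≤ r) (ht1 : x ^ 3 / 2 ≤ t) (ht2 : (t : ℝ) ≤ x ^ 3) (htd : 2 * t ≤ d)
    (hd : 0 < d) (hC : (20 / δ + 8 + 32 * √(2 * K)) * ((1 + Real.log d) / x) ≤ ε / 2)
    (h01 : ∀ τ : Perm (Fin d), 0 ≤ It τ ∧ It τ ≤ 1) :
    (d : ℝ) / (2 * (K * d : ℕ) ^ 2) * ∑ β : Perm (Fin d),
      ∑ i ∈ Finset.range (K * d), ∑ j ∈ Finset.range (K * d), It (β ^ (2 * j) * (β ^ (2 * i))⁻¹) ≤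
    (1 + ε) * d.factorial := by
  have hd' : (0 : ℝ) < d := by exact_mod_cast hd
  have hK' : (0 : ℝ) < K := by exact_mod_cast hK
  have hE := avg_err hK hδ hx hxd hr1 ht1 ht2 htd hd hC
  set M := K * d with hM
  have hM0 : 0 < M := Nat.mul_pos hK hd
  have hM' : (0 : ℝ) < M := by exact_mod_cast hM0
  have hMr : (M : ℝ) = K * d := by rw [hM]; push_cast; ring
  set E : ℕ → ℝ := fun m => 5 / (r * (δ * d)) * dv d (2 * m) +
        (∑ l ∈ (Finset.Ioc (d - t) d).filter (· ∣ 2 * m), (1 : ℝ) / l) +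
        4 * (dv d (2 * m) : ℝ) ^ 2 / (d * t) with hEdef
  have hE0 : ∀ m, 0 ≤ E m := by
    intro m
    have : 0 ≤ ∑ l ∈ (Finset.Ioc (d - t) d).filter (· ∣ 2 * m), (1 : ℝ) / l :=
      Finset.sum_nonneg fun l _ => by positivity
    simp only [hEdef]
    positivity
  set a : ℝ := (2 + ε / 4) / d with ha
  have ha0 : 0 ≤ a := by rw [ha]; positivity
  set f : ℕ → ℝ := fun m => if m = 0 then 1 else E m with hf
  have hf0 : ∀ m, 0 ≤ f m := by
    intro m; simp only [hf]; split_ifs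
    · exact zero_le_one
    · exact hE0 m
  have hfac : (0 : ℝ) ≤ d.factorial := by positivity
  have hA : ∀ m, ∑ β : Perm (Fin d), It (β ^ (2 * m)) ≤ d.factorial * (a + f m) := by
    intro m
    by_cases h : m = 0
    · have h1 : ∑ β : Perm (Fin d), It (β ^ (2 * m)) ≤ ∑ β : Perm (Fin d), (1 : ℝ) :=
        Finset.sum_le_sum fun β _ => (h01 _).2
      rw [Finset.sum_const, Finset.card_univ, Fintype.card_perm, Fintype.card_fin,
        nsmul_eq_mul] at h1
      refine h1.trans ?_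
      simp only [hf, if_pos h]
      gcongr
      linarith
    · simp only [hf, if_neg h]
      exact avg_sum_beta hd hr ht (by omega) hε hδ hδ1 hδ2 he h01
  have h1 : ∑ β : Perm (Fin d), ∑ i ∈ Finset.range M, ∑ j ∈ Finset.range M,
      It (β ^ (2 * j) * (β ^ (2 * i))⁻¹) = ∑ i ∈ Finset.range M, ∑ j ∈ Finset.range M,
      ∑ β : Perm (Fin d), It (β ^ (2 * ((i - j) + (j - i)))) := by
    rw [Finset.sum_comm]
    refine Finset.sum_congr rfl fun i _ => ?_
    rw [Finset.sum_comm]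
    refine Finset.sum_congr rfl fun j _ => Finset.sum_congr rfl fun β _ => ?_
    exact avg_It_diff β i j
  have h2 : ∀ i ∈ Finset.range M, ∑ j ∈ Finset.range M,
      ∑ β : Perm (Fin d), It (β ^ (2 * ((i - j) + (j - i)))) ≤
      d.factorial * (M * a + 1 + 2 * ∑ m ∈ Finset.Ico 1 M, E m) := by
    intro i hi
    have h3 := avg_sum_dist f hf0 M i (Finset.mem_range.1 hi)
    have h4 : ∑ m ∈ Finset.Ico 1 M, f m = ∑ m ∈ Finset.Ico 1 M, E m := by
      refine Finset.sum_congr rfl fun m hm => ?_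
      rw [Finset.mem_Ico] at hm
      simp only [hf, if_neg (show m ≠ 0 by omega)]
    rw [h4] at h3
    have h5 : f 0 = 1 := by simp [hf]
    rw [h5] at h3
    calc _ ≤ ∑ j ∈ Finset.range M, (d.factorial : ℝ) * (a + f ((i - j) + (j - i))) :=
          Finset.sum_le_sum fun j _ => hA _
      _ = d.factorial * (M * a + ∑ j ∈ Finset.range M, f ((i - j) + (j - i))) := by
          rw [← Finset.mul_sum, Finset.sum_add_distrib, Finset.sum_const, Finset.card_range,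
            nsmul_eq_mul]
      _ ≤ d.factorial * (M * a + 1 + 2 * ∑ m ∈ Finset.Ico 1 M, E m) :=
          mul_le_mul_of_nonneg_left (by linarith) hfac
  rw [h1]
  calc (d : ℝ) / (2 * (M : ℝ) ^ 2) * ∑ i ∈ Finset.range M, ∑ j ∈ Finset.range M,
        ∑ β : Perm (Fin d), It (β ^ (2 * ((i - j) + (j - i))))
      ≤ (d : ℝ) / (2 * (M : ℝ) ^ 2) * ∑ i ∈ Finset.range M,
        (d.factorial * (M * a + 1 + 2 * ∑ m ∈ Finset.Ico 1 M, E m) : ℝ) := by
        gcongr with i hi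
        exact h2 i hi
    _ = d.factorial * (d * a / 2 + d / (2 * M) + d / M * ∑ m ∈ Finset.Ico 1 M, E m) := by
        rw [Finset.sum_const, Finset.card_range, nsmul_eq_mul]
        field_simp
    _ ≤ d.factorial * ((1 + ε / 8) + ε / 4 + ε / 2) := by
        have h3 : (d : ℝ) * a / 2 = 1 + ε / 8 := by rw [ha]; field_simp; ring
        have h4 : (d : ℝ) / (2 * M) ≤ ε / 4 := by
          rw [hMr, div_le_iff₀ (by positivity)]
          nlinarith
        rw [h3]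
        gcongr
    _ ≤ d.factorial * (1 + ε) := mul_le_mul_of_nonneg_left (by linarith) hfac
    _ = (1 + ε) * d.factorial := by ring

open Filter Topology in
theorem avg (ε : ℝ) (hε : 0 < ε) : ∃ K : ℕ, 0 < K ∧ ∃ d₀ : ℕ, ∀ d ≥ d₀,
    (∀ τ : Perm (Fin d), 0 ≤ It τ ∧ It τ ≤ 1) →
    (d : ℝ) / (2 * (K * d : ℕ) ^ 2) * ∑ β : Perm (Fin d),
      ∑ i ∈ Finset.range (K * d), ∑ j ∈ Finset.range (K * d), It (β ^ (2 * j) * (β ^ (2 * i))⁻¹) ≤
    (1 + ε) * d.factorial := by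
  obtain ⟨δ, hδ, hδ1, hδ2⟩ : ∃ δ : ℝ, 0 < δ ∧ δ ≤ 1 / 4 ∧ 64 * δ ≤ ε :=
    ⟨min (ε / 64) (1 / 4), by positivity, min_le_right _ _, by
      have := min_le_left (ε / 64) (1 / 4 : ℝ)
      linarith⟩
  obtain ⟨K, hK, hK2⟩ : ∃ K : ℕ, 0 < K ∧ 2 ≤ ε * K := by
    refine ⟨⌈2 / ε⌉₊ + 1, Nat.succ_pos _, ?_⟩
    have h := Nat.le_ceil (2 / ε)
    rw [div_le_iff₀ hε] at h
    push_cast
    nlinarith
  refine ⟨K, hK, ?_⟩
  have hx : Tendsto (fun d : ℕ => (d : ℝ) ^ (1 / 4 : ℝ)) atTop atTop :=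
    (tendsto_rpow_atTop (by norm_num)).comp tendsto_natCast_atTop_atTop
  have hl : Tendsto (fun d : ℕ => (20 / δ + 8 + 32 * √(2 * K)) *
      ((1 + Real.log d) / (d : ℝ) ^ (1 / 4 : ℝ))) atTop (𝓝 0) := by
    have h1 : Tendsto (fun d : ℕ => Real.log d / (d : ℝ) ^ (1 / 4 : ℝ)) atTop (𝓝 0) :=
      ((isLittleO_log_rpow_atTop (by norm_num : (0 : ℝ) < 1 / 4)).tendsto_div_nhds_zero).comp
        tendsto_natCast_atTop_atTop
    have h2 : Tendsto (fun d : ℕ => 1 / (d : ℝ) ^ (1 / 4 : ℝ)) atTop (𝓝 0) :=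
      (hx.inv_tendsto_atTop).congr fun d => (one_div _).symm
    have h3 := (h2.add h1).const_mul (20 / δ + 8 + 32 * √(2 * K))
    rw [add_zero, mul_zero] at h3
    refine h3.congr fun d => ?_
    rw [add_div]
  have he : ∀ᶠ d : ℕ in atTop, Real.exp (-(δ * ((1 - δ) * d) / 2)) ≤ ε / 8 / d := by
    have hc : 0 < δ * (1 - δ) / 2 := by
      have : 0 < 1 - δ := by linarith
      positivity
    have h1 : Tendsto (fun d : ℕ => δ * (1 - δ) / 2 * (d : ℝ)) atTop atTop :=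
      tendsto_natCast_atTop_atTop.const_mul_atTop hc
    have h2 := (Real.tendsto_pow_mul_exp_neg_atTop_nhds_zero 1).comp h1
    have h3 := h2.eventually (ge_mem_nhds (show (0 : ℝ) < δ * (1 - δ) / 2 * (ε / 8) by positivity))
    filter_upwards [h3, eventually_gt_atTop 0] with d hd hd0
    have hd' : (0 : ℝ) < d := by exact_mod_cast hd0
    simp only [Function.comp, pow_one] at hd
    rw [le_div_iff₀ hd']
    have h4 : δ * (1 - δ) / 2 * (Real.exp (-(δ * ((1 - δ) * d) / 2)) * d) ≤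
        δ * (1 - δ) / 2 * (ε / 8) := by
      refine le_trans (le_of_eq ?_) hd
      rw [show -(δ * ((1 - δ) * (d : ℝ)) / 2) = -(δ * (1 - δ) / 2 * d) by ring]
      ring
    exact le_of_mul_le_mul_left h4 hc
  have hall := (hx.eventually (eventually_ge_atTop 9)).and
    ((hl.eventually (ge_mem_nhds (show (0 : ℝ) < ε / 2 by positivity))).and
      (he.and (eventually_gt_atTop 0)))
  obtain ⟨d₀, hd₀⟩ := eventually_atTop.1 hall
  refine ⟨d₀, fun d hd h01 => ?_⟩
  obtain ⟨h1, h2, h3, h4⟩ := hd₀ d hd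
  have hd' : (0 : ℝ) ≤ d := Nat.cast_nonneg _
  have hxd : ((d : ℝ) ^ (1 / 4 : ℝ)) ^ 4 = d := by
    rw [← Real.rpow_natCast, ← Real.rpow_mul hd']
    norm_num
  generalize (d : ℝ) ^ (1 / 4 : ℝ) = x at h1 h2 hxd
  have hr1 := Nat.lt_floor_add_one (x ^ 2)
  have ht1 := Nat.lt_floor_add_one (x ^ 3)
  have hr2 := Nat.floor_le (show 0 ≤ x ^ 2 by positivity)
  have ht2 := Nat.floor_le (show 0 ≤ x ^ 3 by positivity)
  have hx2 : 81 ≤ x ^ 2 := by nlinarith
  have hx3 : 9 * x ^ 2 ≤ x ^ 3 := by nlinarith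
  have hx4 : 9 * x ^ 3 ≤ x ^ 4 := by
    have : 0 ≤ x ^ 3 := by positivity
    nlinarith
  refine avg_fin hK (x := x) (r := ⌊x ^ 2⌋₊) (t := ⌊x ^ 3⌋₊) hε hδ hδ1 hδ2 hK2 h3 h1 hxd
    (Nat.le_floor (by push_cast; linarith)) (Nat.le_floor (by push_cast; linarith))
    (by linarith) (by linarith) ht2 ?_ h4 h2 h01
  have : (2 * ⌊x ^ 3⌋₊ : ℝ) ≤ d := by rw [← hxd]; linarith
  exact_mod_cast this

end Pool.Agent.Helper52.RC
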