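import Pool.Agent.Helper52.RC.Avg

/-!
# RC module AvgG: the average of the second moment over `β`, general form

The same proof as in `Avg`, for a function `G` with `0 ≤ G ≤ 1`, `G τ⁻¹ = G τ` and the bound `hG`.
-/

open Equiv

namespace Pool.Agent.Helper52.RC

theorem gavg_diff {d : ℕ} (G : Perm (Fin d) → ℝ) (hinv : ∀ τ, G τ⁻¹ = G τ) (β : Perm (Fin d))
    (i j : ℕ) :
    G (β ^ (2 * j) * (β ^ (2 * i))⁻¹) = G (β ^ (2 * ((i - j) + (j - i)))) := by
  rcases le_total i j with h | h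
  · obtain ⟨k, rfl⟩ := Nat.exists_eq_add_of_le h
    rw [show i - (i + k) + (i + k - i) = k by omega, show 2 * (i + k) = 2 * k + 2 * i by ring,
      pow_add, mul_inv_cancel_right]
  · obtain ⟨k, rfl⟩ := Nat.exists_eq_add_of_le h
    rw [show j + k - j + (j - (j + k)) = k by omega, show 2 * (j + k) = 2 * j + 2 * k by ring,
      pow_add, mul_inv_rev, ← hinv (β ^ (2 * k))]
    congr 1
    rw [← mul_assoc, ((Commute.refl β).pow_pow (2 * j) (2 * k)).inv_right.eq, mul_inv_cancel_right]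

/-- the bound for `G` used in `avg_gen` -/
def GBd (d : ℕ) (G : Perm (Fin d) → ℝ) : Prop :=
  ∀ τ, ∀ δ : ℝ, 0 < δ → δ ≤ 1 / 2 → fx τ + 4 < d →
      G τ ≤ (1 + fx τ / d + 1 / (d - 2)) * (2 / ((1 - δ) * ((d : ℝ) - fx τ - 4)) +
        Real.exp (-(δ * ((d : ℝ) - fx τ - 4) / 2)))

/-- the pointwise bound -/
theorem gavg_case {d r : ℕ} (hd : 0 < d) (hr : 64 ≤ r) {ε δ : ℝ} (hε : 0 < ε) (hδ : 0 < δ)
    (hδ1 : δ ≤ 1 / 16) (hδ2 : 128 * δ ≤ ε) (hδd : 4 ≤ δ * d)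
    (he : 2 * Real.exp (-(δ * ((1 - 2 * δ) * d) / 2)) ≤ ε / 8 / d)
    (G : Perm (Fin d) → ℝ) (hG : GBd d G)
    (h01 : ∀ τ : Perm (Fin d), 0 ≤ G τ ∧ G τ ≤ 1) (τ : Perm (Fin d)) :
    G τ ≤ (2 + ε / 4) / d + (if δ * d < fx τ then 16 / (r : ℝ) else 0) +
      (if d ≤ fx τ + r then 1 else 0) := by
  have hd' : (0 : ℝ) < d := by exact_mod_cast hd
  have hr' : (64 : ℝ) ≤ r := by exact_mod_cast hr
  have ha : 0 ≤ (2 + ε / 4) / d := by positivity
  by_cases h3 : d ≤ fx τ + r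
  · rw [if_pos h3]
    have h4 : (0 : ℝ) ≤ if δ * d < fx τ then 16 / (r : ℝ) else 0 := by
      split_ifs
      · positivity
      · exact le_rfl
    linarith [(h01 τ).2]
  rw [if_neg h3, add_zero]
  have hsr : fx τ + r < d := by omega
  have hsr' : (fx τ : ℝ) + r < d := by exact_mod_cast hsr
  have hfx0 : (0 : ℝ) ≤ fx τ := Nat.cast_nonneg _
  have hd64 : (64 : ℝ) ≤ d := by linarith
  have hfx1 : (fx τ : ℝ) / d ≤ 1 := by
    rw [div_le_one hd']; linarith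
  have hd2 : 1 / ((d : ℝ) - 2) ≤ δ := by
    rw [div_le_iff₀ (by linarith)]
    nlinarith
  have hd20 : 0 ≤ 1 / ((d : ℝ) - 2) := by
    apply div_nonneg zero_le_one; linarith
  by_cases h2 : δ * d < fx τ
  · rw [if_pos h2]
    have h4 := hG τ (1 / 2) (by norm_num) le_rfl (by omega)
    set y : ℝ := (d : ℝ) - fx τ - 4 with hy
    have hy1 : (r : ℝ) - 4 < y := by rw [hy]; linarith
    have hy0 : (60 : ℝ) < y := by linarith
    have h5 : 2 / ((1 - 1 / 2) * y) = 4 / y := by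
      field_simp; ring
    have h6 : Real.exp (-(1 / 2 * y / 2)) ≤ 1 / y := by
      rw [show -(1 / 2 * y / 2) = -(y / 4) by ring, Real.exp_neg, one_div]
      apply inv_anti₀ (by positivity)
      have h8 := Real.add_one_le_exp (y / 8)
      have h9 : Real.exp (y / 4) = Real.exp (y / 8) * Real.exp (y / 8) := by
        rw [← Real.exp_add]; congr 1; ring
      rw [h9]
      nlinarith
    have h7 : (2 / ((1 - 1 / 2) * y) + Real.exp (-(1 / 2 * y / 2))) ≤ 5 / y := by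
      rw [h5]
      have : (5 : ℝ) / y = 4 / y + 1 / y := by ring
      linarith
    have h8 : (0 : ℝ) ≤ 1 + fx τ / d + 1 / ((d : ℝ) - 2) := by positivity
    have h9 : (1 : ℝ) + fx τ / d + 1 / ((d : ℝ) - 2) ≤ 3 := by linarith
    calc G τ ≤ _ := h4
      _ ≤ 3 * (5 / y) := mul_le_mul h9 h7 (by positivity) (by norm_num)
      _ ≤ 16 / r := by
        rw [← mul_div_assoc, div_le_div_iff₀ (by positivity) (by positivity)]
        linarith
      _ ≤ _ := by linarith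
  · rw [if_neg h2, add_zero]
    push Not at h2
    have h4 := hG τ δ hδ (by linarith) (by omega)
    set y : ℝ := (d : ℝ) - fx τ - 4 with hy
    have hy1 : (1 - 2 * δ) * d ≤ y := by rw [hy]; linarith
    have hy0 : 0 < (1 - 2 * δ) * (d : ℝ) := by
      have : 0 < 1 - 2 * δ := by linarith
      positivity
    have hy00 : 0 < y := by linarith
    have h1δ : 0 < 1 - δ := by linarith
    have hfac : (1 : ℝ) + fx τ / d + 1 / ((d : ℝ) - 2) ≤ 1 + 2 * δ := by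
      have : (fx τ : ℝ) / d ≤ δ := by rw [div_le_iff₀ hd']; exact h2
      linarith
    have h8 : (0 : ℝ) ≤ 1 + fx τ / d + 1 / ((d : ℝ) - 2) := by positivity
    have h5 : (1 + 2 * δ) * (2 / ((1 - δ) * y)) ≤ (2 + ε / 8) / d := by
      rw [← mul_div_assoc, div_le_div_iff₀ (by positivity) (by positivity)]
      have h7 : (1 - δ) * ((1 - 2 * δ) * d) ≤ (1 - δ) * y := by gcongr
      have h9 : (1 + 2 * δ) * 2 ≤ (2 + 16 * δ) * ((1 - δ) * (1 - 2 * δ)) := by nlinarith [sq_nonneg δ]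
      have h10 : (2 + 16 * δ) ≤ 2 + ε / 8 := by linarith
      have h11 : 0 < (1 - δ) * (1 - 2 * δ) := by
        have : 0 < 1 - 2 * δ := by linarith
        positivity
      calc (1 + 2 * δ) * 2 * (d : ℝ) ≤ (2 + 16 * δ) * ((1 - δ) * (1 - 2 * δ)) * d := by gcongr
        _ = (2 + 16 * δ) * ((1 - δ) * ((1 - 2 * δ) * d)) := by ring
        _ ≤ (2 + ε / 8) * ((1 - δ) * y) := by gcongr
    have h6 : (1 + 2 * δ) * Real.exp (-(δ * y / 2)) ≤ ε / 8 / d := by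
      refine le_trans ?_ he
      have h7 : Real.exp (-(δ * y / 2)) ≤ Real.exp (-(δ * ((1 - 2 * δ) * d) / 2)) := by
        apply Real.exp_le_exp.2
        have : δ * ((1 - 2 * δ) * d) ≤ δ * y := by gcongr
        linarith
      have h9 : (1 + 2 * δ) ≤ 2 := by linarith
      exact mul_le_mul h9 h7 (Real.exp_nonneg _) (by norm_num)
    calc G τ ≤ _ := h4
      _ ≤ (1 + 2 * δ) * (2 / ((1 - δ) * y) + Real.exp (-(δ * y / 2))) :=
          mul_le_mul_of_nonneg_right hfac (by positivity)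
      _ = (1 + 2 * δ) * (2 / ((1 - δ) * y)) + (1 + 2 * δ) * Real.exp (-(δ * y / 2)) := by ring
      _ ≤ (2 + ε / 8) / d + ε / 8 / d := by gcongr
      _ = (2 + ε / 4) / d := by ring

/-- sum over `β` -/
theorem gavg_sum_beta {d r t m : ℕ} (hd : 0 < d) (hr : 64 ≤ r) (ht : 2 * r ≤ t) (htd : t ≤ d)
    {ε δ : ℝ} (hε : 0 < ε) (hδ : 0 < δ)
    (hδ1 : δ ≤ 1 / 16) (hδ2 : 128 * δ ≤ ε) (hδd : 4 ≤ δ * d)
    (he : 2 * Real.exp (-(δ * ((1 - 2 * δ) * d) / 2)) ≤ ε / 8 / d)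
    (G : Perm (Fin d) → ℝ) (hG : GBd d G)
    (h01 : ∀ τ : Perm (Fin d), 0 ≤ G τ ∧ G τ ≤ 1) :
    ∑ β : Perm (Fin d), G (β ^ m) ≤ d.factorial * ((2 + ε / 4) / d + 4 *
      (5 / (r * (δ * d)) * dv d m +
        (∑ l ∈ (Finset.Ioc (d - t) d).filter (· ∣ m), (1 : ℝ) / l) +
        4 * (dv d m : ℝ) ^ 2 / (d * t))) := by
  have hd' : (0 : ℝ) < d := by exact_mod_cast hd
  have hr' : (64 : ℝ) ≤ r := by exact_mod_cast hr
  have h1 : ∑ β : Perm (Fin d), G (β ^ m) ≤ ∑ β : Perm (Fin d), ((2 + ε / 4) / d +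
      (if δ * d < fx (β ^ m) then 16 / (r : ℝ) else 0) + (if d ≤ fx (β ^ m) + r then 1 else 0)) :=
    Finset.sum_le_sum fun β _ => gavg_case hd hr hε hδ hδ1 hδ2 hδd he G hG h01 _
  refine h1.trans ?_
  rw [Finset.sum_add_distrib, Finset.sum_add_distrib, Finset.sum_const, Finset.card_univ,
    Fintype.card_perm, Fintype.card_fin, nsmul_eq_mul]
  have h2 : ∑ β : Perm (Fin d), (if δ * d < fx (β ^ m) then 16 / (r : ℝ) else 0) ≤
      d.factorial * (4 * (5 / (r * (δ * d)) * dv d m)) := by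
    have h3 : ∀ β : Perm (Fin d), (if δ * d < fx (β ^ m) then 16 / (r : ℝ) else 0) ≤
        20 / (r * (δ * d)) * (fx (β ^ m) : ℝ) := by
      intro β
      split_ifs with h
      · rw [div_mul_eq_mul_div, div_le_div_iff₀ (by positivity) (by positivity)]
        have : 0 < 5 * (r : ℝ) := by positivity
        have h5 : 0 < δ * (d : ℝ) := by positivity
        nlinarith
      · positivity
    refine (Finset.sum_le_sum fun β _ => h3 β).trans ?_
    rw [← Finset.mul_sum]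
    have h4 : ∑ β : Perm (Fin d), (fx (β ^ m) : ℝ) ≤ d.factorial * dv d m := by
      have := sum_fx d m
      exact_mod_cast this
    calc 20 / (r * (δ * d)) * ∑ β : Perm (Fin d), (fx (β ^ m) : ℝ)
        ≤ 20 / (r * (δ * d)) * (d.factorial * dv d m) := by gcongr
      _ = _ := by ring
  have h3 : ∑ β : Perm (Fin d), (if d ≤ fx (β ^ m) + r then (1 : ℝ) else 0) ≤
      d.factorial * ((∑ l ∈ (Finset.Ioc (d - t) d).filter (· ∣ m), (1 : ℝ) / l) +
        4 * (dv d m : ℝ) ^ 2 / (d * t)) := by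
    rw [← Finset.sum_filter, Finset.sum_const, nsmul_eq_mul, mul_one]
    exact near_id d m r t (by omega) htd ht
  have h0 : 0 ≤ (∑ l ∈ (Finset.Ioc (d - t) d).filter (· ∣ m), (1 : ℝ) / l) +
        4 * (dv d m : ℝ) ^ 2 / (d * t) := by
    have : 0 ≤ ∑ l ∈ (Finset.Ioc (d - t) d).filter (· ∣ m), (1 : ℝ) / l :=
      Finset.sum_nonneg fun l _ => by positivity
    positivity
  have hf0 : (0 : ℝ) ≤ d.factorial := by positivity
  calc _ ≤ (d.factorial : ℝ) * ((2 + ε / 4) / d) +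
        d.factorial * (4 * (5 / (r * (δ * d)) * dv d m)) +
        d.factorial * ((∑ l ∈ (Finset.Ioc (d - t) d).filter (· ∣ m), (1 : ℝ) / l) +
        4 * (dv d m : ℝ) ^ 2 / (d * t)) := by gcongr
    _ ≤ (d.factorial : ℝ) * ((2 + ε / 4) / d) +
        d.factorial * (4 * (5 / (r * (δ * d)) * dv d m)) +
        d.factorial * (4 * ((∑ l ∈ (Finset.Ioc (d - t) d).filter (· ∣ m), (1 : ℝ) / l) +
        4 * (dv d m : ℝ) ^ 2 / (d * t))) := by
          gcongr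
          linarith
    _ = _ := by ring

theorem gavg_fin {d r t K : ℕ} (hK : 0 < K) {x ε δ : ℝ} (hε : 0 < ε) (hδ : 0 < δ)
    (hδ1 : δ ≤ 1 / 16) (hδ2 : 128 * δ ≤ ε) (hδd : 4 ≤ δ * d) (hK2 : 2 ≤ ε * K)
    (he : 2 * Real.exp (-(δ * ((1 - 2 * δ) * d) / 2)) ≤ ε / 8 / d) (hx : 9 ≤ x) (hxd : x ^ 4 = d)
    (hr : 64 ≤ r) (ht : 2 * r ≤ t)
    (hr1 : x ^ 2 / 2 ≤ r) (ht1 : x ^ 3 / 2 ≤ t) (ht2 : (t : ℝ) ≤ x ^ 3) (htd : 2 * t ≤ d)
    (hd : 0 < d) (hC : (20 / δ + 8 + 32 * √(2 * K)) * ((1 + Real.log d) / x) ≤ ε / 8)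
    (G : Perm (Fin d) → ℝ) (hG : GBd d G) (hinv : ∀ τ, G τ⁻¹ = G τ)
    (h01 : ∀ τ : Perm (Fin d), 0 ≤ G τ ∧ G τ ≤ 1) :
    (d : ℝ) / (2 * (K * d : ℕ) ^ 2) * ∑ β : Perm (Fin d),
      ∑ i ∈ Finset.range (K * d), ∑ j ∈ Finset.range (K * d), G (β ^ (2 * j) * (β ^ (2 * i))⁻¹) ≤
    (1 + ε) * d.factorial := by
  have hd' : (0 : ℝ) < d := by exact_mod_cast hd
  have hK' : (0 : ℝ) < K := by exact_mod_cast hK
  have hE := avg_err hK hδ hx hxd hr1 ht1 ht2 htd hd hC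
  set M := K * d with hM
  have hM0 : 0 < M := Nat.mul_pos hK hd
  have hM' : (0 : ℝ) < M := by exact_mod_cast hM0
  have hMr : (M : ℝ) = K * d := by rw [hM]; push_cast; ring
  set E : ℕ → ℝ := fun m => 5 / (r * (δ * d)) * dv d (2 * m) +
        (∑ l ∈ (Finset.Ioc (d - t) d).filter (· ∣ 2 * m), (1 : ℝ) / l) +
        4 * (dv d (2 * m) : ℝ) ^ 2 / (d * t) with hEdef
  have hE0 : ∀ m, 0 ≤ E m := by
    intro m
    have : 0 ≤ ∑ l ∈ (Finset.Ioc (d - t) d).filter (· ∣ 2 * m), (1 : ℝ) / l :=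
      Finset.sum_nonneg fun l _ => by positivity
    simp only [hEdef]
    positivity
  set a : ℝ := (2 + ε / 4) / d with ha
  have ha0 : 0 ≤ a := by rw [ha]; positivity
  set f : ℕ → ℝ := fun m => if m = 0 then 1 else 4 * E m with hf
  have hf0 : ∀ m, 0 ≤ f m := by
    intro m; simp only [hf]; split_ifs
    · exact zero_le_one
    · have := hE0 m
      linarith
  have hfac : (0 : ℝ) ≤ d.factorial := by positivity
  have hA : ∀ m, ∑ β : Perm (Fin d), G (β ^ (2 * m)) ≤ d.factorial * (a + f m) := by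
    intro m
    by_cases h : m = 0
    · have h1 : ∑ β : Perm (Fin d), G (β ^ (2 * m)) ≤ ∑ β : Perm (Fin d), (1 : ℝ) :=
        Finset.sum_le_sum fun β _ => (h01 _).2
      rw [Finset.sum_const, Finset.card_univ, Fintype.card_perm, Fintype.card_fin,
        nsmul_eq_mul] at h1
      refine h1.trans ?_
      simp only [hf, if_pos h]
      gcongr
      linarith
    · simp only [hf, if_neg h]
      exact gavg_sum_beta hd hr ht (by omega) hε hδ hδ1 hδ2 hδd he G hG h01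
  have h1 : ∑ β : Perm (Fin d), ∑ i ∈ Finset.range M, ∑ j ∈ Finset.range M,
      G (β ^ (2 * j) * (β ^ (2 * i))⁻¹) = ∑ i ∈ Finset.range M, ∑ j ∈ Finset.range M,
      ∑ β : Perm (Fin d), G (β ^ (2 * ((i - j) + (j - i)))) := by
    rw [Finset.sum_comm]
    refine Finset.sum_congr rfl fun i _ => ?_
    rw [Finset.sum_comm]
    refine Finset.sum_congr rfl fun j _ => Finset.sum_congr rfl fun β _ => ?_
    exact gavg_diff G hinv β i j
  have h2 : ∀ i ∈ Finset.range M, ∑ j ∈ Finset.range M,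
      ∑ β : Perm (Fin d), G (β ^ (2 * ((i - j) + (j - i)))) ≤
      d.factorial * (M * a + 1 + 8 * ∑ m ∈ Finset.Ico 1 M, E m) := by
    intro i hi
    have h3 := avg_sum_dist f hf0 M i (Finset.mem_range.1 hi)
    have h4 : ∑ m ∈ Finset.Ico 1 M, f m = 4 * ∑ m ∈ Finset.Ico 1 M, E m := by
      rw [Finset.mul_sum]
      refine Finset.sum_congr rfl fun m hm => ?_
      rw [Finset.mem_Ico] at hm
      simp only [hf, if_neg (show m ≠ 0 by omega)]
    rw [h4] at h3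
    have h5 : f 0 = 1 := by simp [hf]
    rw [h5] at h3
    calc _ ≤ ∑ j ∈ Finset.range M, (d.factorial : ℝ) * (a + f ((i - j) + (j - i))) :=
          Finset.sum_le_sum fun j _ => hA _
      _ = d.factorial * (M * a + ∑ j ∈ Finset.range M, f ((i - j) + (j - i))) := by
          rw [← Finset.mul_sum, Finset.sum_add_distrib, Finset.sum_const, Finset.card_range,
            nsmul_eq_mul]
      _ ≤ d.factorial * (M * a + 1 + 8 * ∑ m ∈ Finset.Ico 1 M, E m) :=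
          mul_le_mul_of_nonneg_left (by linarith) hfac
  rw [h1]
  calc (d : ℝ) / (2 * (M : ℝ) ^ 2) * ∑ i ∈ Finset.range M, ∑ j ∈ Finset.range M,
        ∑ β : Perm (Fin d), G (β ^ (2 * ((i - j) + (j - i))))
      ≤ (d : ℝ) / (2 * (M : ℝ) ^ 2) * ∑ i ∈ Finset.range M,
        (d.factorial * (M * a + 1 + 8 * ∑ m ∈ Finset.Ico 1 M, E m) : ℝ) := by
        gcongr with i hi
        exact h2 i hi
    _ = d.factorial * (d * a / 2 + d / (2 * M) + 4 * (d / M * ∑ m ∈ Finset.Ico 1 M, E m)) := by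
        rw [Finset.sum_const, Finset.card_range, nsmul_eq_mul]
        field_simp
        ring
    _ ≤ d.factorial * ((1 + ε / 8) + ε / 4 + 4 * (ε / 8)) := by
        have h3 : (d : ℝ) * a / 2 = 1 + ε / 8 := by rw [ha]; field_simp; ring
        have h4 : (d : ℝ) / (2 * M) ≤ ε / 4 := by
          rw [hMr, div_le_iff₀ (by positivity)]
          nlinarith
        rw [h3]
        gcongr
    _ ≤ d.factorial * (1 + ε) := mul_le_mul_of_nonneg_left (by linarith) hfac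
    _ = (1 + ε) * d.factorial := by ring

open Filter Topology in
theorem avg_gen (ε : ℝ) (hε : 0 < ε) : ∃ K : ℕ, 0 < K ∧ ∃ d₀ : ℕ, ∀ d ≥ d₀,
    ∀ G : Perm (Fin d) → ℝ, (∀ τ, 0 ≤ G τ ∧ G τ ≤ 1) → (∀ τ, G τ⁻¹ = G τ) →
    (∀ τ, ∀ δ : ℝ, 0 < δ → δ ≤ 1 / 2 → fx τ + 4 < d →
      G τ ≤ (1 + fx τ / d + 1 / (d - 2)) * (2 / ((1 - δ) * ((d : ℝ) - fx τ - 4)) +
        Real.exp (-(δ * ((d : ℝ) - fx τ - 4) / 2)))) →
    (d : ℝ) / (2 * (K * d : ℕ) ^ 2) * ∑ β : Perm (Fin d),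
      ∑ i ∈ Finset.range (K * d), ∑ j ∈ Finset.range (K * d), G (β ^ (2 * j) * (β ^ (2 * i))⁻¹) ≤
    (1 + ε) * d.factorial := by
  obtain ⟨δ, hδ, hδ1, hδ2⟩ : ∃ δ : ℝ, 0 < δ ∧ δ ≤ 1 / 16 ∧ 128 * δ ≤ ε :=
    ⟨min (ε / 128) (1 / 16), by positivity, min_le_right _ _, by
      have := min_le_left (ε / 128) (1 / 16 : ℝ)
      linarith⟩
  obtain ⟨K, hK, hK2⟩ : ∃ K : ℕ, 0 < K ∧ 2 ≤ ε * K := by
    refine ⟨⌈2 / ε⌉₊ + 1, Nat.succ_pos _, ?_⟩
    have h := Nat.le_ceil (2 / ε)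
    rw [div_le_iff₀ hε] at h
    push_cast
    nlinarith
  refine ⟨K, hK, ?_⟩
  have hx : Tendsto (fun d : ℕ => (d : ℝ) ^ (1 / 4 : ℝ)) atTop atTop :=
    (tendsto_rpow_atTop (by norm_num)).comp tendsto_natCast_atTop_atTop
  have hl : Tendsto (fun d : ℕ => (20 / δ + 8 + 32 * √(2 * K)) *
      ((1 + Real.log d) / (d : ℝ) ^ (1 / 4 : ℝ))) atTop (𝓝 0) := by
    have h1 : Tendsto (fun d : ℕ => Real.log d / (d : ℝ) ^ (1 / 4 : ℝ)) atTop (𝓝 0) :=
      ((isLittleO_log_rpow_atTop (by norm_num : (0 : ℝ) < 1 / 4)).tendsto_div_nhds_zero).comp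
        tendsto_natCast_atTop_atTop
    have h2 : Tendsto (fun d : ℕ => 1 / (d : ℝ) ^ (1 / 4 : ℝ)) atTop (𝓝 0) :=
      (hx.inv_tendsto_atTop).congr fun d => (one_div _).symm
    have h3 := (h2.add h1).const_mul (20 / δ + 8 + 32 * √(2 * K))
    rw [add_zero, mul_zero] at h3
    refine h3.congr fun d => ?_
    rw [add_div]
  have he : ∀ᶠ d : ℕ in atTop, 2 * Real.exp (-(δ * ((1 - 2 * δ) * d) / 2)) ≤ ε / 8 / d := by
    have hc : 0 < δ * (1 - 2 * δ) / 2 := by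
      have : 0 < 1 - 2 * δ := by linarith
      positivity
    have h1 : Tendsto (fun d : ℕ => δ * (1 - 2 * δ) / 2 * (d : ℝ)) atTop atTop :=
      tendsto_natCast_atTop_atTop.const_mul_atTop hc
    have h2 := (Real.tendsto_pow_mul_exp_neg_atTop_nhds_zero 1).comp h1
    have h3 := h2.eventually
      (ge_mem_nhds (show (0 : ℝ) < δ * (1 - 2 * δ) / 2 * (ε / 16) by positivity))
    filter_upwards [h3, eventually_gt_atTop 0] with d hd hd0
    have hd' : (0 : ℝ) < d := by exact_mod_cast hd0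
    simp only [Function.comp, pow_one] at hd
    rw [le_div_iff₀ hd']
    have h4 : δ * (1 - 2 * δ) / 2 * (Real.exp (-(δ * ((1 - 2 * δ) * d) / 2)) * d) ≤
        δ * (1 - 2 * δ) / 2 * (ε / 16) := by
      refine le_trans (le_of_eq ?_) hd
      rw [show -(δ * ((1 - 2 * δ) * (d : ℝ)) / 2) = -(δ * (1 - 2 * δ) / 2 * d) by ring]
      ring
    have h5 := le_of_mul_le_mul_left h4 hc
    linarith
  have hdd : ∀ᶠ d : ℕ in atTop, 4 ≤ δ * (d : ℝ) :=
    (tendsto_natCast_atTop_atTop.const_mul_atTop hδ).eventually (eventually_ge_atTop 4)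
  have hall := (hx.eventually (eventually_ge_atTop 9)).and
    ((hl.eventually (ge_mem_nhds (show (0 : ℝ) < ε / 8 by positivity))).and
      (he.and (hdd.and (eventually_gt_atTop 0))))
  obtain ⟨d₀, hd₀⟩ := eventually_atTop.1 hall
  refine ⟨d₀, fun d hd G h01 hinv hG => ?_⟩
  obtain ⟨h1, h2, h3, h5, h4⟩ := hd₀ d hd
  have hd' : (0 : ℝ) ≤ d := Nat.cast_nonneg _
  have hxd : ((d : ℝ) ^ (1 / 4 : ℝ)) ^ 4 = d := by
    rw [← Real.rpow_natCast, ← Real.rpow_mul hd']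
    norm_num
  generalize (d : ℝ) ^ (1 / 4 : ℝ) = x at h1 h2 hxd
  have hr1 := Nat.lt_floor_add_one (x ^ 2)
  have ht1 := Nat.lt_floor_add_one (x ^ 3)
  have hr2 := Nat.floor_le (show 0 ≤ x ^ 2 by positivity)
  have ht2 := Nat.floor_le (show 0 ≤ x ^ 3 by positivity)
  have hx2 : 81 ≤ x ^ 2 := by nlinarith
  have hx3 : 9 * x ^ 2 ≤ x ^ 3 := by nlinarith
  have hx4 : 9 * x ^ 3 ≤ x ^ 4 := by
    have : 0 ≤ x ^ 3 := by positivity
    nlinarith
  refine gavg_fin hK (x := x) (r := ⌊x ^ 2⌋₊) (t := ⌊x ^ 3⌋₊) hε hδ hδ1 hδ2 h5 hK2 h3 h1 hxd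
    (Nat.le_floor (by push_cast; linarith)) (Nat.le_floor (by push_cast; linarith))
    (by linarith) (by linarith) ht2 ?_ h4 h2 G hG hinv h01
  have : (2 * ⌊x ^ 3⌋₊ : ℝ) ≤ d := by rw [← hxd]; linarith
  exact_mod_cast this

end Pool.Agent.Helper52.RC
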