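import Pool.Agent.Helper52.RC.Form

/-!
# RC module Cheb: second moment over `α`, for fixed `β`
-/

open Equiv

namespace Pool.Agent.Helper52.RC

namespace Cheb

theorem full_sign {d : ℕ} (hd : Odd d) (hd3 : 3 ≤ d) (ζ : Perm (Fin d))
    (h : Full Finset.univ ζ) : Perm.sign ζ = 1 := by
  have hne : ∀ x, ζ x ≠ x := by
    intro x hx
    obtain ⟨y, hy⟩ : ∃ y : Fin d, y ≠ x := by
      have : Nontrivial (Fin d) := Fin.nontrivial_iff_two_le.2 (by omega)
      exact exists_ne x
    obtain ⟨n, hn⟩ := h.2 x (Finset.mem_univ _) y (Finset.mem_univ _)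
    rw [Perm.zpow_apply_eq_self_of_apply_eq_self hx] at hn
    exact hy hn.symm
  have hc : ζ.IsCycle :=
    ⟨⟨0, by omega⟩, hne _, fun y _ => h.2 _ (Finset.mem_univ _) y (Finset.mem_univ _)⟩
  have hs : ζ.support = Finset.univ := by
    ext x
    simp [hne x]
  rw [hc.sign, hs, Finset.card_univ, Fintype.card_fin, hd.neg_one_pow]
  simp

open Classical in
/-- The indicator of full cycles. -/
noncomputable def F {d : ℕ} (a : Perm (Fin d)) : ℝ := if Full Finset.univ a then 1 else 0

theorem F_sq {d : ℕ} (a : Perm (Fin d)) : F a * F a = F a := by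
  unfold F
  split_ifs <;> simp

/-- The even permutations. -/
def ev (d : ℕ) : Finset (Perm (Fin d)) := Finset.univ.filter fun α => Perm.sign α = 1

theorem sum_FF {d : ℕ} (hd : Odd d) (hd3 : 3 ≤ d) (g g' : Perm (Fin d)) (hg : Perm.sign g = 1) :
    ∑ α ∈ ev d, F (α * g) * F (α * g') = (cnt Finset.univ (g⁻¹ * g') : ℝ) := by
  classical
  have h1 : ∑ α ∈ ev d, F (α * g) * F (α * g') = ∑ α, F (α * g) * F (α * g') := by
    refine Finset.sum_subset (Finset.subset_univ _) fun α _ hα => ?_
    have h2 : ¬ Full Finset.univ (α * g) := by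
      intro hf
      apply hα
      have h3 := full_sign hd hd3 _ hf
      rw [Perm.sign_mul, hg, mul_one] at h3
      simp [ev, h3]
    unfold F
    rw [if_neg h2, zero_mul]
  rw [h1]
  have h2 : ∑ α, F (α * g) * F (α * g') = ∑ ζ : Perm (Fin d), F ζ * F (ζ * (g⁻¹ * g')) := by
    refine (Finset.sum_congr rfl fun α _ => ?_).trans
      (Equiv.sum_comp (Equiv.mulRight g) fun ζ : Perm (Fin d) => F ζ * F (ζ * (g⁻¹ * g')))
    simp [mul_assoc]
  rw [h2]
  unfold cnt
  rw [Finset.card_filter, Nat.cast_sum]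
  refine Finset.sum_congr rfl fun ζ _ => ?_
  unfold F
  by_cases ha : Full Finset.univ ζ <;> by_cases hb : Full Finset.univ (ζ * (g⁻¹ * g')) <;>
    simp [ha, hb]

theorem card_ev {d : ℕ} (hd3 : 3 ≤ d) : ((ev d).card : ℝ) = d.factorial / 2 := by
  classical
  have : Nontrivial (Fin d) := Fin.nontrivial_iff_two_le.2 (by omega)
  have h := two_mul_card_alternatingGroup (α := Fin d)
  rw [Fintype.card_perm, Fintype.card_fin] at h
  have h2 : Fintype.card (alternatingGroup (Fin d)) = (ev d).card := by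
    rw [Fintype.card_subtype]
    congr 1
    ext α
    simp [ev, Perm.mem_alternatingGroup]
  rw [h2] at h
  have h3 : (2 : ℝ) * (ev d).card = d.factorial := by exact_mod_cast h
  linarith

theorem sign_pow_two {d : ℕ} (β : Perm (Fin d)) (i : ℕ) : Perm.sign (β ^ (2 * i)) = 1 := by
  rw [pow_mul, map_pow, map_pow, Int.units_sq, one_pow]

end Cheb

open Cheb

open Classical in
theorem cheb {d : ℕ} (hd : Odd d) (hd3 : 3 ≤ d) (β : Perm (Fin d)) (M : ℕ) (hM : 0 < M) :
    ((Finset.univ.filter fun α : Perm (Fin d) => Perm.sign α = 1 ∧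
      ∀ i < M, ¬ Full Finset.univ (α * β ^ (2 * i))).card : ℝ) ≤
    (d.factorial / 2 : ℝ) * (d / (2 * M ^ 2) *
      (∑ i ∈ Finset.range M, ∑ j ∈ Finset.range M, It (β ^ (2 * j) * (β ^ (2 * i))⁻¹)) - 1) := by
  set S := ∑ i ∈ Finset.range M, ∑ j ∈ Finset.range M, It (β ^ (2 * j) * (β ^ (2 * i))⁻¹) with hS
  set bad := Finset.univ.filter fun α : Perm (Fin d) => Perm.sign α = 1 ∧
      ∀ i < M, ¬ Full Finset.univ (α * β ^ (2 * i)) with hbad
  set X : Perm (Fin d) → ℝ := fun α => ∑ i ∈ Finset.range M, F (α * β ^ (2 * i)) with hX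
  have : NeZero d := ⟨by omega⟩
  have hne : (Finset.univ : Finset (Fin d)).Nonempty := ⟨0, Finset.mem_univ _⟩
  have hcard : (Finset.univ : Finset (Fin d)).card = d := by simp
  have h1 : ∑ α ∈ ev d, X α = M * ((d - 1).factorial : ℝ) := by
    simp only [hX]
    rw [Finset.sum_comm]
    have : ∀ i ∈ Finset.range M, ∑ α ∈ ev d, F (α * β ^ (2 * i)) = ((d - 1).factorial : ℝ) := by
      intro i _
      have h := sum_FF hd hd3 (β ^ (2 * i)) (β ^ (2 * i)) (sign_pow_two β i)
      simp only [F_sq] at h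
      rw [h, inv_mul_cancel, cnt_one _ hne, hcard]
    rw [Finset.sum_congr rfl this, Finset.sum_const, Finset.card_range, nsmul_eq_mul]
  have h2 : ∑ α ∈ ev d, X α ^ 2 = ((d - 1).factorial : ℝ) * S := by
    have e : ∀ α, X α ^ 2 = ∑ i ∈ Finset.range M, ∑ j ∈ Finset.range M,
        F (α * β ^ (2 * i)) * F (α * β ^ (2 * j)) := by
      intro α
      rw [sq, hX, Finset.sum_mul_sum]
    rw [Finset.sum_congr rfl fun α _ => e α, Finset.sum_comm, hS, Finset.mul_sum]
    refine Finset.sum_congr rfl fun i _ => ?_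
    rw [Finset.sum_comm, Finset.mul_sum]
    refine Finset.sum_congr rfl fun j _ => ?_
    rw [sum_FF hd hd3 _ _ (sign_pow_two β i), cnt_eq _ hne _ (fun x hx => absurd (Finset.mem_univ x) hx),
      hcard]
    congr 2
    exact ((Commute.refl β).pow_pow (2 * i) (2 * j)).inv_left.eq
  have hdpos : (0 : ℝ) < d := by exact_mod_cast (by omega : 0 < d)
  have hMpos : (0 : ℝ) < M := by exact_mod_cast hM
  have hfac : (d.factorial : ℝ) = d * (d - 1).factorial := by
    have : d.factorial = d * (d - 1).factorial := (Nat.mul_factorial_pred (by omega)).symm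
    exact_mod_cast this
  set μ : ℝ := 2 * M / d with hμ
  have h3 : (bad.card : ℝ) * μ ^ 2 ≤ ∑ α ∈ ev d, (X α - μ) ^ 2 := by
    have hsub : bad ⊆ ev d := by
      intro α hα
      rw [hbad, Finset.mem_filter] at hα
      simp [ev, hα.2.1]
    calc (bad.card : ℝ) * μ ^ 2 = ∑ α ∈ bad, (X α - μ) ^ 2 := by
          rw [Finset.sum_congr rfl (g := fun _ => μ ^ 2), Finset.sum_const, nsmul_eq_mul]
          intro α hα
          rw [hbad, Finset.mem_filter] at hα
          have : X α = 0 := by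
            simp only [hX]
            refine Finset.sum_eq_zero fun i hi => ?_
            unfold F
            rw [if_neg (hα.2.2 i (Finset.mem_range.1 hi))]
          rw [this]
          ring
      _ ≤ _ := Finset.sum_le_sum_of_subset_of_nonneg hsub fun _ _ _ => sq_nonneg _
  have h4 : ∑ α ∈ ev d, (X α - μ) ^ 2 =
      ((d - 1).factorial : ℝ) * S - 2 * μ * (M * ((d - 1).factorial : ℝ)) +
        μ ^ 2 * (d.factorial / 2) := by
    rw [← h2, ← h1, ← card_ev hd3, Finset.mul_sum]
    have : ∀ α, (X α - μ) ^ 2 = X α ^ 2 - 2 * μ * X α + μ ^ 2 := fun α => by ring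
    simp only [this, Finset.sum_add_distrib, Finset.sum_sub_distrib, Finset.sum_const,
      nsmul_eq_mul]
    ring
  rw [h4, hfac, hμ] at h3
  rw [hfac]
  have h5 : (0 : ℝ) < (2 * M / d) ^ 2 := by positivity
  rw [← mul_le_mul_iff_left₀ h5]
  refine h3.trans (le_of_eq ?_)
  field_simp
  ring

end Pool.Agent.Helper52.RC
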