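import Pool.Agent.Helper52.RC.NearF
import Pool.Agent.Helper52.RC.Cheb

/-!
# RC module ChebN: second moment for near full cycles (`d` even) and for full cycles (`d` even)
-/

open Equiv

namespace Pool.Agent.Helper52.RC

namespace ChebN

theorem moment {ι : Type*} (A B : Finset ι) (hBA : B ⊆ A) (X : ι → ℝ) (hX : ∀ α ∈ B, X α = 0)
    {s₁ s₂ N : ℝ} (h₁ : ∑ α ∈ A, X α = s₁) (h₂ : ∑ α ∈ A, X α ^ 2 = s₂) (hN : (A.card : ℝ) = N)
    (hN0 : 0 < N) (hs : 0 < s₁) : (B.card : ℝ) ≤ s₂ * N ^ 2 / s₁ ^ 2 - N := by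
  obtain ⟨μ, hμ⟩ : ∃ μ : ℝ, s₁ / N = μ := ⟨_, rfl⟩
  have h3 : (B.card : ℝ) * μ ^ 2 ≤ ∑ α ∈ A, (X α - μ) ^ 2 := by
    calc (B.card : ℝ) * μ ^ 2 = ∑ α ∈ B, (X α - μ) ^ 2 := by
          rw [Finset.sum_congr rfl (g := fun _ => μ ^ 2), Finset.sum_const, nsmul_eq_mul]
          intro α hα
          rw [hX α hα]
          ring
      _ ≤ _ := Finset.sum_le_sum_of_subset_of_nonneg hBA fun _ _ _ => sq_nonneg _
  have h4 : ∑ α ∈ A, (X α - μ) ^ 2 = s₂ - 2 * μ * s₁ + μ ^ 2 * N := by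
    rw [← h₂, ← h₁, ← hN, Finset.mul_sum]
    have : ∀ α, (X α - μ) ^ 2 = X α ^ 2 - 2 * μ * X α + μ ^ 2 := fun α => by ring
    simp only [this, Finset.sum_add_distrib, Finset.sum_sub_distrib, Finset.sum_const,
      nsmul_eq_mul]
    ring
  rw [h4, ← hμ] at h3
  have h5 : (0 : ℝ) < (s₁ / N) ^ 2 := by positivity
  rw [← mul_le_mul_iff_left₀ h5]
  refine h3.trans (le_of_eq ?_)
  field_simp
  ring

theorem sum_shift {d : ℕ} (f : Perm (Fin d) → ℝ) (A : Finset (Perm (Fin d))) (g g' : Perm (Fin d))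
    (h : ∀ α, f (α * g) ≠ 0 → α ∈ A) :
    ∑ α ∈ A, f (α * g) * f (α * g') = ∑ ζ : Perm (Fin d), f ζ * f (ζ * (g⁻¹ * g')) := by
  have h1 : ∑ α ∈ A, f (α * g) * f (α * g') = ∑ α, f (α * g) * f (α * g') := by
    refine Finset.sum_subset (Finset.subset_univ _) fun α _ hα => ?_
    have h2 : f (α * g) = 0 := by
      by_contra h0
      exact hα (h α h0)
    rw [h2, zero_mul]
  rw [h1]
  refine (Finset.sum_congr rfl fun α _ => ?_).trans
    (Equiv.sum_comp (Equiv.mulRight g) fun ζ : Perm (Fin d) => f ζ * f (ζ * (g⁻¹ * g')))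
  simp [mul_assoc]

/-- The first two moments. -/
theorem moments {d : ℕ} (f : Perm (Fin d) → ℝ) (hf : ∀ a, f a * f a = f a)
    (A : Finset (Perm (Fin d))) (β : Perm (Fin d)) (M : ℕ)
    (h : ∀ (i : ℕ) (α : Perm (Fin d)), f (α * β ^ (2 * i)) ≠ 0 → α ∈ A) :
    (∑ α ∈ A, ∑ i ∈ Finset.range M, f (α * β ^ (2 * i)) = M * ∑ ζ, f ζ * f (ζ * 1)) ∧
    ∑ α ∈ A, (∑ i ∈ Finset.range M, f (α * β ^ (2 * i))) ^ 2 =
      ∑ i ∈ Finset.range M, ∑ j ∈ Finset.range M,
        ∑ ζ, f ζ * f (ζ * (β ^ (2 * j) * (β ^ (2 * i))⁻¹)) := by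
  constructor
  · rw [Finset.sum_comm]
    have : ∀ i ∈ Finset.range M, ∑ α ∈ A, f (α * β ^ (2 * i)) = ∑ ζ, f ζ * f (ζ * 1) := by
      intro i _
      have h1 := sum_shift f A (β ^ (2 * i)) (β ^ (2 * i)) (h i)
      simp only [hf] at h1
      rw [h1, inv_mul_cancel]
    rw [Finset.sum_congr rfl this, Finset.sum_const, Finset.card_range, nsmul_eq_mul]
  · have e : ∀ α, (∑ i ∈ Finset.range M, f (α * β ^ (2 * i))) ^ 2 =
        ∑ i ∈ Finset.range M, ∑ j ∈ Finset.range M,
          f (α * β ^ (2 * i)) * f (α * β ^ (2 * j)) := by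
      intro α
      rw [sq, Finset.sum_mul_sum]
    rw [Finset.sum_congr rfl fun α _ => e α, Finset.sum_comm]
    refine Finset.sum_congr rfl fun i _ => ?_
    rw [Finset.sum_comm]
    refine Finset.sum_congr rfl fun j _ => ?_
    rw [sum_shift f A (β ^ (2 * i)) (β ^ (2 * j)) (h i)]
    have : (β ^ (2 * i))⁻¹ * β ^ (2 * j) = β ^ (2 * j) * (β ^ (2 * i))⁻¹ :=
      ((Commute.refl β).pow_pow (2 * i) (2 * j)).inv_left.eq
    rw [this]

theorem full_sign_even {d : ℕ} (hd : Even d) (hd3 : 3 ≤ d) (ζ : Perm (Fin d))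
    (h : Full Finset.univ ζ) : Perm.sign ζ = -1 := by
  have hne : ∀ x, ζ x ≠ x := by
    intro x hx
    obtain ⟨y, hy⟩ : ∃ y : Fin d, y ≠ x := by
      have : Nontrivial (Fin d) := Fin.nontrivial_iff_two_le.2 (by omega)
      exact exists_ne x
    obtain ⟨n, hn⟩ := h.2 x (Finset.mem_univ _) y (Finset.mem_univ _)
    rw [Perm.zpow_apply_eq_self_of_apply_eq_self hx] at hn
    exact hy hn.symm
  have hc : ζ.IsCycle :=
    ⟨⟨0, by omega⟩, hne _, fun y _ => h.2 _ (Finset.mem_univ _) y (Finset.mem_univ _)⟩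
  have hs : ζ.support = Finset.univ := by
    ext x
    simp [hne x]
  rw [hc.sign, hs, Finset.card_univ, Fintype.card_fin, hd.neg_one_pow]

theorem near_sign {d : ℕ} (hd : Even d) (hd3 : 3 ≤ d) (ζ : Perm (Fin d)) (h : Near ζ) :
    Perm.sign ζ = 1 := by
  obtain ⟨o, ho, hc⟩ := h
  have hoo : ζ o = o := ho o (Finset.notMem_erase o _)
  have hne : ∀ x, x ≠ o → ζ x ≠ x := by
    intro x hxo hx
    obtain ⟨y, hy⟩ : ∃ y : Fin d, y ∉ ({x, o} : Finset (Fin d)) := by
      by_contra hcon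
      push Not at hcon
      have h1 : (Finset.univ : Finset (Fin d)) ⊆ {x, o} := fun y _ => hcon y
      have h2 := (Finset.card_le_card h1).trans Finset.card_le_two
      rw [Finset.card_univ, Fintype.card_fin] at h2
      omega
    simp only [Finset.mem_insert, Finset.mem_singleton, not_or] at hy
    obtain ⟨n, hn⟩ := hc x (by simp [hxo]) y (by simp [hy.2])
    rw [Perm.zpow_apply_eq_self_of_apply_eq_self hx] at hn
    exact hy.1 hn.symm
  have hs : ζ.support = Finset.univ.erase o := by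
    ext x
    by_cases hx : x = o
    · subst hx
      simp [hoo]
    · simp [hne x hx, hx]
  obtain ⟨z, hz⟩ : ∃ z : Fin d, z ≠ o := by
    have : Nontrivial (Fin d) := Fin.nontrivial_iff_two_le.2 (by omega)
    exact exists_ne o
  have hcy : ζ.IsCycle := by
    refine ⟨z, hne z hz, fun y hy => hc z (by simp [hz]) y ?_⟩
    have : y ≠ o := by
      rintro rfl
      exact hy hoo
    simp [this]
  have hodd : Odd (d - 1) := by
    obtain ⟨k, hk⟩ := hd
    exact ⟨k - 1, by omega⟩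
  rw [hcy.sign, hs, Finset.card_erase_of_mem (Finset.mem_univ _), Finset.card_univ,
    Fintype.card_fin, hodd.neg_one_pow]
  simp

/-- The odd permutations. -/
def od (d : ℕ) : Finset (Perm (Fin d)) := Finset.univ.filter fun α => Perm.sign α = -1

theorem card_od {d : ℕ} (hd3 : 3 ≤ d) : ((od d).card : ℝ) = d.factorial / 2 := by
  have h1 := Cheb.card_ev hd3
  have h2 : (Cheb.ev d).card + (od d).card = d.factorial := by
    have h3 : od d = Finset.univ.filter fun α => ¬ Perm.sign α = 1 := by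
      unfold od
      ext α
      rcases Int.units_eq_one_or (Perm.sign α) with h | h <;> simp [h]
    rw [h3, Cheb.ev, Finset.card_filter_add_card_filter_not, Finset.card_univ,
      Fintype.card_perm, Fintype.card_fin]
  have h4 : ((Cheb.ev d).card : ℝ) + (od d).card = d.factorial := by exact_mod_cast h2
  linarith

open Classical in
/-- The indicator of near full cycles. -/
noncomputable def FN {d : ℕ} (a : Perm (Fin d)) : ℝ := if Near a then 1 else 0

theorem FN_sq {d : ℕ} (a : Perm (Fin d)) : FN a * FN a = FN a := by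
  unfold FN
  split_ifs <;> simp

theorem sum_F {d : ℕ} (τ : Perm (Fin d)) :
    ∑ ζ : Perm (Fin d), Cheb.F ζ * Cheb.F (ζ * τ) = (cnt Finset.univ τ : ℝ) := by
  classical
  unfold cnt
  rw [Finset.card_filter, Nat.cast_sum]
  refine Finset.sum_congr rfl fun ζ _ => ?_
  unfold Cheb.F
  by_cases ha : Full Finset.univ ζ <;> by_cases hb : Full Finset.univ (ζ * τ) <;> simp [ha, hb]

theorem sum_FN {d : ℕ} (τ : Perm (Fin d)) :
    ∑ ζ : Perm (Fin d), FN ζ * FN (ζ * τ) = (cntN τ : ℝ) := by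
  classical
  unfold cntN
  rw [Finset.card_filter, Nat.cast_sum]
  refine Finset.sum_congr rfl fun ζ _ => ?_
  unfold FN
  by_cases ha : Near ζ <;> by_cases hb : Near (ζ * τ) <;> simp [ha, hb]

end ChebN

open ChebN

open Classical in
theorem cheb_even {d : ℕ} (hd : Even d) (hd3 : 4 ≤ d) (β : Perm (Fin d)) (M : ℕ) (hM : 0 < M) :
    ((Finset.univ.filter fun α : Perm (Fin d) => Perm.sign α = -1 ∧
      ∀ i < M, ¬ Full Finset.univ (α * β ^ (2 * i))).card : ℝ) ≤
    (d.factorial / 2 : ℝ) * (d / (2 * M ^ 2) *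
      (∑ i ∈ Finset.range M, ∑ j ∈ Finset.range M, It (β ^ (2 * j) * (β ^ (2 * i))⁻¹)) - 1) := by
  obtain ⟨S, hS⟩ : ∃ S : ℝ, ∑ i ∈ Finset.range M, ∑ j ∈ Finset.range M,
      It (β ^ (2 * j) * (β ^ (2 * i))⁻¹) = S := ⟨_, rfl⟩
  rw [hS]
  have : NeZero d := ⟨by omega⟩
  have hne : (Finset.univ : Finset (Fin d)).Nonempty := ⟨0, Finset.mem_univ _⟩
  have hcard : (Finset.univ : Finset (Fin d)).card = d := by simp
  obtain ⟨m1, m2⟩ := moments Cheb.F Cheb.F_sq (od d) β M fun i α hα => by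
    have hf : Full Finset.univ (α * β ^ (2 * i)) := by
      by_contra hcon
      exact hα (if_neg hcon)
    have h3 := full_sign_even hd (by omega) _ hf
    rw [Perm.sign_mul, Cheb.sign_pow_two, mul_one] at h3
    simp [od, h3]
  simp only [sum_F] at m1 m2
  rw [cnt_one _ hne, hcard] at m1
  have m3 : ∑ i ∈ Finset.range M, ∑ j ∈ Finset.range M,
      (cnt Finset.univ (β ^ (2 * j) * (β ^ (2 * i))⁻¹) : ℝ) = (d - 1).factorial * S := by
    rw [← hS, Finset.mul_sum]
    refine Finset.sum_congr rfl fun i _ => ?_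
    rw [Finset.mul_sum]
    refine Finset.sum_congr rfl fun j _ => ?_
    rw [cnt_eq _ hne _ (fun x hx => absurd (Finset.mem_univ x) hx), hcard]
  rw [m3] at m2
  have hdpos : (0 : ℝ) < d := by exact_mod_cast (by omega : 0 < d)
  have hMpos : (0 : ℝ) < M := by exact_mod_cast hM
  have hfac : (d.factorial : ℝ) = d * (d - 1).factorial := by
    have : d.factorial = d * (d - 1).factorial := (Nat.mul_factorial_pred (by omega)).symm
    exact_mod_cast this
  have hfp : (0 : ℝ) < ((d - 1).factorial : ℝ) := by positivity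
  refine (moment (od d) _ ?_ _ ?_ m1 m2 (card_od (by omega)) (by positivity)
    (by positivity)).trans (le_of_eq ?_)
  · intro α hα
    rw [Finset.mem_filter] at hα
    simp [od, hα.2.1]
  · intro α hα
    rw [Finset.mem_filter] at hα
    refine Finset.sum_eq_zero fun i hi => ?_
    unfold Cheb.F
    rw [if_neg (hα.2.2 i (Finset.mem_range.1 hi))]
  · rw [hfac]
    field_simp

open Classical in
theorem chebN {d : ℕ} (hd : Even d) (hd3 : 4 ≤ d) (β : Perm (Fin d)) (M : ℕ) (hM : 0 < M) :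
    ((Finset.univ.filter fun α : Perm (Fin d) => Perm.sign α = 1 ∧
      ∀ i < M, ¬ Near (α * β ^ (2 * i))).card : ℝ) ≤
    (d.factorial / 2 : ℝ) * (((d : ℝ) - 1) / (2 * M ^ 2) *
      (∑ i ∈ Finset.range M, ∑ j ∈ Finset.range M,
        (cntN (β ^ (2 * j) * (β ^ (2 * i))⁻¹) : ℝ) / (d * (d - 2).factorial)) - 1) := by
  obtain ⟨S, hS⟩ : ∃ S : ℝ, ∑ i ∈ Finset.range M, ∑ j ∈ Finset.range M,
      (cntN (β ^ (2 * j) * (β ^ (2 * i))⁻¹) : ℝ) = S := ⟨_, rfl⟩
  simp only [← Finset.sum_div]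
  rw [hS]
  obtain ⟨m1, m2⟩ := moments FN FN_sq (Cheb.ev d) β M fun i α hα => by
    have hf : Near (α * β ^ (2 * i)) := by
      by_contra hcon
      exact hα (if_neg hcon)
    have h3 := near_sign hd (by omega) _ hf
    rw [Perm.sign_mul, Cheb.sign_pow_two, mul_one] at h3
    simp [Cheb.ev, h3]
  simp only [sum_FN] at m1 m2
  rw [cntN_one (by omega)] at m1
  rw [hS] at m2
  push_cast at m1
  have hdpos : (0 : ℝ) < d := by exact_mod_cast (by omega : 0 < d)
  have hd1 : (0 : ℝ) < (d : ℝ) - 1 := by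
    have : (4 : ℝ) ≤ d := by exact_mod_cast hd3
    linarith
  have hMpos : (0 : ℝ) < M := by exact_mod_cast hM
  have hfac : (d.factorial : ℝ) = d * (((d : ℝ) - 1) * (d - 2).factorial) := by
    have h1 : d.factorial = d * (d - 1).factorial := (Nat.mul_factorial_pred (by omega)).symm
    have h2 : (d - 1).factorial = (d - 1) * (d - 1 - 1).factorial :=
      (Nat.mul_factorial_pred (by omega)).symm
    have h3 : ((d - 1 : ℕ) : ℝ) = (d : ℝ) - 1 := by
      rw [Nat.cast_sub (by omega), Nat.cast_one]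
    rw [h1, h2, ← h3, show d - 1 - 1 = d - 2 by omega]
    push_cast
    ring
  have hfp : (0 : ℝ) < ((d - 2).factorial : ℝ) := by positivity
  refine (moment (Cheb.ev d) _ ?_ _ ?_ m1 m2 (Cheb.card_ev (by omega)) (by positivity)
    (by positivity)).trans (le_of_eq ?_)
  · intro α hα
    rw [Finset.mem_filter] at hα
    simp [Cheb.ev, hα.2.1]
  · intro α hα
    rw [Finset.mem_filter] at hα
    refine Finset.sum_eq_zero fun i hi => ?_
    unfold FN
    rw [if_neg (hα.2.2 i (Finset.mem_range.1 hi))]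
  · rw [hfac]
    field_simp

end Pool.Agent.Helper52.RC
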