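import Pool.Agent.Helper52.RC.Rec

/-!
# RC module Contr: the contraction `con` (see Rec.lean)
-/
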