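import Mathlib

/-!
# RC: random covers, definitions

`Full A σ`: `σ` fixes everything outside `A` and moves `A` in one cycle.
-/

open Equiv

namespace Pool.Agent.Helper52.RC

variable {α : Type*} [Fintype α] [DecidableEq α]

/-- `σ` fixes everything outside `A` and moves the points of `A` in one cycle. -/
def Full (A : Finset α) (σ : Perm α) : Prop :=
  (∀ x, x ∉ A → σ x = x) ∧ ∀ x ∈ A, ∀ y ∈ A, σ.SameCycle x y

open Classical in
/-- The number of `ζ` such that `ζ` and `ζ * τ` are full cycles on `A`. -/
noncomputable def cnt (A : Finset α) (τ : Perm α) : ℕ :=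
  (Finset.univ.filter fun ζ : Perm α => Full A ζ ∧ Full A (ζ * τ)).card

/-- The matrix `(1 - x) 1 + x P`, `P` the permutation matrix of `τ` (column `j` is the unit vector
`τ j`). -/
def mat (τ : Perm α) (x : ℝ) : Matrix α α ℝ :=
  Matrix.of fun i j => (if i = j then 1 - x else 0) + if i = τ j then x else 0

/-- The determinant of `(1 - x) 1 + x P`. -/
noncomputable def wt (τ : Perm α) (x : ℝ) : ℝ := (mat τ x).det

/-- The integral of `wt`. -/
noncomputable def It (τ : Perm α) : ℝ := ∫ x in (0 : ℝ)..1, wt τ x

/-- One step of the recursion: for `p = τ⁻¹ u`, the permutation `(z u) τ (p z)`; it fixes `z`. -/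
def red (τ : Perm α) (u z : α) : Perm α := swap z u * τ * swap (τ⁻¹ u) z

/-- Number of divisors of `m` between `1` and `d`. -/
def dv (d m : ℕ) : ℕ := ((Finset.Icc 1 d).filter (· ∣ m)).card

/-- Number of fixed points of `σ`. -/
def fx {d : ℕ} (σ : Perm (Fin d)) : ℕ := (Finset.univ.filter fun x => σ x = x).card

end Pool.Agent.Helper52.RC
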