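import Pool.Agent.Helper52.RC.Defs
import Pool.Agent.PWI.State

/-!
# RC: definitions for all degrees
-/

open Equiv

namespace Pool.Agent.Helper52.RC

open Pool.Agent.PWI

/-- `σ` has a fixed point `o` and moves the other points in one cycle. -/
def Near {d : ℕ} (σ : Perm (Fin d)) : Prop := ∃ o : Fin d, Full (Finset.univ.erase o) σ

/-- Some `α β^k` or `β α^k` is a full cycle, or is near a full cycle and `α, β` have no common fixed
point. -/
def GoodPair {d : ℕ} (α β : Perm (Fin d)) : Prop :=
  (∃ k : ℕ, Full Finset.univ (α * β ^ k) ∨ Full Finset.univ (β * α ^ k)) ∨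
  ((∀ o, ¬ (α o = o ∧ β o = o)) ∧ ∃ k : ℕ, Near (α * β ^ k) ∨ Near (β * α ^ k))

open Classical in
/-- The number of `ζ` such that `ζ` and `ζ * τ` are near full cycles. -/
noncomputable def cntN {d : ℕ} (τ : Perm (Fin d)) : ℕ :=
  (Finset.univ.filter fun ζ : Perm (Fin d) => Near ζ ∧ Near (ζ * τ)).card

/-- `φ` is transitive, and for every finite index subgroup `H` of the mapping class group which
contains the point pushes along the powers of nonseparating simple closed curves which fix a point
`i`, every homomorphism `H → Z` is trivial on all point pushes in `H`. -/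
def Good {g n d : ℕ} (φ : Pi1 g n →* Perm (Fin d)) : Prop :=
  (∀ i j : Fin d, ∃ x : Pi1 g n, φ x i = j) ∧
  ∀ (i : Fin d) (H : Subgroup (Mcg g n)), H.FiniteIndex →
    (∀ (T : Mcg g n) (m : ℕ), φ (T.act (loopA 0) ^ m) i = i → pushPt (T.act (loopA 0) ^ m) ∈ H) →
    ∀ (f : H →* Multiplicative ℤ) (x : Pi1 g n) (hx : pushPt x ∈ H), f ⟨pushPt x, hx⟩ = 1

end Pool.Agent.Helper52.RC
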