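import Pool.Agent.Helper52.RC.Defs

/-!
# RC module MatA: the determinant of `mat (red τ u z) x`

`M = mat τ x`, `y = 1 - x`, `p = τ⁻¹ u`; columns of `M`: `M_v = y e_v + x e_{τ v}`, `M_p = y e_p + x e_u`.
`ω = red τ u z` fixes `z`; `ω v = τ v` unless `τ v = z` (then `ω v = u`), for `v ≠ p, z`; `ω p = τ z`
unless `τ z = z` (then `ω p = u`). Let `L` be `M` with column `p` replaced by `M_p + M_z - e_u` and column
`z` by `e_z - e_u`. CLAIM `det (mat ω x) = det L`: add `-y` times column `z` to column `p` (column `p`
becomes `y e_p + x e_{τ z}`), add row `z` to row `u` (column `z` becomes `e_z`, and a column containing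
`x e_z` gets `x (e_z + e_u)`), subtract `x` times column `z` from this last column: this is `mat ω x`.
EXPAND `det L` by multilinearity (`[a; b]` = columns `p, z` replaced by `a, b`):
`[M_p; e_z] - [M_p; e_u] + [M_z; e_z] - [M_z; e_u] - [e_u; e_z] + [e_u; e_u]`, with `[e_u; e_u] = 0`,
`[M_z; e_z] = - [e_z; M_z]`, `[M_z; e_u] = - [e_u; M_z]` (exchange of two columns).
Checked by computer. (Another way: `det (mat ω x) = det (x P + y C)`, `C` = matrix of `swap z u * swap p z`.)
-/

open Equiv

namespace Pool.Agent.Helper52.RC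

variable {α : Type*} [Fintype α] [DecidableEq α]

/-- Determinant with the columns `p, z` replaced by `a, b`. -/
private noncomputable def dt (M : Matrix α α ℝ) (p z : α) (a b : α → ℝ) : ℝ :=
  ((M.updateCol p a).updateCol z b).det

private lemma dt_add_right (M : Matrix α α ℝ) (p z : α) (a b b' : α → ℝ) :
    dt M p z a (b + b') = dt M p z a b + dt M p z a b' := by
  rw [dt, dt, dt, Matrix.det_updateCol_add]

private lemma dt_smul_right (M : Matrix α α ℝ) (p z : α) (a b : α → ℝ) (c : ℝ) :
    dt M p z a (c • b) = c * dt M p z a b := by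
  rw [dt, dt, Matrix.det_updateCol_smul]

private lemma dt_comm (M : Matrix α α ℝ) {p z : α} (h : p ≠ z) (a b : α → ℝ) :
    dt M p z a b = dt M z p b a := by
  rw [dt, dt, Matrix.updateCol_comm M h]

private lemma dt_self (M : Matrix α α ℝ) {p z : α} (h : p ≠ z) (a : α → ℝ) : dt M p z a a = 0 := by
  rw [dt]
  refine Matrix.det_zero_of_column_eq h fun i => ?_
  rw [Matrix.updateCol_ne h, Matrix.updateCol_self, Matrix.updateCol_self]

private lemma dt_add_left (M : Matrix α α ℝ) {p z : α} (h : p ≠ z) (a a' b : α → ℝ) :
    dt M p z (a + a') b = dt M p z a b + dt M p z a' b := by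
  rw [dt_comm M h, dt_add_right, ← dt_comm M h, ← dt_comm M h]

private lemma dt_smul_left (M : Matrix α α ℝ) {p z : α} (h : p ≠ z) (a b : α → ℝ) (c : ℝ) :
    dt M p z (c • a) b = c * dt M p z a b := by
  rw [dt_comm M h, dt_smul_right, ← dt_comm M h]

private lemma dt_swap (M : Matrix α α ℝ) {p z : α} (h : p ≠ z) (a b : α → ℝ) :
    dt M p z a b = - dt M p z b a := by
  have h1 := dt_self M h (a + b)
  rw [dt_add_left M h, dt_add_right, dt_add_right, dt_self M h, dt_self M h] at h1
  linarith

theorem wt_red (τ : Perm α) (u : α) (hu : τ u ≠ u) (z : α) (hz : z ≠ u) (hz' : z ≠ τ⁻¹ u) (x : ℝ) :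
    wt (red τ u z) x =
      ((mat τ x).updateCol z (Pi.single z 1)).det - ((mat τ x).updateCol z (Pi.single u 1)).det
      - ((mat τ x).updateCol (τ⁻¹ u) (Pi.single z 1)).det
      + ((mat τ x).updateCol (τ⁻¹ u) (Pi.single u 1)).det
      - (((mat τ x).updateCol (τ⁻¹ u) (Pi.single u 1)).updateCol z (Pi.single z 1)).det := by
  set p := τ⁻¹ u with hp
  have hτp : τ p = u := by rw [hp]; exact τ.apply_symm_apply u
  have hpz : p ≠ z := fun h => hz' h.symm
  have hpu : p ≠ u := fun h => hu (by rw [← h]; rw [hτp]; exact h.symm)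
  set M := mat τ x with hM
  set ez : α → ℝ := Pi.single z 1 with hez
  set eu : α → ℝ := Pi.single u 1 with heu
  set Mp : α → ℝ := fun i => M i p with hMp
  set Mz : α → ℝ := fun i => M i z with hMz
  have hMpp : M.updateCol p Mp = M := by
    ext i j
    by_cases hj : j = p
    · rw [hj, Matrix.updateCol_self]
    · rw [Matrix.updateCol_ne hj]
  have hMzz : M.updateCol z Mz = M := by
    ext i j
    by_cases hj : j = z
    · rw [hj, Matrix.updateCol_self]
    · rw [Matrix.updateCol_ne hj]
  -- the matrix `L`
  set L := (M.updateCol p (Mp + Mz - eu)).updateCol z (ez - eu) with hL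
  have hdet : (mat (red τ u z) x).det = L.det := by
    let δ : α → α → ℝ := fun i j => if i = j then 1 else 0
    have hδ0 : ∀ {i j : α}, i ≠ j → δ i j = 0 := fun h => if_neg h
    have hδ1 : ∀ i : α, δ i i = 1 := fun i => if_pos rfl
    let w : α → ℝ := fun j => if j = p then (-(1 - x) - if τ z = z then x else 0) else
      (if j = z then 0 else (if τ j = z then -x else 0))
    let B : Matrix α α ℝ := Matrix.of fun i j => L i j + w j * L i z
    have hwz : w z = 0 := by
      change (if z = p then _ else _) = _
      rw [if_neg hpz.symm, if_pos rfl]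
    have hBL : B.det = L.det := by
      rw [← Matrix.det_transpose B, ← Matrix.det_transpose L]
      exact Matrix.det_eq_of_forall_row_eq_smul_add_const w z hwz fun i j => rfl
    rw [← hBL]
    refine Matrix.det_eq_of_forall_row_eq_smul_add_const (fun i => δ i u) z (hδ0 hz) ?_
    intro i j
    have hezi : ∀ i, ez i = δ i z := fun i => by
      rw [hez, Pi.single_apply]
    have heui : ∀ i, eu i = δ i u := fun i => by
      rw [heu, Pi.single_apply]
    have hLz : ∀ i, L i z = δ i z - δ i u := by
      intro i
      rw [hL, Matrix.updateCol_self, ← hezi, ← heui]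
      rfl
    have hLp : ∀ i, L i p = M i p + M i z - δ i u := by
      intro i
      rw [hL, Matrix.updateCol_ne hpz, Matrix.updateCol_self, ← heui]
      rfl
    have hLj : ∀ i j, j ≠ p → j ≠ z → L i j = M i j := by
      intro i j h1 h2
      rw [hL, Matrix.updateCol_ne h2, Matrix.updateCol_ne h1]
    have hmat : ∀ (σ : Perm α) (i j : α), mat σ x i j = (1 - x) * δ i j + x * δ i (σ j) := by
      intro σ i j
      change ((if i = j then 1 - x else 0) + if i = σ j then x else 0) =
        (1 - x) * (if i = j then 1 else 0) + x * (if i = σ j then 1 else 0)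
      rw [mul_ite, mul_ite, mul_one, mul_zero, mul_one, mul_zero]
    have hMe : ∀ i j, M i j = (1 - x) * δ i j + x * δ i (τ j) := hmat τ
    have hBe : ∀ i j, B i j = L i j + w j * L i z := fun i j => rfl
    rw [hmat, hBe, hBe, hLz, hLz, hδ1, hδ0 hz]
    by_cases hj : j = p
    · rw [hj]
      have hred : red τ u z p = if τ z = z then u else τ z := by
        rw [red, ← hp, Perm.mul_apply, Perm.mul_apply, swap_apply_left]
        by_cases h1 : τ z = z
        · rw [if_pos h1, h1, swap_apply_left]
        · rw [if_neg h1]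
          have h2 : τ z ≠ u := by
            intro h2
            exact hpz (τ.injective (hτp.trans h2.symm))
          exact swap_apply_of_ne_of_ne h1 h2
      have hwp : w p = -(1 - x) - if τ z = z then x else 0 := if_pos rfl
      rw [hLp, hLp, hMe, hMe, hMe, hMe, hred, hτp, hwp, hδ1, hδ0 hz, hδ0 hpz.symm]
      by_cases h1 : τ z = z
      · rw [if_pos h1, if_pos h1, h1, hδ1]
        ring
      · rw [if_neg h1, if_neg h1, hδ0 (fun h => h1 h.symm)]
        ring
    · by_cases hjz : j = z
      · rw [hjz]
        have hred : red τ u z z = z := by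
          rw [red, ← hp, Perm.mul_apply, Perm.mul_apply, swap_apply_right, hτp, swap_apply_right]
        rw [hLz, hLz, hwz, hred, hδ1, hδ0 hz]
        ring
      · have hred : red τ u z j = if τ j = z then u else τ j := by
          rw [red, ← hp, Perm.mul_apply, Perm.mul_apply, swap_apply_of_ne_of_ne hj hjz]
          by_cases h1 : τ j = z
          · rw [if_pos h1, h1, swap_apply_left]
          · rw [if_neg h1]
            have h2 : τ j ≠ u := by
              intro h2
              exact hj (τ.injective (h2.trans hτp.symm))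
            exact swap_apply_of_ne_of_ne h1 h2
        have hwj : w j = if τ j = z then -x else 0 := by
          change (if j = p then _ else _) = _
          rw [if_neg hj, if_neg hjz]
        rw [hLj _ _ hj hjz, hLj _ _ hj hjz, hMe, hMe, hred, hwj, hδ0 (fun h => hjz h.symm)]
        by_cases h1 : τ j = z
        · rw [if_pos h1, if_pos h1, h1, hδ1]
          ring
        · rw [if_neg h1, if_neg h1, hδ0 (fun h => h1 h.symm)]
          ring
  have hwt : wt (red τ u z) x = L.det := hdet
  rw [hwt]
  have e1 : L.det = dt M p z (Mp + Mz + (-1 : ℝ) • eu) (ez + (-1 : ℝ) • eu) := by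
    rw [dt, hL]
    congr 3
    · funext i
      simp [sub_eq_add_neg]
    · funext i
      simp [sub_eq_add_neg]
  have f1 : ((M.updateCol z ez).det) = dt M p z Mp ez := by rw [dt, hMpp]
  have f2 : ((M.updateCol z eu).det) = dt M p z Mp eu := by rw [dt, hMpp]
  have f3 : ((M.updateCol p ez).det) = dt M p z ez Mz := by
    rw [dt_comm M hpz, dt, hMzz]
  have f4 : ((M.updateCol p eu).det) = dt M p z eu Mz := by
    rw [dt_comm M hpz, dt, hMzz]
  have f5 : ((M.updateCol p eu).updateCol z ez).det = dt M p z eu ez := rfl
  rw [e1, f1, f2, f3, f4, f5, dt_add_left M hpz, dt_add_left M hpz, dt_smul_left M hpz,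
    dt_add_right, dt_add_right, dt_add_right, dt_smul_right, dt_smul_right, dt_smul_right,
    dt_self M hpz eu, dt_swap M hpz Mz ez, dt_swap M hpz Mz eu]
  ring

end Pool.Agent.Helper52.RC
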