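import Pool.Agent.Helper52.RC.Defs

/-!
# RC module MatB: derivatives and sums of cofactors of `mat τ x`

`M = mat τ x` has row sums and column sums `1`, so `adj M * 1 = det M * 1` and `1ᵀ adj M = det M * 1ᵀ`.
Derivative of a determinant (product rule in the columns): if all columns are differentiable then
`(det M)' = ∑ z, det (M with column z replaced by its derivative)`; here `x * (column z)' = M_z - e_z`.
-/

open Equiv

namespace Pool.Agent.Helper52.RC

variable {α : Type*} [Fintype α] [DecidableEq α]

private theorem row_sum (τ : Perm α) (x : ℝ) (i : α) : ∑ j, mat τ x i j = 1 := by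
  unfold mat
  simp only [Matrix.of_apply]
  rw [Finset.sum_add_distrib, Finset.sum_ite_eq, if_pos (Finset.mem_univ i)]
  have h1 : ∀ j, (if i = τ j then x else 0) = if τ⁻¹ i = j then x else 0 := by
    intro j
    by_cases h : i = τ j
    · rw [if_pos h, if_pos (by rw [h]; exact τ.symm_apply_apply j)]
    · rw [if_neg h, if_neg fun h2 => h (by rw [← h2]; exact (τ.apply_symm_apply i).symm)]
  rw [Finset.sum_congr rfl fun j _ => h1 j, Finset.sum_ite_eq, if_pos (Finset.mem_univ _)]
  ring

private theorem col_sum (τ : Perm α) (x : ℝ) (j : α) : ∑ i, mat τ x i j = 1 := by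
  unfold mat
  simp only [Matrix.of_apply]
  rw [Finset.sum_add_distrib, Finset.sum_ite_eq', if_pos (Finset.mem_univ j), Finset.sum_ite_eq',
    if_pos (Finset.mem_univ _)]
  ring

private theorem det_adj (M : Matrix α α ℝ) (z u : α) :
    (M.updateCol z (Pi.single u 1)).det = M.adjugate z u := by
  rw [← Matrix.cramer_apply, Matrix.cramer_eq_adjugate_mulVec, Matrix.mulVec_single_one]
  rfl

theorem sum_adj_col (τ : Perm α) (u : α) (x : ℝ) :
    ∑ z, ((mat τ x).updateCol z (Pi.single u 1)).det = wt τ x := by
  simp only [det_adj]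
  have h1 : ∀ i, ∑ z, mat τ x i z * (mat τ x).adjugate z u = wt τ x * (if i = u then 1 else 0) := by
    intro i
    have h2 := congrFun (congrFun (Matrix.mul_adjugate (mat τ x)) i) u
    rw [Matrix.mul_apply, Matrix.smul_apply, Matrix.one_apply, smul_eq_mul] at h2
    exact h2
  have h3 : ∑ i, ∑ z, mat τ x i z * (mat τ x).adjugate z u = wt τ x := by
    rw [Finset.sum_congr rfl fun i _ => h1 i, ← Finset.mul_sum, Finset.sum_ite_eq',
      if_pos (Finset.mem_univ u), mul_one]
  rw [Finset.sum_comm] at h3
  rw [← h3]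
  refine Finset.sum_congr rfl fun z _ => ?_
  rw [← Finset.sum_mul, col_sum, one_mul]

theorem sum_adj_row (τ : Perm α) (p : α) (x : ℝ) :
    ∑ z, ((mat τ x).updateCol p (Pi.single z 1)).det = wt τ x := by
  simp only [det_adj]
  have h1 : ∀ j, ∑ z, (mat τ x).adjugate p z * mat τ x z j = wt τ x * (if p = j then 1 else 0) := by
    intro j
    have h2 := congrFun (congrFun (Matrix.adjugate_mul (mat τ x)) p) j
    rw [Matrix.mul_apply, Matrix.smul_apply, Matrix.one_apply, smul_eq_mul] at h2
    exact h2
  have h3 : ∑ j, ∑ z, (mat τ x).adjugate p z * mat τ x z j = wt τ x := by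
    rw [Finset.sum_congr rfl fun j _ => h1 j, ← Finset.mul_sum, Finset.sum_ite_eq,
      if_pos (Finset.mem_univ p), mul_one]
  rw [Finset.sum_comm] at h3
  rw [← h3]
  refine Finset.sum_congr rfl fun z _ => ?_
  rw [← Finset.mul_sum, row_sum, mul_one]

/-- derivative of a determinant -/
private theorem det_deriv {A : ℝ → Matrix α α ℝ} {A' : Matrix α α ℝ} {x : ℝ}
    (h : ∀ i j, HasDerivAt (fun x => A x i j) (A' i j) x) :
    HasDerivAt (fun x => (A x).det) (∑ z, ((A x).updateCol z (fun i => A' i z)).det) x := by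
  have h1 : (fun x => (A x).det) =
      fun x => ∑ σ : Perm α, ((Perm.sign σ : ℤ) : ℝ) * ∏ i, A x (σ i) i := by
    funext y
    rw [Matrix.det_apply']
  have h2 : ∀ σ : Perm α, HasDerivAt (fun x => ((Perm.sign σ : ℤ) : ℝ) * ∏ i, A x (σ i) i)
      (((Perm.sign σ : ℤ) : ℝ) *
        ∑ z, (∏ j ∈ Finset.univ.erase z, A x (σ j) j) • A' (σ z) z) x := by
    intro σ
    exact (HasDerivAt.fun_finsetProd fun i _ => h (σ i) i).const_mul _
  rw [h1]
  refine (HasDerivAt.fun_sum fun σ _ => h2 σ).congr_deriv ?_
  simp only [Finset.mul_sum]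
  rw [Finset.sum_comm]
  refine Finset.sum_congr rfl fun z _ => ?_
  rw [Matrix.det_apply']
  refine Finset.sum_congr rfl fun σ _ => ?_
  congr 1
  rw [← Finset.mul_prod_erase Finset.univ _ (Finset.mem_univ z), Matrix.updateCol_self,
    smul_eq_mul, mul_comm]
  congr 1
  refine Finset.prod_congr rfl fun j hj => ?_
  rw [Matrix.updateCol_ne (Finset.ne_of_mem_erase hj)]

/-- the derivative of `mat` -/
private def mat' (τ : Perm α) : Matrix α α ℝ :=
  Matrix.of fun i j => (if i = j then -1 else 0) + if i = τ j then 1 else 0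

private theorem mat_deriv (τ : Perm α) (x : ℝ) (i j : α) :
    HasDerivAt (fun x => mat τ x i j) (mat' τ i j) x := by
  unfold mat mat'
  simp only [Matrix.of_apply]
  refine HasDerivAt.add ?_ ?_
  · by_cases h : i = j
    · simp only [if_pos h]
      exact (hasDerivAt_id x).const_sub 1
    · simp only [if_neg h]
      exact hasDerivAt_const x 0
  · by_cases h : i = τ j
    · simp only [if_pos h]
      exact hasDerivAt_id x
    · simp only [if_neg h]
      exact hasDerivAt_const x 0

private theorem mat_col (τ : Perm α) (x : ℝ) (z : α) :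
    x • (fun i => mat' τ i z) = (fun i => mat τ x i z) + (-1 : ℝ) • (Pi.single z 1 : α → ℝ) := by
  funext i
  simp only [Pi.smul_apply, Pi.add_apply, smul_eq_mul, mat, mat', Matrix.of_apply, Pi.single_apply]
  split_ifs <;> ring

/-- one column of the derivative, times `x` -/
private theorem col_term (M : Matrix α α ℝ) (τ : Perm α) (x : ℝ) (z : α)
    (hM : (fun i => M i z) = fun i => mat τ x i z) :
    x * (M.updateCol z (fun i => mat' τ i z)).det =
      M.det - (M.updateCol z (Pi.single z 1)).det := by
  rw [← Matrix.det_updateCol_smul, mat_col, Matrix.det_updateCol_add, Matrix.det_updateCol_smul,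
    ← hM, Matrix.updateCol_eq_self]
  ring

theorem wt_deriv (τ : Perm α) (x : ℝ) : ∃ D : ℝ, HasDerivAt (fun x => wt τ x) D x ∧
    x * D = Fintype.card α * wt τ x - ∑ z, ((mat τ x).updateCol z (Pi.single z 1)).det := by
  refine ⟨_, det_deriv (A := fun x => mat τ x) (A' := mat' τ) (mat_deriv τ x), ?_⟩
  rw [Finset.mul_sum, Finset.sum_congr rfl fun z _ => col_term (mat τ x) τ x z rfl,
    Finset.sum_sub_distrib, Finset.sum_const, Finset.card_univ, nsmul_eq_mul]
  rfl

theorem adj_deriv (τ : Perm α) (p u : α) (x : ℝ) : ∃ D : ℝ,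
    HasDerivAt (fun x => ((mat τ x).updateCol p (Pi.single u 1)).det) D x ∧
    x * D = (Fintype.card α - 1 : ℝ) * ((mat τ x).updateCol p (Pi.single u 1)).det
      - ∑ z ∈ Finset.univ.erase p,
        (((mat τ x).updateCol p (Pi.single u 1)).updateCol z (Pi.single z 1)).det := by
  have h1 : ∀ i j, HasDerivAt (fun x => ((mat τ x).updateCol p (Pi.single u 1)) i j)
      (((mat' τ).updateCol p 0) i j) x := by
    intro i j
    by_cases h : j = p
    · subst h
      simp only [Matrix.updateCol_self]
      exact hasDerivAt_const x _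
    · simp only [Matrix.updateCol_ne h]
      exact mat_deriv τ x i j
  refine ⟨_, det_deriv (A := fun x => (mat τ x).updateCol p (Pi.single u 1))
    (A' := (mat' τ).updateCol p 0) h1, ?_⟩
  rw [← Finset.add_sum_erase _ _ (Finset.mem_univ p)]
  have h2 : (((mat τ x).updateCol p (Pi.single u 1)).updateCol p
      (fun i => ((mat' τ).updateCol p 0) i p)).det = 0 := by
    refine Matrix.det_eq_zero_of_column_eq_zero p fun i => ?_
    rw [Matrix.updateCol_self, Matrix.updateCol_self]
    rfl
  rw [h2, zero_add, Finset.mul_sum]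
  have h3 : ∀ z ∈ Finset.univ.erase p, x * (((mat τ x).updateCol p (Pi.single u 1)).updateCol z
      (fun i => ((mat' τ).updateCol p 0) i z)).det =
      ((mat τ x).updateCol p (Pi.single u 1)).det -
        (((mat τ x).updateCol p (Pi.single u 1)).updateCol z (Pi.single z 1)).det := by
    intro z hz
    have hzp : z ≠ p := Finset.ne_of_mem_erase hz
    have h4 : (fun i => ((mat' τ).updateCol p 0) i z) = fun i => mat' τ i z := by
      funext i
      rw [Matrix.updateCol_ne hzp]
    rw [h4]
    refine col_term _ τ x z ?_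
    funext i
    rw [Matrix.updateCol_ne hzp]
  rw [Finset.sum_congr rfl h3, Finset.sum_sub_distrib, Finset.sum_const,
    Finset.card_erase_of_mem (Finset.mem_univ p), Finset.card_univ, nsmul_eq_mul]
  have h5 : 1 ≤ Fintype.card α := Fintype.card_pos_iff.2 ⟨p⟩
  push_cast [Nat.cast_sub h5]
  ring

end Pool.Agent.Helper52.RC
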