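import Pool.Agent.Helper52.RC.Rec
import Pool.Agent.Helper52.RC.MatA
import Pool.Agent.Helper52.RC.MatB

/-!
# RC module Form: `cnt A τ = (|A| - 1)! ∫ det ((1 - x) 1 + x P) dx`
-/

open Equiv

namespace Pool.Agent.Helper52.RC

variable {α : Type*} [Fintype α] [DecidableEq α]

omit [Fintype α] in
theorem mat_continuous (τ : Perm α) : Continuous (fun x => mat τ x) := by
  apply continuous_matrix
  intro i j
  simp only [mat, Matrix.of_apply]
  split_ifs <;> fun_prop

theorem wt_continuous (τ : Perm α) : Continuous (fun x => wt τ x) :=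
  (mat_continuous τ).matrix_det

omit [Fintype α] [DecidableEq α] in
theorem inv_ne {τ : Perm α} {u : α} (hu : τ u ≠ u) : τ⁻¹ u ≠ u := by
  intro h
  apply hu
  conv_lhs => rw [← h]
  simp

/-- The key identity: `(card - 1) wt τ - ∑ wt (red τ u z)` is a derivative of a function vanishing at
`0` and `1`. -/
theorem key_deriv (τ : Perm α) (u : α) (hu : τ u ≠ u) (x : ℝ) :
    HasDerivAt (fun x => x * (wt τ x - ((mat τ x).updateCol (τ⁻¹ u) (Pi.single u 1)).det))
      ((Fintype.card α - 1 : ℝ) * wt τ x -
        ∑ z ∈ (Finset.univ.erase u).erase (τ⁻¹ u), wt (red τ u z) x) x := by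
  have hp := inv_ne hu
  obtain ⟨D1, hD1, hD1'⟩ := wt_deriv τ x
  obtain ⟨D2, hD2, hD2'⟩ := adj_deriv τ (τ⁻¹ u) u x
  have h : HasDerivAt
      (fun x => x * (wt τ x - ((mat τ x).updateCol (τ⁻¹ u) (Pi.single u 1)).det))
      (1 * (wt τ x - ((mat τ x).updateCol (τ⁻¹ u) (Pi.single u 1)).det) + x * (D1 - D2)) x :=
    (hasDerivAt_id x).mul (hD1.sub hD2)
  refine h.congr_deriv ?_
  set p := τ⁻¹ u with hp_def
  set M := mat τ x with hM
  set D := (M.updateCol p (Pi.single u 1)).det with hD
  have hup : u ∈ Finset.univ.erase p := by simp [hp.symm]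
  have hpu : p ∈ Finset.univ.erase u := by simp [hp]
  have e1 : ∑ z ∈ (Finset.univ.erase u).erase p, wt (red τ u z) x =
      ∑ z ∈ (Finset.univ.erase u).erase p, ((M.updateCol z (Pi.single z 1)).det
        - (M.updateCol z (Pi.single u 1)).det - (M.updateCol p (Pi.single z 1)).det + D
        - ((M.updateCol p (Pi.single u 1)).updateCol z (Pi.single z 1)).det) := by
    apply Finset.sum_congr rfl
    intro z hz
    simp only [Finset.mem_erase, Finset.mem_univ, and_true] at hz
    exact wt_red τ u hu z hz.2 hz.1 x
  have s : ∀ F : α → ℝ, ∑ z ∈ (Finset.univ.erase u).erase p, F z = ∑ z, F z - F u - F p := by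
    intro F
    have a := Finset.add_sum_erase (Finset.univ.erase u) F hpu
    have b := Finset.add_sum_erase Finset.univ F (Finset.mem_univ u)
    linarith
  have s1 : ∀ F : α → ℝ, ∑ z ∈ Finset.univ.erase p, F z = ∑ z, F z - F p := by
    intro F
    have b := Finset.add_sum_erase Finset.univ F (Finset.mem_univ p)
    linarith
  have z0 : ((M.updateCol p (Pi.single u 1)).updateCol u (Pi.single u 1)).det = 0 := by
    apply Matrix.det_zero_of_column_eq hp
    intro i
    rw [Matrix.updateCol_ne hp, Matrix.updateCol_self, Matrix.updateCol_self]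
  have c1 := sum_adj_col τ u x
  have c2 := sum_adj_row τ p x
  rw [← hM] at c1 c2
  rw [e1, Finset.sum_sub_distrib, Finset.sum_add_distrib, Finset.sum_sub_distrib,
    Finset.sum_sub_distrib, s, s, s, s (fun _ => D), s, c1, c2, z0]
  rw [s1] at hD2'
  simp only [Finset.sum_const, Finset.card_univ, nsmul_eq_mul]
  have : x * (D1 - D2) = x * D1 - x * D2 := by ring
  simp only [one_mul]
  rw [this, hD1', hD2']
  simp only [← hD]
  ring

theorem It_rec_univ (τ : Perm α) (u : α) (hu : τ u ≠ u) :
    ∑ z ∈ (Finset.univ.erase u).erase (τ⁻¹ u), It (red τ u z) =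
      (Fintype.card α - 1 : ℝ) * It τ := by
  have hcont : Continuous (fun x => (Fintype.card α - 1 : ℝ) * wt τ x -
        ∑ z ∈ (Finset.univ.erase u).erase (τ⁻¹ u), wt (red τ u z) x) := by
    apply Continuous.sub
    · exact continuous_const.mul (wt_continuous τ)
    · exact continuous_finsetSum _ fun z _ => wt_continuous _
  have h := intervalIntegral.integral_eq_sub_of_hasDerivAt
    (fun x _ => key_deriv τ u hu x) (hcont.intervalIntegrable 0 1)
  have h1 : (mat τ 1).updateCol (τ⁻¹ u) (Pi.single u 1) = mat τ 1 := by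
    ext i j
    by_cases hj : j = τ⁻¹ u
    · subst hj
      rw [Matrix.updateCol_self]
      simp [mat, Pi.single_apply]
    · rw [Matrix.updateCol_ne hj]
  rw [h1] at h
  simp only [wt, sub_self, mul_zero, zero_mul] at h
  rw [intervalIntegral.integral_sub, intervalIntegral.integral_const_mul,
    intervalIntegral.integral_finsetSum] at h
  · simp only [It, wt]
    linarith
  · intro z _
    exact (wt_continuous _).intervalIntegrable 0 1
  · exact (continuous_const.mul (wt_continuous τ)).intervalIntegrable 0 1
  · exact (continuous_finsetSum _ fun z _ => wt_continuous _).intervalIntegrable 0 1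

omit [Fintype α] in
theorem red_eq_self (τ : Perm α) (u z : α) (hz : τ z = z) : red τ u z = τ := by
  unfold red
  rw [mul_assoc, Equiv.mul_swap_eq_swap_mul, ← mul_assoc]
  simp [hz, Equiv.swap_comm z u]

theorem It_rec (A : Finset α) (τ : Perm α) (hτ : ∀ x, x ∉ A → τ x = x) (u : α)
    (hu : τ u ≠ u) :
    ∑ z ∈ (A.erase u).erase (τ⁻¹ u), It (red τ u z) = ((A.card : ℝ) - 1) * It τ := by
  have hp := inv_ne hu
  have huA : u ∈ A := by
    by_contra h
    exact hu (hτ u h)
  have hpA : τ⁻¹ u ∈ A := by
    by_contra h
    have := hτ _ h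
    simp at this
    exact hp this.symm
  have h := It_rec_univ τ u hu
  have hsub : (A.erase u).erase (τ⁻¹ u) ⊆ (Finset.univ.erase u).erase (τ⁻¹ u) := by
    intro z hz
    simp only [Finset.mem_erase, Finset.mem_univ, and_true] at hz ⊢
    exact ⟨hz.1, hz.2.1⟩
  rw [← Finset.sum_sdiff hsub] at h
  have hsd : ((Finset.univ.erase u).erase (τ⁻¹ u)) \ ((A.erase u).erase (τ⁻¹ u)) = Aᶜ := by
    ext z
    simp only [Finset.mem_sdiff, Finset.mem_erase, Finset.mem_univ, and_true, Finset.mem_compl]
    constructor
    · rintro ⟨⟨h1, h2⟩, h3⟩ h4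
      exact h3 ⟨h1, h2, h4⟩
    · intro h4
      refine ⟨⟨?_, ?_⟩, fun h => h4 h.2.2⟩
      · rintro rfl; exact h4 hpA
      · rintro rfl; exact h4 huA
  rw [hsd] at h
  have h2 : ∑ z ∈ Aᶜ, It (red τ u z) = ((Fintype.card α : ℝ) - A.card) * It τ := by
    rw [Finset.sum_congr rfl (fun z hz => by
      rw [red_eq_self τ u z (hτ z (Finset.mem_compl.1 hz))])]
    rw [Finset.sum_const, Finset.card_compl, nsmul_eq_mul, Nat.cast_sub (Finset.card_le_univ A)]
  rw [h2] at h
  linarith

theorem It_one_form : It (1 : Perm α) = 1 := by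
  have : ∀ x : ℝ, wt (1 : Perm α) x = 1 := by
    intro x
    have : mat (1 : Perm α) x = 1 := by
      ext i j
      simp only [mat, Matrix.of_apply, Perm.one_apply, Matrix.one_apply]
      split_ifs <;> ring
    rw [wt, this, Matrix.det_one]
  simp [It, this]

theorem cnt_eq (A : Finset α) (hA : A.Nonempty) (τ : Perm α) (hτ : ∀ x, x ∉ A → τ x = x) :
    (cnt A τ : ℝ) = (A.card - 1).factorial * It τ := by
  induction hn : A.card using Nat.strong_induction_on generalizing A τ with
  | _ n ih =>
    subst hn
    by_cases h1 : τ = 1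
    · subst h1
      rw [cnt_one A hA, It_one_form, mul_one]
    · obtain ⟨u, hu⟩ : ∃ u, τ u ≠ u := by
        by_contra h
        push Not at h
        exact h1 (Equiv.ext h)
      have huA : u ∈ A := by
        by_contra h
        exact hu (hτ u h)
      have hτu : τ u ∈ A := by
        by_contra h
        have := hτ _ h
        exact hu (τ.injective this)
      have hcard : 2 ≤ A.card := by
        have : ({u, τ u} : Finset α) ⊆ A := by
          intro z hz
          simp only [Finset.mem_insert, Finset.mem_singleton] at hz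
          rcases hz with rfl | rfl
          · exact huA
          · exact hτu
        have h2 := Finset.card_le_card this
        rwa [Finset.card_pair hu.symm] at h2
      rw [cnt_rec A τ hτ u huA hu]
      push_cast
      have step : ∀ z ∈ (A.erase u).erase (τ⁻¹ u), (cnt (A.erase z) (red τ u z) : ℝ) =
          (A.card - 2).factorial * It (red τ u z) := by
        intro z hz
        have hzA : z ∈ A := by
          simp only [Finset.mem_erase] at hz
          exact hz.2.2
        have hc : (A.erase z).card = A.card - 1 := Finset.card_erase_of_mem hzA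
        have := ih (A.erase z).card (by rw [hc]; omega) (A.erase z)
          (by rw [← Finset.card_pos, hc]; omega) (red τ u z) (red_fix A τ hτ u huA hu z hz) rfl
        rw [this, hc]
        rfl
      rw [Finset.sum_congr rfl step, ← Finset.mul_sum, It_rec A τ hτ u hu, ← mul_assoc]
      congr 1
      have : A.card - 1 = (A.card - 2) + 1 := by omega
      rw [this, Nat.factorial_succ]
      have h3 : (A.card : ℝ) - 1 = ((A.card - 2 + 1 : ℕ) : ℝ) := by
        rw [← this, Nat.cast_sub (by omega)]
        simp
      rw [h3]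
      push_cast
      ring

end Pool.Agent.Helper52.RC
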