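import Pool.Agent.Helper52.RC.Defs

/-!
# RC module Had: `∫ det ((1 - x) 1 + x P) dx ≤ 2 / ((1 - δ) s) + exp (- δ s / 2)`

`s` = number of points moved by `τ`. Hadamard's inequality: column `j` of `mat τ x` is the unit vector `e_j`
if `τ j = j`, else `(1 - x) e_j + x e_{τ j}` of euclidean norm `((1 - x)^2 + x^2)^(1/2) ≤ exp (-x (1 - x))`,
so `|wt τ x| ≤ exp (- s x (1 - x))` on `[0,1]`. On `[0,δ]` `x (1 - x) ≥ (1 - δ) x`, on `[1-δ,1]`
`x (1 - x) ≥ (1 - δ) (1 - x)`, and on `[δ,1-δ]` `x (1 - x) ≥ δ (1 - δ) ≥ δ/2`.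
-/

open Equiv

namespace Pool.Agent.Helper52.RC

/-- Hadamard's inequality. -/
theorem had_det_le {d : ℕ} (M : Matrix (Fin d) (Fin d) ℝ) :
    |M.det| ≤ ∏ j, √(∑ i, M i j ^ 2) := by
  haveI : Fact (Module.finrank ℝ (EuclideanSpace ℝ (Fin d)) = d) := ⟨by simp⟩
  set b := EuclideanSpace.basisFun (Fin d) ℝ with hb
  set o := b.toBasis.orientation with ho
  have h1 := o.abs_volumeForm_apply_le (fun j => WithLp.toLp 2 (fun i => M i j))
  rw [o.volumeForm_robust b rfl, Module.Basis.det_apply] at h1
  have h2 : b.toBasis.toMatrix (fun j => WithLp.toLp 2 (fun i => M i j)) = M := by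
    ext i j
    rw [Module.Basis.toMatrix_apply]
    simp [hb]
  rw [h2] at h1
  refine h1.trans (le_of_eq ?_)
  refine Finset.prod_congr rfl fun j _ => ?_
  rw [EuclideanSpace.norm_eq]
  congr 1
  refine Finset.sum_congr rfl fun i _ => ?_
  simp

theorem had_col {d : ℕ} (τ : Perm (Fin d)) (x : ℝ) (j : Fin d) :
    ∑ i, mat τ x i j ^ 2 = if τ j = j then 1 else (1 - x) ^ 2 + x ^ 2 := by
  split_ifs with h
  · have h1 : ∀ i, mat τ x i j ^ 2 = if i = j then 1 else 0 := by
      intro i
      simp only [mat, Matrix.of_apply, h]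
      split_ifs <;> ring
    simp only [h1]
    simp
  · have h1 : ∀ i, mat τ x i j ^ 2 = (if i = j then (1 - x) ^ 2 else 0) +
        if i = τ j then x ^ 2 else 0 := by
      intro i
      simp only [mat, Matrix.of_apply]
      by_cases h2 : i = j
      · have h3 : ¬ i = τ j := by
          rw [h2]
          exact fun h4 => h h4.symm
        simp [h2, Ne.symm h]
      · simp only [h2, if_false, zero_add]
        split_ifs <;> ring
    simp only [h1]
    rw [Finset.sum_add_distrib]
    simp

theorem wt_abs_le {d : ℕ} (τ : Perm (Fin d)) (x : ℝ) (h0 : 0 ≤ x) (h1 : x ≤ 1) :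
    |wt τ x| ≤ Real.exp (-((τ.support.card : ℝ) * (x * (1 - x)))) := by
  refine (had_det_le _).trans ?_
  have h2 : ∀ j ∈ (Finset.univ : Finset (Fin d)), √(∑ i, mat τ x i j ^ 2) ≤
      if j ∈ τ.support then Real.exp (-(x * (1 - x))) else 1 := by
    intro j _
    rw [had_col]
    by_cases h : τ j = j
    · have h3 : j ∉ τ.support := by
        rw [Perm.notMem_support]
        exact h
      simp [h, h3]
    · have h3 : j ∈ τ.support := by
        rw [Perm.mem_support]
        exact h
      rw [if_neg h, if_pos h3]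
      refine Real.sqrt_le_iff.2 ⟨(Real.exp_pos _).le, ?_⟩
      rw [← Real.exp_nat_mul]
      have h4 := Real.add_one_le_exp (((2 : ℕ) : ℝ) * -(x * (1 - x)))
      refine le_trans (le_of_eq ?_) h4
      push_cast
      ring
  refine (Finset.prod_le_prod (fun j _ => Real.sqrt_nonneg _) h2).trans (le_of_eq ?_)
  rw [Finset.prod_ite, Finset.prod_const_one, mul_one, Finset.prod_const, ← Real.exp_nat_mul]
  congr 1
  have h5 : (Finset.univ.filter fun j => j ∈ τ.support) = τ.support := by
    ext j
    simp
  rw [h5]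
  ring

theorem wt_cont {d : ℕ} (τ : Perm (Fin d)) : Continuous (fun x => wt τ x) := by
  unfold wt
  refine Continuous.matrix_det ?_
  refine continuous_matrix fun i j => ?_
  simp only [mat, Matrix.of_apply]
  refine Continuous.add ?_ ?_
  · split_ifs
    · exact continuous_const.sub continuous_id
    · exact continuous_const
  · split_ifs
    · exact continuous_id
    · exact continuous_const

theorem had_exp_int {c : ℝ} (hc : 0 < c) : ∫ x in (0 : ℝ)..1, Real.exp (-(c * x)) ≤ 1 / c := by
  have h0 : -c ≠ 0 := neg_ne_zero.2 hc.ne'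
  have h1 : ∀ x : ℝ, Real.exp (-(c * x)) = (fun y => Real.exp y) ((-c) * x) := by
    intro x
    simp only
    congr 1
    ring
  simp only [h1]
  rw [intervalIntegral.integral_comp_mul_left _ h0, integral_exp]
  have h2 := Real.exp_pos (-c * 1)
  have h3 : (-c)⁻¹ • (Real.exp (-c * 1) - Real.exp (-c * 0)) = (1 - Real.exp (-c * 1)) / c := by
    rw [mul_zero, Real.exp_zero, smul_eq_mul]
    field_simp
    ring
  rw [h3]
  exact div_le_div_of_nonneg_right (by linarith) hc.le

theorem It_le {d : ℕ} (τ : Perm (Fin d)) (hs : 0 < τ.support.card) (δ : ℝ) (h0 : 0 < δ)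
    (h1 : δ ≤ 1 / 2) :
    It τ ≤ 2 / ((1 - δ) * τ.support.card) + Real.exp (-(δ * τ.support.card / 2)) := by
  set s : ℝ := (τ.support.card : ℝ) with hsd
  have hs0 : 0 < s := by
    rw [hsd]
    exact_mod_cast hs
  have hd : 0 < 1 - δ := by linarith
  have hc : 0 < (1 - δ) * s := mul_pos hd hs0
  have hpt : ∀ x ∈ Set.Icc (0 : ℝ) 1, wt τ x ≤
      Real.exp (-((1 - δ) * s * x)) + Real.exp (-((1 - δ) * s * (1 - x))) +
        Real.exp (-(δ * s / 2)) := by
    intro x hx
    obtain ⟨hx0, hx1⟩ := hx
    refine (le_abs_self _).trans ((wt_abs_le τ x hx0 hx1).trans ?_)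
    rw [← hsd]
    have p1 := Real.exp_pos (-((1 - δ) * s * x))
    have p2 := Real.exp_pos (-((1 - δ) * s * (1 - x)))
    have p3 := Real.exp_pos (-(δ * s / 2))
    rcases le_total x δ with h2 | h2
    · have h3 : Real.exp (-(s * (x * (1 - x)))) ≤ Real.exp (-((1 - δ) * s * x)) := by
        refine Real.exp_le_exp.2 ?_
        have : (1 - δ) * s * x ≤ s * (x * (1 - x)) := by
          have h4 : (1 - δ) * (s * x) ≤ (1 - x) * (s * x) :=
            mul_le_mul_of_nonneg_right (by linarith) (by positivity)
          linarith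
        linarith
      linarith
    · rcases le_total (1 - x) δ with h3 | h3
      · have h4 : Real.exp (-(s * (x * (1 - x)))) ≤ Real.exp (-((1 - δ) * s * (1 - x))) := by
          refine Real.exp_le_exp.2 ?_
          have : (1 - δ) * s * (1 - x) ≤ s * (x * (1 - x)) := by
            have h5 : 0 ≤ s * (1 - x) := mul_nonneg hs0.le (by linarith)
            have h6 : (1 - δ) * (s * (1 - x)) ≤ x * (s * (1 - x)) :=
              mul_le_mul_of_nonneg_right (by linarith) h5
            linarith
          linarith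
        linarith
      · have h4 : Real.exp (-(s * (x * (1 - x)))) ≤ Real.exp (-(δ * s / 2)) := by
          refine Real.exp_le_exp.2 ?_
          have h5 : δ / 2 ≤ x * (1 - x) := by nlinarith
          have h6 : s * (δ / 2) ≤ s * (x * (1 - x)) := mul_le_mul_of_nonneg_left h5 hs0.le
          linarith
        linarith
  have i1 : IntervalIntegrable (fun x : ℝ => Real.exp (-((1 - δ) * s * x))) MeasureTheory.volume 0 1 :=
    (by fun_prop : Continuous fun x : ℝ => Real.exp (-((1 - δ) * s * x))).intervalIntegrable _ _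
  have i2 : IntervalIntegrable (fun x : ℝ => Real.exp (-((1 - δ) * s * (1 - x))))
      MeasureTheory.volume 0 1 :=
    (by fun_prop : Continuous fun x : ℝ => Real.exp (-((1 - δ) * s * (1 - x)))).intervalIntegrable _ _
  have i3 : IntervalIntegrable (fun _ : ℝ => Real.exp (-(δ * s / 2))) MeasureTheory.volume 0 1 :=
    intervalIntegrable_const
  unfold It
  calc ∫ x in (0 : ℝ)..1, wt τ x ≤ ∫ x in (0 : ℝ)..1, (Real.exp (-((1 - δ) * s * x)) +
      Real.exp (-((1 - δ) * s * (1 - x))) + Real.exp (-(δ * s / 2))) :=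
        intervalIntegral.integral_mono_on zero_le_one ((wt_cont τ).intervalIntegrable _ _)
          ((i1.add i2).add i3) hpt
    _ = (∫ x in (0 : ℝ)..1, Real.exp (-((1 - δ) * s * x))) +
        (∫ x in (0 : ℝ)..1, Real.exp (-((1 - δ) * s * (1 - x)))) + Real.exp (-(δ * s / 2)) := by
        rw [intervalIntegral.integral_add (i1.add i2) i3, intervalIntegral.integral_add i1 i2,
          intervalIntegral.integral_const]
        simp
    _ ≤ 1 / ((1 - δ) * s) + 1 / ((1 - δ) * s) + Real.exp (-(δ * s / 2)) := by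
        have e1 := had_exp_int hc
        have e2 : ∫ x in (0 : ℝ)..1, Real.exp (-((1 - δ) * s * (1 - x))) =
            ∫ x in (0 : ℝ)..1, Real.exp (-((1 - δ) * s * x)) := by
          have := intervalIntegral.integral_comp_sub_left
            (a := 0) (b := 1) (fun y : ℝ => Real.exp (-((1 - δ) * s * y))) 1
          simpa using this
        rw [e2]
        linarith
    _ = _ := by ring

end Pool.Agent.Helper52.RC
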