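import Pool.Agent.PWI.State
import Pool.Agent.Helper52.RC.Defs

/-!
# RC module Hom: counting homomorphisms `Pi1 g n → G`, `n ≥ 1`

For `n ≥ 1` a homomorphism is determined by arbitrary images of `a_i`, `b_i` (`i < g`) and `z_j`
(`j < n - 1`); the relation gives the image of `z_(n-1)`. So for `g ≥ 1` the map `φ ↦ (φ a_0, φ b_0)` has all
fibres of the same size `|G|^(2g - 2 + n - 1)`.
-/

namespace Pool.Agent.Helper52.RC

open Pool.Agent.PWI

private theorem hom_rel {g n : ℕ} {G : Type} [Group G] (φ : Pi1 g n →* G) :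
    (List.ofFn fun i : Fin g => φ (loopA i) * φ (loopB i) * (φ (loopA i))⁻¹ * (φ (loopB i))⁻¹).prod *
      (List.ofFn fun j : Fin n => φ (loopZ j)).prod = 1 := by
  have h : (PresentedGroup.mk ({rel g n} : Set (FreeGroup (Gen g n)))) (rel g n) = 1 :=
    PresentedGroup.one_of_mem rfl
  have h2 : φ ((PresentedGroup.mk ({rel g n} : Set (FreeGroup (Gen g n)))) (rel g n)) = 1 := by
    rw [h]; exact map_one φ
  let ψ : FreeGroup (Gen g n) →* G :=
    MonoidHom.comp φ (PresentedGroup.mk ({rel g n} : Set (FreeGroup (Gen g n))))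
  have h3 : ψ (rel g n) = 1 := h2
  unfold rel at h3
  rw [map_mul, map_list_prod, map_list_prod, List.map_ofFn, List.map_ofFn] at h3
  rw [← h3]
  congr 3
  · funext i
    have e1 : (loopA i : Pi1 g n) =
        (PresentedGroup.mk ({rel g n} : Set (FreeGroup (Gen g n)))) (FreeGroup.of (Gen.a i)) := by
      unfold loopA
      rw [dif_pos i.2]
      rfl
    have e2 : (loopB i : Pi1 g n) =
        (PresentedGroup.mk ({rel g n} : Set (FreeGroup (Gen g n)))) (FreeGroup.of (Gen.b i)) := by
      unfold loopB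
      rw [dif_pos i.2]
      rfl
    simp only [Function.comp_apply, map_mul, map_inv]
    rw [e1, e2]
    rfl
  · funext j
    have e1 : (loopZ j : Pi1 g n) =
        (PresentedGroup.mk ({rel g n} : Set (FreeGroup (Gen g n)))) (FreeGroup.of (Gen.z j)) := by
      unfold loopZ
      rw [dif_pos j.2]
      rfl
    simp only [Function.comp_apply]
    rw [e1]
    rfl

private theorem hom_ext {g n : ℕ} {G : Type} [Group G] (φ ψ : Pi1 g n →* G)
    (hA : ∀ i : Fin g, φ (loopA i) = ψ (loopA i)) (hB : ∀ i : Fin g, φ (loopB i) = ψ (loopB i))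
    (hZ : ∀ j : Fin n, φ (loopZ j) = ψ (loopZ j)) : φ = ψ := by
  refine PresentedGroup.ext (rels := ({rel g n} : Set (FreeGroup (Gen g n)))) ?_
  rintro (i | i | j)
  · have := hA i
    unfold loopA at this
    rw [dif_pos i.2] at this
    exact this
  · have := hB i
    unfold loopB at this
    rw [dif_pos i.2] at this
    exact this
  · have := hZ j
    unfold loopZ at this
    rw [dif_pos j.2] at this
    exact this

private theorem exists_equiv (g N : ℕ) (G : Type) [Group G] :
    ∃ e : (Pi1 (g + 1) (N + 1) →* G) ≃ (G × G) × ((Fin g → G) × (Fin g → G) × (Fin N → G)),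
      ∀ φ, (e φ).1 = (φ (loopA 0), φ (loopB 0)) := by
  let f : (Pi1 (g + 1) (N + 1) →* G) → (G × G) × ((Fin g → G) × (Fin g → G) × (Fin N → G)) :=
    fun φ => ((φ (loopA 0), φ (loopB 0)), (fun i => φ (loopA (i + 1)), fun i => φ (loopB (i + 1)),
      fun j => φ (loopZ j)))
  have hinj : Function.Injective f := by
    intro φ ψ h
    have h1 := congrArg Prod.fst h
    have h2 := congrArg Prod.snd h
    have hA0 : φ (loopA 0) = ψ (loopA 0) := congrArg Prod.fst h1
    have hB0 : φ (loopB 0) = ψ (loopB 0) := congrArg Prod.snd h1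
    have hA1 : ∀ i : Fin g, φ (loopA (i + 1)) = ψ (loopA (i + 1)) :=
      fun i => congrFun (congrArg Prod.fst h2) i
    have hB1 : ∀ i : Fin g, φ (loopB (i + 1)) = ψ (loopB (i + 1)) :=
      fun i => congrFun (congrArg Prod.fst (congrArg Prod.snd h2)) i
    have hZ1 : ∀ j : Fin N, φ (loopZ j) = ψ (loopZ j) :=
      fun j => congrFun (congrArg Prod.snd (congrArg Prod.snd h2)) j
    have hA : ∀ i : Fin (g + 1), φ (loopA i) = ψ (loopA i) := by
      intro i
      refine Fin.cases ?_ (fun i => ?_) i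
      · exact hA0
      · exact hA1 i
    have hB : ∀ i : Fin (g + 1), φ (loopB i) = ψ (loopB i) := by
      intro i
      refine Fin.cases ?_ (fun i => ?_) i
      · exact hB0
      · exact hB1 i
    have r1 := hom_rel φ
    have r2 := hom_rel ψ
    rw [List.ofFn_succ' (f := fun j : Fin (N + 1) => φ (loopZ j)), List.prod_concat] at r1
    rw [List.ofFn_succ' (f := fun j : Fin (N + 1) => ψ (loopZ j)), List.prod_concat] at r2
    have hlast : φ (loopZ ((Fin.last N : Fin (N + 1)) : ℕ)) = ψ (loopZ ((Fin.last N : Fin (N + 1)) : ℕ)) := by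
      have e1 : (fun i : Fin (g + 1) => φ (loopA i) * φ (loopB i) * (φ (loopA i))⁻¹ *
          (φ (loopB i))⁻¹) = fun i : Fin (g + 1) => ψ (loopA i) * ψ (loopB i) * (ψ (loopA i))⁻¹ *
          (ψ (loopB i))⁻¹ := by
        funext i
        rw [hA i, hB i]
      have e2 : (fun j : Fin N => φ (loopZ ((Fin.castSucc j : Fin (N + 1)) : ℕ))) =
          fun j : Fin N => ψ (loopZ ((Fin.castSucc j : Fin (N + 1)) : ℕ)) := by
        funext j
        exact hZ1 j
      rw [e1, e2] at r1
      rw [← r2] at r1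
      exact mul_left_cancel (mul_left_cancel r1)
    refine hom_ext φ ψ hA hB fun j => ?_
    refine Fin.lastCases ?_ (fun j => ?_) j
    · exact hlast
    · exact hZ1 j
  have hsurj : Function.Surjective f := by
    rintro ⟨⟨x, y⟩, α, β, ζ⟩
    let P : G := (List.ofFn fun i : Fin (g + 1) =>
      (Fin.cons x α : Fin (g + 1) → G) i * (Fin.cons y β : Fin (g + 1) → G) i *
      ((Fin.cons x α : Fin (g + 1) → G) i)⁻¹ * ((Fin.cons y β : Fin (g + 1) → G) i)⁻¹).prod
    let v : Gen (g + 1) (N + 1) → G := fun w => match w with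
      | Gen.a i => (Fin.cons x α : Fin (g + 1) → G) i
      | Gen.b i => (Fin.cons y β : Fin (g + 1) → G) i
      | Gen.z j => (Fin.snoc ζ ((P * (List.ofFn ζ).prod)⁻¹) : Fin (N + 1) → G) j
    have hv : ∀ r ∈ ({rel (g + 1) (N + 1)} : Set (FreeGroup (Gen (g + 1) (N + 1)))),
        FreeGroup.lift v r = 1 := by
      intro r hr
      rw [Set.mem_singleton_iff] at hr
      subst hr
      unfold rel
      rw [map_mul, map_list_prod, map_list_prod, List.map_ofFn, List.map_ofFn]
      have e1 : (⇑(FreeGroup.lift v) ∘ fun i : Fin (g + 1) =>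
          FreeGroup.of (Gen.a i : Gen (g + 1) (N + 1)) * FreeGroup.of (Gen.b i) *
          (FreeGroup.of (Gen.a i))⁻¹ * (FreeGroup.of (Gen.b i))⁻¹) = fun i : Fin (g + 1) =>
          (Fin.cons x α : Fin (g + 1) → G) i * (Fin.cons y β : Fin (g + 1) → G) i *
          ((Fin.cons x α : Fin (g + 1) → G) i)⁻¹ * ((Fin.cons y β : Fin (g + 1) → G) i)⁻¹ := by
        funext i
        simp only [Function.comp_apply, map_mul, map_inv, FreeGroup.lift_apply_of]
        rfl
      have e2 : (⇑(FreeGroup.lift v) ∘ fun j : Fin (N + 1) =>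
          FreeGroup.of (Gen.z j : Gen (g + 1) (N + 1))) = fun j : Fin (N + 1) =>
          (Fin.snoc ζ ((P * (List.ofFn ζ).prod)⁻¹) : Fin (N + 1) → G) j := by
        funext j
        simp only [Function.comp_apply, FreeGroup.lift_apply_of]
        rfl
      rw [e1, e2, List.ofFn_succ' (f := fun j : Fin (N + 1) =>
          (Fin.snoc ζ ((P * (List.ofFn ζ).prod)⁻¹) : Fin (N + 1) → G) j), List.prod_concat]
      simp only [Fin.snoc_castSucc, Fin.snoc_last]
      change P * ((List.ofFn ζ).prod * (P * (List.ofFn ζ).prod)⁻¹) = 1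
      group
    let φ : Pi1 (g + 1) (N + 1) →* G := PresentedGroup.toGroup hv
    have hφa : ∀ i : Fin (g + 1), φ (loopA i) = (Fin.cons x α : Fin (g + 1) → G) i := by
      intro i
      have e : (loopA i : Pi1 (g + 1) (N + 1)) = PresentedGroup.of (Gen.a i) := by
        unfold loopA
        rw [dif_pos i.2]
      rw [e]
      exact PresentedGroup.toGroup.of hv
    have hφb : ∀ i : Fin (g + 1), φ (loopB i) = (Fin.cons y β : Fin (g + 1) → G) i := by
      intro i
      have e : (loopB i : Pi1 (g + 1) (N + 1)) = PresentedGroup.of (Gen.b i) := by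
        unfold loopB
        rw [dif_pos i.2]
      rw [e]
      exact PresentedGroup.toGroup.of hv
    have hφz : ∀ j : Fin (N + 1), φ (loopZ j) =
        (Fin.snoc ζ ((P * (List.ofFn ζ).prod)⁻¹) : Fin (N + 1) → G) j := by
      intro j
      have e : (loopZ j : Pi1 (g + 1) (N + 1)) = PresentedGroup.of (Gen.z j) := by
        unfold loopZ
        rw [dif_pos j.2]
      rw [e]
      exact PresentedGroup.toGroup.of hv
    refine ⟨φ, ?_⟩
    refine Prod.ext (Prod.ext ?_ ?_) (Prod.ext ?_ (Prod.ext ?_ ?_))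
    · exact hφa 0
    · exact hφb 0
    · funext i
      have := hφa i.succ
      rwa [Fin.cons_succ, Fin.val_succ] at this
    · funext i
      have := hφb i.succ
      rwa [Fin.cons_succ, Fin.val_succ] at this
    · funext j
      have := hφz j.castSucc
      rwa [Fin.snoc_castSucc] at this
  exact ⟨Equiv.ofBijective f ⟨hinj, hsurj⟩, fun φ => rfl⟩

theorem hom_count (g n : ℕ) (hg : 1 ≤ g) (hn : 1 ≤ n) (G : Type) [Group G] [Finite G]
    (S : Set (G × G)) :
    Finite (Pi1 g n →* G) ∧
    Nat.card {φ : Pi1 g n →* G // (φ (loopA 0), φ (loopB 0)) ∈ S} * Nat.card G ^ 2 =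
      S.ncard * Nat.card (Pi1 g n →* G) := by
  obtain ⟨g, rfl⟩ : ∃ g', g = g' + 1 := ⟨g - 1, by omega⟩
  obtain ⟨N, rfl⟩ : ∃ N, n = N + 1 := ⟨n - 1, by omega⟩
  obtain ⟨e, he⟩ := exists_equiv g N G
  refine ⟨Finite.of_equiv _ e.symm, ?_⟩
  have h1 : Nat.card {φ : Pi1 (g + 1) (N + 1) →* G // (φ (loopA 0), φ (loopB 0)) ∈ S} =
      S.ncard * Nat.card ((Fin g → G) × (Fin g → G) × (Fin N → G)) := by
    rw [← Nat.card_coe_set_eq, ← Nat.card_prod]
    refine Nat.card_congr ?_
    refine (Equiv.subtypeEquiv e (q := fun q => q.1 ∈ S) fun φ => by rw [he]).trans ?_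
    exact
      { toFun := fun q => (⟨q.1.1, q.2⟩, q.1.2)
        invFun := fun q => ⟨(q.1.1, q.2), q.1.2⟩
        left_inv := fun q => rfl
        right_inv := fun q => rfl }
  rw [h1, Nat.card_congr e, Nat.card_prod (G × G), Nat.card_prod G G]
  ring

end Pool.Agent.Helper52.RC
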