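import Pool.Agent.Helper52.RC.Defs2
import Pool.Agent.RCV.Kill

/-!
# RC module Kill2: good pairs give good homomorphisms   (helper40)
-/

open Equiv

namespace Pool.Agent.Helper52.RC

open Pool.Agent.PWI Pool.Agent.RCV

variable {g n : ℕ}

/-- the condition of `kill_sg` -/
def NP {X : Type*} (x c : Perm X) : Prop := (∀ a b, x.SameCycle a b) ∨
  ∃ p₀, x p₀ = p₀ ∧ (∀ a b, a ≠ p₀ → b ≠ p₀ → x.SameCycle a b) ∧ c p₀ ≠ p₀

theorem np_of_good {d : ℕ} {α β : Perm (Fin d)} (h : GoodPair α β) :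
    (∃ k : ℕ, NP (α * β ^ k) β) ∨ ∃ k : ℕ, NP (β * α ^ k)⁻¹ (β * α ^ k * α) := by
  rcases h with ⟨k, hk | hk⟩ | ⟨hfix, k, ⟨o, hk⟩ | ⟨o, hk⟩⟩
  · exact Or.inl ⟨k, Or.inl fun a b => hk.2 a (Finset.mem_univ _) b (Finset.mem_univ _)⟩
  · exact Or.inr ⟨k, Or.inl fun a b =>
      Perm.sameCycle_inv.2 (hk.2 a (Finset.mem_univ _) b (Finset.mem_univ _))⟩
  · have ho : (α * β ^ k) o = o := hk.1 o (by simp)
    refine Or.inl ⟨k, Or.inr ⟨o, ho, fun a b ha hb => hk.2 a (by simpa using ha) b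
      (by simpa using hb), ?_⟩⟩
    intro hβ
    refine hfix o ⟨?_, hβ⟩
    have h2 : (β ^ k) o = o := Function.IsFixedPt.perm_pow hβ k
    rw [Perm.mul_apply, h2] at ho
    exact ho
  · have ho : (β * α ^ k) o = o := hk.1 o (by simp)
    refine Or.inr ⟨k, Or.inr ⟨o, ?_, fun a b ha hb => Perm.sameCycle_inv.2
      (hk.2 a (by simpa using ha) b (by simpa using hb)), ?_⟩⟩
    · rw [Perm.inv_def, Equiv.symm_apply_eq]; exact ho.symm
    · intro h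
      rw [Perm.mul_apply] at h
      have hα : α o = o := (β * α ^ k).injective (h.trans ho.symm)
      refine hfix o ⟨hα, ?_⟩
      have h2 : (α ^ k) o = o := Function.IsFixedPt.perm_pow hα k
      rw [Perm.mul_apply, h2] at ho
      exact ho

theorem exists_curve {d : ℕ} (ρ : SG g n →* Perm (Fin d))
    (h : GoodPair (ρ (sa 0)) (ρ (sb 0))) :
    ∃ T : PMod g n, NP (ρ (T.1 (sa 0))) (ρ (T.1 (sb 0))) := by
  rcases np_of_good h with ⟨k, hk⟩ | ⟨k, hk⟩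
  · obtain ⟨T, t1, t2⟩ := curve1 (g := g) (n := n) k
    refine ⟨T, ?_⟩
    rw [t1, t2, map_mul, map_zpow, zpow_natCast]
    exact hk
  · obtain ⟨T, t1, t2⟩ := curve2 (g := g) (n := n) k
    refine ⟨T, ?_⟩
    rw [t1, t2, map_inv, map_mul ρ (sb 0 * sa 0 ^ (k : ℤ)), map_mul, map_zpow, zpow_natCast]
    exact hk

theorem np_trans {X : Type*} {x c : Perm X} (h : NP x c) (S : Subgroup (Perm X)) (hx : x ∈ S)
    (hc : c ∈ S) (i j : X) : ∃ y ∈ S, y i = j := by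
  have hs : ∀ a b, x.SameCycle a b → ∃ y ∈ S, y a = b := by
    rintro a b ⟨k, hk⟩
    exact ⟨x ^ k, S.zpow_mem hx k, hk⟩
  rcases h with h | ⟨p₀, h1, h2, h3⟩
  · exact hs i j (h i j)
  · -- every point is in the orbit of `c p₀`
    have key : ∀ i, ∃ y ∈ S, y (c p₀) = i := by
      intro i
      by_cases hi : i = p₀
      · exact ⟨c⁻¹, S.inv_mem hc, by rw [hi, Perm.inv_def, Equiv.symm_apply_apply]⟩
      · exact hs _ _ (h2 _ _ h3 hi)
    obtain ⟨y, hy, hy'⟩ := key i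
    obtain ⟨z, hz, hz'⟩ := key j
    refine ⟨z * y⁻¹, S.mul_mem hz (S.inv_mem hy), ?_⟩
    rw [Perm.mul_apply, ← hy', Perm.inv_def, Equiv.symm_apply_apply, hz']

theorem trans_sg {d : ℕ} (ρ : SG g n →* Perm (Fin d)) (T : PMod g n)
    (h : NP (ρ (T.1 (sa 0))) (ρ (T.1 (sb 0)))) (i j : Fin d) : ∃ x : SG g n, ρ x i = j := by
  obtain ⟨y, ⟨x, rfl⟩, hy⟩ := np_trans h ρ.range ⟨_, rfl⟩ ⟨_, rfl⟩ i j
  exact ⟨x, hy⟩

theorem kill {g n d : ℕ} (hg : 3 ≤ g) (φ : Pi1 g n →* Perm (Fin d))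
    (h : GoodPair (φ (loopA 0)) (φ (loopB 0))) : Good φ := by
  obtain ⟨T, hT⟩ := exists_curve (g := g) (n := n) (d := d) φ h
  refine ⟨fun i j => trans_sg (g := g) (n := n) φ T hT i j, ?_⟩
  intro i H hfin hH f x hx
  exact @kill_sg g n hg d φ T hT i H hfin (fun S m => hH S m) f x hx

end Pool.Agent.Helper52.RC
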