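import Pool.Agent.Helper52.RC.PairN
import Pool.Agent.Helper52.RC.Kill2
import Pool.Agent.Helper52.RC.Hom

/-!
# RC module MainN: the final theorem
-/

open Equiv

namespace Pool.Agent.Helper52.RC

open Pool.Agent.PWI

theorem mainN (ε : ℝ) (hε : 0 < ε) :
    ∃ d₀ : ℕ, ∀ d ≥ d₀, ∀ g n : ℕ, 3 ≤ g → 1 ≤ n →
      (Nat.card {φ : Pi1 g n →* Perm (Fin d) // ¬ Good φ} : ℝ) ≤
        ε * Nat.card (Pi1 g n →* Perm (Fin d)) := by
  classical
  obtain ⟨d₀, h⟩ := pairsN ε hε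
  refine ⟨d₀, fun d hd g n hg hn => ?_⟩
  have h := h d hd
  set S : Set (Perm (Fin d) × Perm (Fin d)) := {q | ¬ GoodPair q.1 q.2} with hS
  have hS2 : (S.ncard : ℝ) ≤ ε * (d.factorial : ℝ) ^ 2 := by
    refine le_trans (le_of_eq ?_) h
    rw [← Set.ncard_coe_finset]
    congr 2
    ext q
    simp [hS]
  obtain ⟨hfin, hc⟩ := hom_count g n (by omega) hn (Perm (Fin d)) S
  have hle : Nat.card {φ : Pi1 g n →* Perm (Fin d) // ¬ Good φ} ≤
      Nat.card {φ : Pi1 g n →* Perm (Fin d) // (φ (loopA 0), φ (loopB 0)) ∈ S} := by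
    apply Nat.card_le_card_of_injective
      (fun φ => ⟨φ.1, fun hk => φ.2 (kill hg φ.1 hk)⟩)
    intro a b hab
    simp only [Subtype.mk.injEq] at hab
    exact Subtype.ext hab
  have hG : Nat.card (Perm (Fin d)) = d.factorial := by
    rw [Nat.card_eq_fintype_card, Fintype.card_perm, Fintype.card_fin]
  rw [hG] at hc
  have hc' : (Nat.card {φ : Pi1 g n →* Perm (Fin d) // (φ (loopA 0), φ (loopB 0)) ∈ S} : ℝ) *
      (d.factorial : ℝ) ^ 2 = S.ncard * Nat.card (Pi1 g n →* Perm (Fin d)) := by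
    exact_mod_cast hc
  have hpos : (0 : ℝ) < (d.factorial : ℝ) ^ 2 := by positivity
  have : (Nat.card {φ : Pi1 g n →* Perm (Fin d) // (φ (loopA 0), φ (loopB 0)) ∈ S} : ℝ) ≤
      ε * Nat.card (Pi1 g n →* Perm (Fin d)) := by
    rw [← mul_le_mul_iff_left₀ hpos, hc']
    calc (S.ncard : ℝ) * Nat.card (Pi1 g n →* Perm (Fin d)) ≤
        (ε * (d.factorial : ℝ) ^ 2) * Nat.card (Pi1 g n →* Perm (Fin d)) :=
          mul_le_mul_of_nonneg_right hS2 (Nat.cast_nonneg _)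
      _ = _ := by ring
  exact le_trans (by exact_mod_cast hle) this

end Pool.Agent.Helper52.RC
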