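import Pool.Agent.Helper52.RC.Form
import Pool.Agent.Helper52.RC.Defs2

/-!
# RC module NearF: products of near full cycles

`σ = ζ τ`, `ζ` near full with fixed point `o`, `σ` near full with fixed point `o'`.
* `o = o'`: then `τ o = o` and both are full on `univ.erase o`: at most `fx τ` values of `o`, each with
  `cnt (univ.erase o) τ = (d-2)! It τ`.
* `o ≠ o'`: Put `τ₁ = con τ o`, `σ₁ = con σ o`; as `ζ o = o`,
  `σ₁ = ζ τ₁` [`con σ o = swap o (ζ τ o) ζ τ = ζ swap (ζ⁻¹ o) (τ o) τ = ζ con τ o`], and `σ₁` is full on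
  `univ` without `o, o'` (`full_con_iff`), fixes `o'` and `o`. `ζ` is full on `A = univ.erase o` and
  `ζ q = o'` for `q = τ₁ o' ≠ o'`. Put `ζ₂ = con ζ o'` (full on `A.erase o'`), `τ₂ = con τ₁ o'`; then
  `ζ₂ τ₂ = σ₁` and `ζ = swap o' (ζ₂ q) ζ₂` is determined by `ζ₂`. So the number of `ζ` is at most
  `cnt (A.erase o') τ₂ = (d-3)! It τ₂` (`τ₂` fixes `o` and `o'`).
Here `fx` counts fixed points, `con` is the contraction of Rec.lean; `con τ z` fixes all fixed points of
`τ`, and `fx (con τ z) ≤ fx τ + 2`.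
-/

open Equiv

namespace Pool.Agent.Helper52.RC

/-- A third point. -/
theorem exists_third {d : ℕ} (hd : 3 ≤ d) (o x : Fin d) : ∃ y : Fin d, y ≠ o ∧ y ≠ x := by
  have h : ({o, x} : Finset (Fin d)).card < (Finset.univ : Finset (Fin d)).card := by
    rw [Finset.card_univ, Fintype.card_fin]
    exact lt_of_le_of_lt (Finset.card_insert_le _ _) (by
      rw [Finset.card_singleton]
      omega)
  obtain ⟨y, -, hy⟩ := Finset.exists_mem_notMem_of_card_lt_card h
  refine ⟨y, fun e => hy ?_, fun e => hy ?_⟩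
  · rw [e]
    exact Finset.mem_insert_self _ _
  · rw [e]
    exact Finset.mem_insert_of_mem (Finset.mem_singleton_self _)

/-- No fixed points. -/
theorem full_ne {d : ℕ} (hd : 3 ≤ d) {o : Fin d} {ζ : Perm (Fin d)}
    (h : Full (Finset.univ.erase o) ζ) {x : Fin d} (hx : x ≠ o) : ζ x ≠ x := by
  obtain ⟨y, hy1, hy2⟩ := exists_third hd o x
  exact full_apply_ne h (Finset.mem_erase.2 ⟨hx, Finset.mem_univ _⟩)
    (Finset.mem_erase.2 ⟨hy1, Finset.mem_univ _⟩) hy2.symm

theorem full_fix {d : ℕ} {o : Fin d} {ζ : Perm (Fin d)}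
    (h : Full (Finset.univ.erase o) ζ) : ζ o = o :=
  h.1 o (Finset.notMem_erase _ _)

open Classical in
/-- The number for given fixed points. -/
noncomputable def cnt2 {d : ℕ} (τ : Perm (Fin d)) (o o' : Fin d) : ℕ :=
  (Finset.univ.filter fun ζ : Perm (Fin d) =>
    Full (Finset.univ.erase o) ζ ∧ Full (Finset.univ.erase o') (ζ * τ)).card

theorem cntN_le_sum {d : ℕ} (τ : Perm (Fin d)) :
    cntN τ ≤ ∑ o : Fin d, ∑ o' : Fin d, cnt2 τ o o' := by
  classical
  unfold cntN cnt2
  have h : (Finset.univ.filter fun ζ : Perm (Fin d) => Near ζ ∧ Near (ζ * τ)) ⊆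
      Finset.univ.biUnion fun o : Fin d => Finset.univ.biUnion fun o' : Fin d =>
        (Finset.univ.filter fun ζ : Perm (Fin d) =>
          Full (Finset.univ.erase o) ζ ∧ Full (Finset.univ.erase o') (ζ * τ)) := by
    intro ζ hζ
    rw [Finset.mem_filter] at hζ
    obtain ⟨-, ⟨o, ho⟩, o', ho'⟩ := hζ
    rw [Finset.mem_biUnion]
    refine ⟨o, Finset.mem_univ _, ?_⟩
    rw [Finset.mem_biUnion]
    exact ⟨o', Finset.mem_univ _, Finset.mem_filter.2 ⟨Finset.mem_univ _, ho, ho'⟩⟩
  refine (Finset.card_le_card h).trans (Finset.card_biUnion_le.trans ?_)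
  exact Finset.sum_le_sum fun o _ => Finset.card_biUnion_le

theorem cnt2_diag {d : ℕ} (hd : 4 ≤ d) (τ : Perm (Fin d)) (o : Fin d) :
    (cnt2 τ o o : ℝ) = if τ o = o then (d - 2).factorial * It τ else 0 := by
  classical
  split_ifs with h
  · have h1 := cnt_eq (Finset.univ.erase o) (by
      rw [← Finset.card_pos, Finset.card_erase_of_mem (Finset.mem_univ _), Finset.card_univ,
        Fintype.card_fin]
      omega) τ (fun x hx => by
        have : x = o := by
          by_contra hne
          exact hx (Finset.mem_erase.2 ⟨hne, Finset.mem_univ _⟩)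
        rw [this, h])
    rw [Finset.card_erase_of_mem (Finset.mem_univ _), Finset.card_univ, Fintype.card_fin,
      Nat.sub_sub] at h1
    exact h1
  · have : cnt2 τ o o = 0 := by
      unfold cnt2
      rw [Finset.card_eq_zero, Finset.filter_eq_empty_iff]
      rintro ζ - ⟨h1, h2⟩
      have h3 := full_fix h1
      have h4 := full_fix h2
      rw [Perm.mul_apply] at h4
      exact h (ζ.injective (h4.trans h3.symm))
    rw [this, Nat.cast_zero]

theorem con_mul_fix {α : Type*} [Fintype α] [DecidableEq α] (ζ τ : Perm α) (o : α)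
    (h : ζ o = o) : con (ζ * τ) o = ζ * con τ o := by
  unfold con
  calc swap o ((ζ * τ) o) * (ζ * τ) = (swap (ζ o) (ζ (τ o)) * ζ) * τ := by
        rw [h, Perm.mul_apply, mul_assoc]
    _ = (ζ * swap o (τ o)) * τ := by rw [mul_swap_eq_swap_mul]
    _ = ζ * (swap o (τ o) * τ) := mul_assoc _ _ _

theorem con_mul_con {α : Type*} [Fintype α] [DecidableEq α] (ζ τ : Perm α) (o : α)
    (h : ζ (τ o) = o) : con ζ o * con τ o = ζ * τ := by
  unfold con
  have h1 : ζ * swap o (τ o) = swap (ζ o) o * ζ := by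
    rw [mul_swap_eq_swap_mul, h]
  calc swap o (ζ o) * ζ * (swap o (τ o) * τ) = swap o (ζ o) * (ζ * swap o (τ o)) * τ := by
        simp only [mul_assoc]
    _ = swap o (ζ o) * swap (ζ o) o * ζ * τ := by
        rw [h1]
        simp only [mul_assoc]
    _ = ζ * τ := by
        rw [swap_comm (ζ o) o, swap_mul_self, one_mul]

theorem cnt2_off {d : ℕ} (hd : 4 ≤ d) (τ : Perm (Fin d)) (o o' : Fin d) (ho : o' ≠ o) :
    (cnt2 τ o o' : ℝ) ≤ (d - 3).factorial * It (con (con τ o) o') := by
  classical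
  have hd3 : 3 ≤ d := by omega
  set τ₁ := con τ o with hτ₁
  set τ₂ := con τ₁ o' with hτ₂
  have f1 : τ₁ o = o := con_self _ _
  have f2 : τ₂ o' = o' := con_self _ _
  have f3 : τ₂ o = o := by
    rw [hτ₂, con_of_ne (by rw [f1]; exact ho.symm) ho.symm, f1]
  have hcard : ((Finset.univ.erase o).erase o').card = d - 2 := by
    rw [Finset.card_erase_of_mem (Finset.mem_erase.2 ⟨ho, Finset.mem_univ _⟩),
      Finset.card_erase_of_mem (Finset.mem_univ _), Finset.card_univ, Fintype.card_fin,
      Nat.sub_sub]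
  have h1 := cnt_eq ((Finset.univ.erase o).erase o') (by
      rw [← Finset.card_pos, hcard]
      omega) τ₂ (fun x hx => by
        by_cases hx1 : x = o
        · rw [hx1, f3]
        · by_cases hx2 : x = o'
          · rw [hx2, f2]
          · exact absurd (Finset.mem_erase.2 ⟨hx2, Finset.mem_erase.2 ⟨hx1, Finset.mem_univ _⟩⟩) hx)
  rw [hcard, Nat.sub_sub] at h1
  rw [← h1]
  have h2 : cnt2 τ o o' ≤ cnt ((Finset.univ.erase o).erase o') τ₂ := by
    unfold cnt2 cnt
    have key : ∀ ζ : Perm (Fin d), Full (Finset.univ.erase o) ζ →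
        Full (Finset.univ.erase o') (ζ * τ) → ζ (τ₁ o') = o' ∧
        Full ((Finset.univ.erase o).erase o') (con ζ o') ∧
        Full ((Finset.univ.erase o).erase o') (con ζ o' * τ₂) := by
      intro ζ hζ hσ
      have e1 : con (ζ * τ) o = ζ * τ₁ := con_mul_fix ζ τ o (full_fix hζ)
      have hu : (ζ * τ)⁻¹ o ≠ o := by
        intro h
        have h3 : (ζ * τ) o = o := by
          conv_lhs => rw [← h]
          exact Equiv.apply_symm_apply _ _
        exact full_ne hd3 hσ ho.symm h3
      have hu' : (ζ * τ)⁻¹ o ≠ o' := by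
        intro h
        have h3 := full_fix hσ
        rw [← h] at h3
        have h4 : (ζ * τ) ((ζ * τ)⁻¹ o) = o := Equiv.apply_symm_apply _ _
        rw [h4] at h3
        exact hu h3.symm
      have hσ1 : Full ((Finset.univ.erase o').erase o) (con (ζ * τ) o) :=
        (full_con_iff (Finset.mem_erase.2 ⟨ho.symm, Finset.mem_univ _⟩)
          (Finset.mem_erase.2 ⟨hu', Finset.mem_univ _⟩) hu
          (Equiv.apply_symm_apply _ _)).1 hσ
      rw [e1, Finset.erase_right_comm] at hσ1
      have hq : ζ (τ₁ o') = o' := by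
        have := hσ1.1 o' (Finset.notMem_erase _ _)
        rwa [Perm.mul_apply] at this
      have hq1 : τ₁ o' ≠ o' := by
        intro h
        rw [h] at hq
        exact full_ne hd3 hζ ho hq
      have hq2 : τ₁ o' ≠ o := by
        intro h
        exact ho (τ₁.injective (h.trans f1.symm))
      refine ⟨hq, (full_con_iff (Finset.mem_erase.2 ⟨ho, Finset.mem_univ _⟩)
          (Finset.mem_erase.2 ⟨hq2, Finset.mem_univ _⟩) hq1 hq).1 hζ, ?_⟩
      rw [hτ₂, con_mul_con ζ τ₁ o' hq]
      exact hσ1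
    refine Finset.card_le_card_of_injOn (fun ζ => con ζ o') ?_ ?_
    · intro ζ hζ
      have hζ' := (Finset.mem_filter.1 (Finset.mem_coe.1 hζ)).2
      exact Finset.mem_coe.2 (Finset.mem_filter.2 ⟨Finset.mem_univ _,
        (key ζ hζ'.1 hζ'.2).2⟩)
    · intro ζ hζ ξ hξ h
      have hζ' := (Finset.mem_filter.1 (Finset.mem_coe.1 hζ)).2
      have hξ' := (Finset.mem_filter.1 (Finset.mem_coe.1 hξ)).2
      have k1 := (key ζ hζ'.1 hζ'.2).1
      have k2 := (key ξ hξ'.1 hξ'.2).1
      have hq1 : τ₁ o' ≠ o' := by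
        intro h
        rw [h] at k1
        exact full_ne hd3 hζ'.1 ho k1
      have r1 : con ζ o' (τ₁ o') = ζ o' := con_of_eq k1 hq1
      have r2 : con ξ o' (τ₁ o') = ξ o' := con_of_eq k2 hq1
      have h' : con ζ o' = con ξ o' := h
      have r3 : ζ o' = ξ o' := by rw [← r1, ← r2, h']
      unfold con at h'
      rw [r3] at h'
      exact mul_left_cancel h'
  exact_mod_cast h2

theorem cntN_le {d : ℕ} (hd : 4 ≤ d) (τ : Perm (Fin d)) :
    (cntN τ : ℝ) ≤ (d - 2).factorial * fx τ * It τ +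
      (d - 3).factorial * ∑ o : Fin d, ∑ o' ∈ Finset.univ.erase o, It (con (con τ o) o') := by
  classical
  have h1 : (cntN τ : ℝ) ≤ ∑ o : Fin d, ∑ o' : Fin d, (cnt2 τ o o' : ℝ) := by
    exact_mod_cast cntN_le_sum τ
  refine h1.trans ?_
  have h2 : ∀ o : Fin d, ∑ o' : Fin d, (cnt2 τ o o' : ℝ) =
      (if τ o = o then (d - 2).factorial * It τ else 0) +
        ∑ o' ∈ Finset.univ.erase o, (cnt2 τ o o' : ℝ) := by
    intro o
    rw [← cnt2_diag hd τ o, Finset.add_sum_erase _ (fun o' => (cnt2 τ o o' : ℝ))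
      (Finset.mem_univ o)]
  rw [Finset.sum_congr rfl fun o _ => h2 o, Finset.sum_add_distrib]
  refine add_le_add (le_of_eq ?_) ?_
  · rw [← Finset.sum_filter, Finset.sum_const, nsmul_eq_mul]
    unfold fx
    ring
  · rw [Finset.mul_sum]
    refine Finset.sum_le_sum fun o _ => ?_
    rw [Finset.mul_sum]
    exact Finset.sum_le_sum fun o' ho' => cnt2_off hd τ o o' (Finset.ne_of_mem_erase ho')

theorem fx_con {d : ℕ} (τ : Perm (Fin d)) (z : Fin d) : fx (con τ z) ≤ fx τ + 2 := by
  classical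
  unfold fx
  have h : (Finset.univ.filter fun x => con τ z x = x) ⊆
      (Finset.univ.filter fun x => τ x = x) ∪ {z, τ⁻¹ z} := by
    intro x hx
    rw [Finset.mem_filter] at hx
    rw [Finset.mem_union, Finset.mem_filter, Finset.mem_insert, Finset.mem_singleton]
    by_cases h1 : x = z
    · exact Or.inr (Or.inl h1)
    · by_cases h2 : τ x = z
      · refine Or.inr (Or.inr ?_)
        rw [← h2]
        exact (Equiv.symm_apply_apply _ _).symm
      · rw [con_of_ne h2 h1] at hx
        exact Or.inl hx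
  refine (Finset.card_le_card h).trans ((Finset.card_union_le _ _).trans ?_)
  exact Nat.add_le_add_left Finset.card_le_two _

/-- the number of near full cycles -/
theorem cntN_one {d : ℕ} (hd : 3 ≤ d) : cntN (1 : Perm (Fin d)) = d * (d - 2).factorial := by
  classical
  unfold cntN
  have h : (Finset.univ.filter fun ζ : Perm (Fin d) => Near ζ ∧ Near (ζ * 1)) =
      Finset.univ.biUnion fun o : Fin d =>
        (Finset.univ.filter fun ζ : Perm (Fin d) =>
          Full (Finset.univ.erase o) ζ ∧ Full (Finset.univ.erase o) (ζ * 1)) := by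
    ext ζ
    rw [Finset.mem_filter, Finset.mem_biUnion]
    constructor
    · rintro ⟨-, ⟨o, ho⟩, -⟩
      exact ⟨o, Finset.mem_univ _, Finset.mem_filter.2 ⟨Finset.mem_univ _, ho, by
        rwa [mul_one]⟩⟩
    · rintro ⟨o, -, ho⟩
      obtain ⟨-, h1, h2⟩ := Finset.mem_filter.1 ho
      exact ⟨Finset.mem_univ _, ⟨o, h1⟩, ⟨o, h2⟩⟩
  rw [h, Finset.card_biUnion]
  · have h1 : ∀ o ∈ (Finset.univ : Finset (Fin d)),
        (Finset.univ.filter fun ζ : Perm (Fin d) =>
          Full (Finset.univ.erase o) ζ ∧ Full (Finset.univ.erase o) (ζ * 1)).card =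
          (d - 2).factorial := by
      intro o _
      have h2 := cnt_one (Finset.univ.erase o) (by
        rw [← Finset.card_pos, Finset.card_erase_of_mem (Finset.mem_univ _), Finset.card_univ,
          Fintype.card_fin]
        omega)
      rw [Finset.card_erase_of_mem (Finset.mem_univ _), Finset.card_univ, Fintype.card_fin,
        Nat.sub_sub] at h2
      rw [← h2]
      rfl
    rw [Finset.sum_congr rfl h1, Finset.sum_const, Finset.card_univ, Fintype.card_fin,
      smul_eq_mul]
  · intro o _ o' _ hne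
    rw [Function.onFun, Finset.disjoint_left]
    intro ζ hζ hζ'
    have h1 := (Finset.mem_filter.1 hζ).2.1
    have h2 := (Finset.mem_filter.1 hζ').2.1
    exact full_ne hd h2 hne (full_fix h1)

theorem cntN_le_one {d : ℕ} (τ : Perm (Fin d)) : cntN τ ≤ cntN (1 : Perm (Fin d)) := by
  classical
  unfold cntN
  refine Finset.card_le_card fun ζ hζ => ?_
  obtain ⟨-, h1, -⟩ := Finset.mem_filter.1 hζ
  exact Finset.mem_filter.2 ⟨Finset.mem_univ _, h1, by rwa [mul_one]⟩

theorem cntN_inv {d : ℕ} (τ : Perm (Fin d)) : cntN τ⁻¹ = cntN τ := by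
  classical
  unfold cntN
  refine Finset.card_bij' (fun ζ _ => ζ * τ⁻¹) (fun ζ _ => ζ * τ) ?_ ?_ ?_ ?_
  · intro ζ hζ
    obtain ⟨-, h1, h2⟩ := Finset.mem_filter.1 hζ
    exact Finset.mem_filter.2 ⟨Finset.mem_univ _, h2, by rwa [inv_mul_cancel_right]⟩
  · intro ζ hζ
    obtain ⟨-, h1, h2⟩ := Finset.mem_filter.1 hζ
    exact Finset.mem_filter.2 ⟨Finset.mem_univ _, h2, by rwa [mul_inv_cancel_right]⟩
  · intro ζ _
    exact inv_mul_cancel_right _ _
  · intro ζ _
    exact mul_inv_cancel_right _ _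

end Pool.Agent.Helper52.RC
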