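import Pool.Agent.Helper52.RC.NearF
import Pool.Agent.Helper52.RC.Had

/-!
# RC module NearG: the bound for `cntN`

`s = d - fx τ = τ.support.card`. By `cntN_le`, `cntN τ / (d (d-2)!) ≤ (fx τ / d) It τ + max It τ₂ * d (d-1) (d-3)! /
(d (d-2)!)`, the last factor is `1 + 1/(d-2)`, and `It_le` (module Had) for `τ` and for `τ₂ = con (con τ o) o'`, which has
at least `s - 4` moved points (`fx_con`); the bound of `It_le` is decreasing in the number of moved points.
-/

open Equiv

namespace Pool.Agent.Helper52.RC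

theorem fx_support {d : ℕ} (τ : Perm (Fin d)) : fx τ + τ.support.card = d := by
  have h : τ.support = Finset.univ.filter (fun x => ¬ τ x = x) := by
    ext x
    simp
  rw [h, fx, Finset.card_filter_add_card_filter_not, Finset.card_univ, Fintype.card_fin]

private theorem it_mono {d : ℕ} (τ : Perm (Fin d)) (δ : ℝ) (h0 : 0 < δ) (h1 : δ ≤ 1 / 2) (m : ℝ)
    (hm : 0 < m) (hτ : m ≤ (d : ℝ) - fx τ) :
    It τ ≤ 2 / ((1 - δ) * m) + Real.exp (-(δ * m / 2)) := by
  have hs : ((τ.support.card : ℕ) : ℝ) = (d : ℝ) - fx τ := by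
    have := fx_support τ
    have h2 : ((fx τ + τ.support.card : ℕ) : ℝ) = (d : ℝ) := by exact_mod_cast this
    push_cast at h2
    linarith
  have hpos : 0 < τ.support.card := by
    have : (0 : ℝ) < (τ.support.card : ℝ) := by rw [hs]; linarith
    exact_mod_cast this
  refine (It_le τ hpos δ h0 h1).trans ?_
  rw [hs]
  have hd : 0 < 1 - δ := by linarith
  refine add_le_add ?_ ?_
  · exact div_le_div_of_nonneg_left (by norm_num) (by positivity)
      (mul_le_mul_of_nonneg_left hτ hd.le)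
  · refine Real.exp_le_exp.2 ?_
    have := mul_le_mul_of_nonneg_left hτ h0.le
    linarith

theorem nearG {d : ℕ} (hd : 4 ≤ d) (τ : Perm (Fin d)) (δ : ℝ) (h0 : 0 < δ) (h1 : δ ≤ 1 / 2)
    (hs : fx τ + 4 < d) :
    (cntN τ : ℝ) / (d * (d - 2).factorial) ≤
      (1 + fx τ / d + 1 / (d - 2)) * (2 / ((1 - δ) * ((d : ℝ) - fx τ - 4)) +
        Real.exp (-(δ * ((d : ℝ) - fx τ - 4) / 2))) := by
  have hs' : (fx τ : ℝ) + 4 < d := by exact_mod_cast hs
  have hd' : (4 : ℝ) ≤ d := by exact_mod_cast hd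
  set m : ℝ := (d : ℝ) - fx τ - 4 with hm
  have hm0 : 0 < m := by rw [hm]; linarith
  set B : ℝ := 2 / ((1 - δ) * m) + Real.exp (-(δ * m / 2)) with hB
  have hd1 : 0 < 1 - δ := by linarith
  have hB0 : 0 ≤ B := by positivity
  have b1 : It τ ≤ B := it_mono τ δ h0 h1 m hm0 (by rw [hm]; linarith)
  have b2 : ∀ o o' : Fin d, It (con (con τ o) o') ≤ B := by
    intro o o'
    refine it_mono _ δ h0 h1 m hm0 ?_
    have e1 := fx_con (con τ o) o'
    have e2 := fx_con τ o
    have e3 : (fx (con (con τ o) o') : ℝ) ≤ fx τ + 4 := by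
      have : fx (con (con τ o) o') ≤ fx τ + 4 := by omega
      exact_mod_cast this
    rw [hm]
    linarith
  have b3 : ∑ o : Fin d, ∑ o' ∈ Finset.univ.erase o, It (con (con τ o) o') ≤
      (d : ℝ) * ((d : ℝ) - 1) * B := by
    calc ∑ o : Fin d, ∑ o' ∈ Finset.univ.erase o, It (con (con τ o) o')
        ≤ ∑ o : Fin d, ∑ o' ∈ Finset.univ.erase o, B :=
          Finset.sum_le_sum fun o _ => Finset.sum_le_sum fun o' _ => b2 o o'
      _ = (d : ℝ) * ((d : ℝ) - 1) * B := by
          have hc : ∀ o : Fin d, (Finset.univ.erase o).card = d - 1 := fun o => by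
            rw [Finset.card_erase_of_mem (Finset.mem_univ o), Finset.card_univ, Fintype.card_fin]
          simp only [Finset.sum_const, hc, nsmul_eq_mul, Finset.card_univ, Fintype.card_fin]
          rw [Nat.cast_sub (by omega : 1 ≤ d)]
          push_cast
          ring
  have hf : ((d - 2).factorial : ℝ) = ((d : ℝ) - 2) * ((d - 3).factorial : ℝ) := by
    have e : d - 2 = (d - 3) + 1 := by omega
    rw [e, Nat.factorial_succ]
    push_cast
    rw [Nat.cast_sub (by omega : 3 ≤ d)]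
    push_cast
    ring
  have hf3 : (0 : ℝ) < ((d - 3).factorial : ℝ) := by exact_mod_cast Nat.factorial_pos _
  have hf2 : (0 : ℝ) < ((d - 2).factorial : ℝ) := by exact_mod_cast Nat.factorial_pos _
  have hfx : (0 : ℝ) ≤ (fx τ : ℝ) := Nat.cast_nonneg _
  have key := cntN_le hd τ
  have k1 : ((d - 2).factorial : ℝ) * fx τ * It τ ≤ ((d - 2).factorial : ℝ) * fx τ * B :=
    mul_le_mul_of_nonneg_left b1 (by positivity)
  have k2 : ((d - 3).factorial : ℝ) * ∑ o : Fin d, ∑ o' ∈ Finset.univ.erase o,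
      It (con (con τ o) o') ≤ ((d - 3).factorial : ℝ) * ((d : ℝ) * ((d : ℝ) - 1) * B) :=
    mul_le_mul_of_nonneg_left b3 hf3.le
  have hd0 : (0 : ℝ) < d := by linarith
  have hd2 : (0 : ℝ) < (d : ℝ) - 2 := by linarith
  rw [div_le_iff₀ (by positivity)]
  have e : (1 + fx τ / d + 1 / ((d : ℝ) - 2)) * B * ((d : ℝ) * ((d - 2).factorial : ℝ)) =
      ((d - 2).factorial : ℝ) * fx τ * B + ((d - 3).factorial : ℝ) *
        ((d : ℝ) * ((d : ℝ) - 1) * B) := by
    rw [hf]
    field_simp
    ring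
  rw [e]
  linarith

end Pool.Agent.Helper52.RC
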