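import Pool.Agent.Helper52.RC.Cheb
import Pool.Agent.Helper52.RC.Avg

/-!
# RC module Pair: almost all pairs of permutations of odd degree

Bad pair: no `α β^k` and no `β α^k` is a full cycle. Parities: if `β` is even and `α` even, or `α` even and
`β` odd, or both odd (then `α β` is even), `cheb` applies to `α` resp. `α β`; if `α` is odd and `β` even
exchange the roles.
-/

open Equiv

namespace Pool.Agent.Helper52.RC

theorem It_mem {d : ℕ} (hd : 0 < d) (τ : Perm (Fin d)) : 0 ≤ It τ ∧ It τ ≤ 1 := by
  classical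
  have : Nonempty (Fin d) := ⟨⟨0, hd⟩⟩
  have h1 := cnt_eq (Finset.univ : Finset (Fin d)) Finset.univ_nonempty τ (by simp)
  have h2 := cnt_one (Finset.univ : Finset (Fin d)) Finset.univ_nonempty
  have h3 : cnt (Finset.univ : Finset (Fin d)) τ ≤ cnt (Finset.univ : Finset (Fin d)) 1 := by
    unfold cnt
    apply Finset.card_le_card
    intro ζ hζ
    simp only [Finset.mem_filter, Finset.mem_univ, true_and, mul_one] at hζ ⊢
    exact ⟨hζ.1, hζ.1⟩
  rw [h2] at h3
  have h4 : (0 : ℝ) < ((Finset.univ : Finset (Fin d)).card - 1).factorial := by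
    exact_mod_cast Nat.factorial_pos _
  have h5 : (cnt (Finset.univ : Finset (Fin d)) τ : ℝ) ≤
      ((Finset.univ : Finset (Fin d)).card - 1).factorial := by exact_mod_cast h3
  constructor
  · by_contra h
    push Not at h
    have : (cnt (Finset.univ : Finset (Fin d)) τ : ℝ) < 0 := by
      rw [h1]; exact mul_neg_of_pos_of_neg h4 h
    exact absurd this (not_lt.2 (Nat.cast_nonneg _))
  · rw [h1] at h5
    exact (mul_le_iff_le_one_right h4).1 h5

open Classical in
theorem pairs (ε : ℝ) (hε : 0 < ε) : ∃ d₀ : ℕ, ∀ d ≥ d₀, Odd d →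
    ((Finset.univ.filter fun q : Perm (Fin d) × Perm (Fin d) =>
      ¬ ∃ k : ℕ, Full Finset.univ (q.1 * q.2 ^ k) ∨ Full Finset.univ (q.2 * q.1 ^ k)).card : ℝ) ≤
    ε * (d.factorial : ℝ) ^ 2 := by
  obtain ⟨K, hK, d₀, h⟩ := avg (2 * ε / 3) (by positivity)
  refine ⟨max d₀ 3, fun d hd hodd => ?_⟩
  have hd3 : 3 ≤ d := le_trans (le_max_right _ _) hd
  have h := h d (le_trans (le_max_left _ _) hd) (fun τ => It_mem (by omega) τ)
  set M := K * d with hM
  have hM0 : 0 < M := by positivity
  set S : Finset (Perm (Fin d) × Perm (Fin d)) := Finset.univ.filter fun q =>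
    Perm.sign q.1 = 1 ∧ ∀ i < M, ¬ Full Finset.univ (q.1 * q.2 ^ (2 * i)) with hS
  -- the size of `S`
  have hcard : (S.card : ℝ) ≤ ε / 3 * (d.factorial : ℝ) ^ 2 := by
    have e1 : (S.card : ℝ) = ∑ β : Perm (Fin d), ((Finset.univ.filter fun α : Perm (Fin d) =>
        Perm.sign α = 1 ∧ ∀ i < M, ¬ Full Finset.univ (α * β ^ (2 * i))).card : ℝ) := by
      rw [hS, Finset.card_filter, Fintype.sum_prod_type_right]
      push_cast
      apply Finset.sum_congr rfl
      intro β _
      rw [Finset.card_filter]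
      push_cast
      rfl
    rw [e1]
    calc _ ≤ ∑ β : Perm (Fin d), (d.factorial / 2 : ℝ) * (d / (2 * M ^ 2) *
          (∑ i ∈ Finset.range M, ∑ j ∈ Finset.range M, It (β ^ (2 * j) * (β ^ (2 * i))⁻¹)) - 1) :=
        Finset.sum_le_sum fun β _ => cheb hodd hd3 β M hM0
      _ = (d.factorial / 2 : ℝ) * ((d : ℝ) / (2 * (M : ℕ) ^ 2) * ∑ β : Perm (Fin d),
          ∑ i ∈ Finset.range M, ∑ j ∈ Finset.range M, It (β ^ (2 * j) * (β ^ (2 * i))⁻¹)
          - d.factorial) := by
        rw [← Finset.mul_sum, Finset.sum_sub_distrib, ← Finset.mul_sum, Finset.sum_const,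
          Finset.card_univ, Fintype.card_perm, Fintype.card_fin]
        simp
      _ ≤ (d.factorial / 2 : ℝ) * ((1 + 2 * ε / 3) * d.factorial - d.factorial) := by
        apply mul_le_mul_of_nonneg_left _ (by positivity)
        linarith
      _ = ε / 3 * (d.factorial : ℝ) ^ 2 := by ring
  -- the bad pairs
  let e3 : Perm (Fin d) × Perm (Fin d) ≃ Perm (Fin d) × Perm (Fin d) :=
    { toFun := fun q => (q.1 * q.2⁻¹, q.2)
      invFun := fun q => (q.1 * q.2, q.2)
      left_inv := fun q => by simp
      right_inv := fun q => by simp }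
  have hsub : (Finset.univ.filter fun q : Perm (Fin d) × Perm (Fin d) =>
      ¬ ∃ k : ℕ, Full Finset.univ (q.1 * q.2 ^ k) ∨ Full Finset.univ (q.2 * q.1 ^ k)) ⊆
      S ∪ (S.map (Equiv.prodComm _ _).toEmbedding ∪ S.map e3.toEmbedding) := by
    rintro ⟨α, β⟩ hq
    simp only [Finset.mem_filter, Finset.mem_univ, true_and, not_exists, not_or] at hq
    simp only [Finset.mem_union, Finset.mem_map_equiv]
    rcases Int.units_eq_one_or (Perm.sign α) with hα | hα
    · left
      simp only [hS, Finset.mem_filter, Finset.mem_univ, true_and]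
      exact ⟨hα, fun i _ => (hq _).1⟩
    · right
      rcases Int.units_eq_one_or (Perm.sign β) with hβ | hβ
      · left
        simp only [hS, Finset.mem_filter, Finset.mem_univ, true_and, Equiv.prodComm_symm,
          Equiv.prodComm_apply, Prod.swap_prod_mk]
        exact ⟨hβ, fun i _ => (hq _).2⟩
      · right
        have : e3.symm (α, β) = (α * β, β) := rfl
        rw [this]
        simp only [hS, Finset.mem_filter, Finset.mem_univ, true_and]
        refine ⟨by rw [Perm.sign_mul, hα, hβ]; rfl, fun i _ => ?_⟩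
        have := (hq (2 * i + 1)).1
        rwa [pow_succ', ← mul_assoc] at this
  calc _ ≤ ((S ∪ (S.map (Equiv.prodComm _ _).toEmbedding ∪ S.map e3.toEmbedding)).card : ℝ) := by
        exact_mod_cast Finset.card_le_card hsub
    _ ≤ (S.card + (S.card + S.card) : ℝ) := by
        have a := Finset.card_union_le S
          (S.map (Equiv.prodComm _ _).toEmbedding ∪ S.map e3.toEmbedding)
        have b := Finset.card_union_le (S.map (Equiv.prodComm (Perm (Fin d)) _).toEmbedding)
          (S.map e3.toEmbedding)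
        rw [Finset.card_map, Finset.card_map] at b
        exact_mod_cast a.trans (by omega)
    _ ≤ ε * (d.factorial : ℝ) ^ 2 := by linarith

end Pool.Agent.Helper52.RC
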