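import Pool.Agent.Helper52.RC.Pair
import Pool.Agent.Helper52.RC.AvgG
import Pool.Agent.Helper52.RC.NearG
import Pool.Agent.Helper52.RC.ChebN

/-!
# RC module PairN: almost all pairs of permutations of large degree are good pairs
-/

open Equiv

namespace Pool.Agent.Helper52.RC

open Classical in
/-- Few pairs have a common fixed point. -/
theorem common_fix {d : ℕ} (hd : 0 < d) :
    ((Finset.univ.filter fun q : Perm (Fin d) × Perm (Fin d) =>
      ∃ o, q.1 o = o ∧ q.2 o = o).card : ℝ) ≤ (d.factorial : ℝ) ^ 2 / d := by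
  have h1 : ∀ o : Fin d, (Finset.univ.filter fun β : Perm (Fin d) => β o = o).card ≤
      (d - 1).factorial := by
    intro o
    refine le_trans (Finset.card_le_card ?_) (card_period o 1)
    intro β hβ
    simp only [Finset.mem_filter, Finset.mem_univ, true_and] at hβ ⊢
    exact Function.minimalPeriod_eq_one_iff_isFixedPt.2 hβ
  have h2 : (Finset.univ.filter fun q : Perm (Fin d) × Perm (Fin d) =>
      ∃ o, q.1 o = o ∧ q.2 o = o) ⊆ Finset.univ.biUnion fun o : Fin d =>
      (Finset.univ.filter fun β : Perm (Fin d) => β o = o) ×ˢ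
      (Finset.univ.filter fun β : Perm (Fin d) => β o = o) := by
    intro q hq
    simp only [Finset.mem_filter, Finset.mem_univ, true_and] at hq
    obtain ⟨o, h3, h4⟩ := hq
    simp only [Finset.mem_biUnion, Finset.mem_univ, true_and, Finset.mem_product,
      Finset.mem_filter]
    exact ⟨o, h3, h4⟩
  have h3 := (Finset.card_le_card h2).trans Finset.card_biUnion_le
  have h4 : ∑ o : Fin d, ((Finset.univ.filter fun β : Perm (Fin d) => β o = o) ×ˢ
      (Finset.univ.filter fun β : Perm (Fin d) => β o = o)).card ≤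
      d * ((d - 1).factorial * (d - 1).factorial) := by
    calc _ ≤ ∑ _o : Fin d, (d - 1).factorial * (d - 1).factorial := by
          apply Finset.sum_le_sum
          intro o _
          rw [Finset.card_product]
          exact Nat.mul_le_mul (h1 o) (h1 o)
      _ = _ := by simp
  have h5 := h3.trans h4
  have h6 : (d : ℝ) * ((d - 1).factorial : ℝ) = d.factorial := by
    exact_mod_cast Nat.mul_factorial_pred (by omega)
  have hd' : (0 : ℝ) < d := by exact_mod_cast hd
  rw [le_div_iff₀ hd', ← h6]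
  have h7 : ((Finset.univ.filter fun q : Perm (Fin d) × Perm (Fin d) =>
      ∃ o, q.1 o = o ∧ q.2 o = o).card : ℝ) ≤
      d * (((d - 1).factorial : ℝ) * ((d - 1).factorial : ℝ)) := by exact_mod_cast h5
  calc _ ≤ (d * (((d - 1).factorial : ℝ) * ((d - 1).factorial : ℝ))) * d :=
        mul_le_mul_of_nonneg_right h7 hd'.le
    _ = _ := by ring

theorem cntN_norm {d : ℕ} (hd : 3 ≤ d) (τ : Perm (Fin d)) :
    0 ≤ (cntN τ : ℝ) / (d * (d - 2).factorial) ∧ (cntN τ : ℝ) / (d * (d - 2).factorial) ≤ 1 := by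
  have h1 := cntN_le_one τ
  rw [cntN_one hd] at h1
  have h2 : (cntN τ : ℝ) ≤ d * (d - 2).factorial := by exact_mod_cast h1
  have h3 : (0 : ℝ) < d * (d - 2).factorial := by
    have : 0 < (d - 2).factorial := Nat.factorial_pos _
    positivity
  exact ⟨by positivity, (div_le_one h3).2 h2⟩

open Classical in
theorem pairs_even (ε : ℝ) (hε : 0 < ε) : ∃ d₀ : ℕ, ∀ d ≥ d₀, Even d →
    ((Finset.univ.filter fun q : Perm (Fin d) × Perm (Fin d) => ¬ GoodPair q.1 q.2).card : ℝ) ≤
    ε * (d.factorial : ℝ) ^ 2 := by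
  obtain ⟨K₁, hK₁, d₁, A1⟩ := avg (ε / 3) (by positivity)
  obtain ⟨K₂, hK₂, d₂, A2⟩ := avg_gen (ε / 3) (by positivity)
  refine ⟨max (max d₁ d₂) (max 4 ⌈2 / ε⌉₊), fun d hd hev => ?_⟩
  have hd1 : d₁ ≤ d := le_trans (le_trans (le_max_left _ _) (le_max_left _ _)) hd
  have hd2 : d₂ ≤ d := le_trans (le_trans (le_max_right _ _) (le_max_left _ _)) hd
  have hd4 : 4 ≤ d := le_trans (le_trans (le_max_left _ _) (le_max_right _ _)) hd
  have hdε : 2 / ε ≤ d := le_trans (Nat.le_ceil _)
    (by exact_mod_cast le_trans (le_trans (le_max_right _ _) (le_max_right _ _)) hd)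
  have hdpos : (0 : ℝ) < d := by
    have : 0 < d := by omega
    exact_mod_cast this
  have A1 := A1 d hd1 (fun τ => It_mem (by omega) τ)
  have A2 := A2 d hd2 (fun τ => (cntN τ : ℝ) / (d * (d - 2).factorial))
    (fun τ => cntN_norm (by omega) τ) (fun τ => by simp only [cntN_inv])
    (fun τ δ h0 h1 hs => nearG hd4 τ δ h0 h1 hs)
  set M₁ := K₁ * d with hM₁
  set M₂ := K₂ * d with hM₂
  have hM₁0 : 0 < M₁ := by positivity
  have hM₂0 : 0 < M₂ := by positivity
  set S₁ : Finset (Perm (Fin d) × Perm (Fin d)) := Finset.univ.filter fun q =>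
    Perm.sign q.1 = -1 ∧ ∀ i < M₁, ¬ Full Finset.univ (q.1 * q.2 ^ (2 * i)) with hS₁
  set S₂ : Finset (Perm (Fin d) × Perm (Fin d)) := Finset.univ.filter fun q =>
    Perm.sign q.1 = 1 ∧ ∀ i < M₂, ¬ Near (q.1 * q.2 ^ (2 * i)) with hS₂
  set S₃ : Finset (Perm (Fin d) × Perm (Fin d)) := Finset.univ.filter fun q =>
    ∃ o, q.1 o = o ∧ q.2 o = o with hS₃
  have c1 : (S₁.card : ℝ) ≤ ε / 6 * (d.factorial : ℝ) ^ 2 := by
    have e : (S₁.card : ℝ) = ∑ β : Perm (Fin d), ((Finset.univ.filter fun α : Perm (Fin d) =>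
        Perm.sign α = -1 ∧ ∀ i < M₁, ¬ Full Finset.univ (α * β ^ (2 * i))).card : ℝ) := by
      rw [hS₁, Finset.card_filter, Fintype.sum_prod_type_right]
      push_cast
      apply Finset.sum_congr rfl
      intro β _
      rw [Finset.card_filter]
      push_cast
      rfl
    rw [e]
    calc _ ≤ ∑ β : Perm (Fin d), (d.factorial / 2 : ℝ) * (d / (2 * M₁ ^ 2) *
          (∑ i ∈ Finset.range M₁, ∑ j ∈ Finset.range M₁, It (β ^ (2 * j) * (β ^ (2 * i))⁻¹)) - 1) :=
        Finset.sum_le_sum fun β _ => cheb_even hev hd4 β M₁ hM₁0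
      _ = (d.factorial / 2 : ℝ) * ((d : ℝ) / (2 * (M₁ : ℕ) ^ 2) * ∑ β : Perm (Fin d),
          ∑ i ∈ Finset.range M₁, ∑ j ∈ Finset.range M₁, It (β ^ (2 * j) * (β ^ (2 * i))⁻¹)
          - d.factorial) := by
        rw [← Finset.mul_sum, Finset.sum_sub_distrib, ← Finset.mul_sum, Finset.sum_const,
          Finset.card_univ, Fintype.card_perm, Fintype.card_fin]
        simp
      _ ≤ (d.factorial / 2 : ℝ) * ((1 + ε / 3) * d.factorial - d.factorial) := by
        apply mul_le_mul_of_nonneg_left _ (by positivity)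
        linarith
      _ = ε / 6 * (d.factorial : ℝ) ^ 2 := by ring
  have c2 : (S₂.card : ℝ) ≤ ε / 6 * (d.factorial : ℝ) ^ 2 := by
    have e : (S₂.card : ℝ) = ∑ β : Perm (Fin d), ((Finset.univ.filter fun α : Perm (Fin d) =>
        Perm.sign α = 1 ∧ ∀ i < M₂, ¬ Near (α * β ^ (2 * i))).card : ℝ) := by
      rw [hS₂, Finset.card_filter, Fintype.sum_prod_type_right]
      push_cast
      apply Finset.sum_congr rfl
      intro β _
      rw [Finset.card_filter]
      push_cast
      rfl
    rw [e]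
    calc _ ≤ ∑ β : Perm (Fin d), (d.factorial / 2 : ℝ) * (((d : ℝ) - 1) / (2 * M₂ ^ 2) *
          (∑ i ∈ Finset.range M₂, ∑ j ∈ Finset.range M₂,
            (cntN (β ^ (2 * j) * (β ^ (2 * i))⁻¹) : ℝ) / (d * (d - 2).factorial)) - 1) :=
        Finset.sum_le_sum fun β _ => chebN hev hd4 β M₂ hM₂0
      _ ≤ ∑ β : Perm (Fin d), (d.factorial / 2 : ℝ) * ((d : ℝ) / (2 * M₂ ^ 2) *
          (∑ i ∈ Finset.range M₂, ∑ j ∈ Finset.range M₂,
            (cntN (β ^ (2 * j) * (β ^ (2 * i))⁻¹) : ℝ) / (d * (d - 2).factorial)) - 1) := by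
        apply Finset.sum_le_sum
        intro β _
        apply mul_le_mul_of_nonneg_left _ (by positivity)
        apply sub_le_sub_right
        apply mul_le_mul_of_nonneg_right _
          (Finset.sum_nonneg fun i _ => Finset.sum_nonneg fun j _ => (cntN_norm (by omega) _).1)
        apply div_le_div_of_nonneg_right (by linarith)
        positivity
      _ = (d.factorial / 2 : ℝ) * ((d : ℝ) / (2 * (M₂ : ℕ) ^ 2) * ∑ β : Perm (Fin d),
          ∑ i ∈ Finset.range M₂, ∑ j ∈ Finset.range M₂,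
            (cntN (β ^ (2 * j) * (β ^ (2 * i))⁻¹) : ℝ) / (d * (d - 2).factorial)
          - d.factorial) := by
        rw [← Finset.mul_sum, Finset.sum_sub_distrib, ← Finset.mul_sum, Finset.sum_const,
          Finset.card_univ, Fintype.card_perm, Fintype.card_fin]
        simp
      _ ≤ (d.factorial / 2 : ℝ) * ((1 + ε / 3) * d.factorial - d.factorial) := by
        apply mul_le_mul_of_nonneg_left _ (by positivity)
        linarith
      _ = ε / 6 * (d.factorial : ℝ) ^ 2 := by ring
  have c3 : (S₃.card : ℝ) ≤ ε / 2 * (d.factorial : ℝ) ^ 2 := by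
    refine (common_fix (by omega)).trans ?_
    rw [div_le_iff₀ hdpos]
    have : 1 ≤ ε / 2 * d := by
      rw [div_le_iff₀ hε] at hdε
      linarith
    nlinarith [sq_nonneg (d.factorial : ℝ)]
  have hsub : (Finset.univ.filter fun q : Perm (Fin d) × Perm (Fin d) => ¬ GoodPair q.1 q.2) ⊆
      (S₁ ∪ S₁.map (Equiv.prodComm _ _).toEmbedding) ∪ (S₂ ∪ S₃) := by
    rintro ⟨α, β⟩ hq
    simp only [Finset.mem_filter, Finset.mem_univ, true_and, GoodPair, not_or, not_exists,
      not_and] at hq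
    obtain ⟨hq1, hq2⟩ := hq
    simp only [Finset.mem_union, Finset.mem_map_equiv]
    rcases Int.units_eq_one_or (Perm.sign α) with hα | hα
    · rcases Int.units_eq_one_or (Perm.sign β) with hβ | hβ
      · right
        by_cases h3 : ∃ o, α o = o ∧ β o = o
        · right
          simp only [hS₃, Finset.mem_filter, Finset.mem_univ, true_and]
          exact h3
        · left
          simp only [hS₂, Finset.mem_filter, Finset.mem_univ, true_and]
          refine ⟨hα, fun i _ hi => ?_⟩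
          push Not at h3
          exact (hq2 (fun o ho => h3 o ho) (2 * i)).1 hi
      · left; right
        simp only [hS₁, Finset.mem_filter, Finset.mem_univ, true_and, Equiv.prodComm_symm,
          Equiv.prodComm_apply, Prod.swap_prod_mk]
        exact ⟨hβ, fun i _ => (hq1 _).2⟩
    · left; left
      simp only [hS₁, Finset.mem_filter, Finset.mem_univ, true_and]
      exact ⟨hα, fun i _ => (hq1 _).1⟩
  have hc := Finset.card_le_card hsub
  have h1 := Finset.card_union_le (S₁ ∪ S₁.map (Equiv.prodComm (Perm (Fin d)) _).toEmbedding)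
    (S₂ ∪ S₃)
  have h2 := Finset.card_union_le S₁ (S₁.map (Equiv.prodComm (Perm (Fin d)) _).toEmbedding)
  have h3 := Finset.card_union_le S₂ S₃
  rw [Finset.card_map] at h2
  have h4 : ((Finset.univ.filter fun q : Perm (Fin d) × Perm (Fin d) =>
      ¬ GoodPair q.1 q.2).card : ℝ) ≤ (S₁.card + S₁.card) + (S₂.card + S₃.card) := by
    exact_mod_cast hc.trans (h1.trans (Nat.add_le_add h2 h3))
  linarith

open Classical in
theorem pairsN (ε : ℝ) (hε : 0 < ε) : ∃ d₀ : ℕ, ∀ d ≥ d₀,
    ((Finset.univ.filter fun q : Perm (Fin d) × Perm (Fin d) => ¬ GoodPair q.1 q.2).card : ℝ) ≤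
    ε * (d.factorial : ℝ) ^ 2 := by
  obtain ⟨d₁, h1⟩ := pairs ε hε
  obtain ⟨d₂, h2⟩ := pairs_even ε hε
  refine ⟨max d₁ d₂, fun d hd => ?_⟩
  rcases Nat.even_or_odd d with hev | hodd
  · exact h2 d (le_trans (le_max_right _ _) hd) hev
  · refine le_trans ?_ (h1 d (le_trans (le_max_left _ _) hd) hodd)
    have : (Finset.univ.filter fun q : Perm (Fin d) × Perm (Fin d) => ¬ GoodPair q.1 q.2) ⊆
        (Finset.univ.filter fun q : Perm (Fin d) × Perm (Fin d) =>
      ¬ ∃ k : ℕ, Full Finset.univ (q.1 * q.2 ^ k) ∨ Full Finset.univ (q.2 * q.1 ^ k)) := by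
      intro q hq
      simp only [Finset.mem_filter, Finset.mem_univ, true_and] at hq ⊢
      exact fun h => hq (Or.inl h)
    exact_mod_cast Finset.card_le_card this

end Pool.Agent.Helper52.RC
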