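import Pool.Agent.Helper52.RC.Defs

/-!
# RC module Per: lengths of the cycles of one and of two points in a random permutation

`Function.minimalPeriod β x` is the length of the cycle of `x`. Exactly `(d-1)!` permutations have a given
length `l` (`1 ≤ l ≤ d`) at `x`; for two points in different cycles with given lengths `l + m ≤ d`
exactly `(d-2)!`. Only upper bounds are needed. Induction on the length `l` of the cycle of `x`, for the
permutations which fix a given set `S` pointwise: if `β x = a ≠ x`, then `swap x a * β` fixes `x` and
the cycle of `a` has length `l - 1`.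
-/

open Equiv

namespace Pool.Agent.Helper52.RC

section Gen

variable {α : Type*} [Fintype α] [DecidableEq α]

theorem card_fix (S : Finset α) :
    (Finset.univ.filter fun β : Perm α => ∀ s ∈ S, β s = s).card
      = (Fintype.card α - S.card).factorial := by
  rw [← Fintype.card_subtype]
  have e : {f : Perm α // ∀ s ∈ S, f s = s} ≃ Perm {a // a ∉ S} := by
    refine (Equiv.subtypeEquivRight ?_).trans
      (Equiv.Perm.subtypeEquivSubtypePerm (fun a => a ∉ S)).symm
    intro f; simp
  rw [Fintype.card_congr e, Fintype.card_perm]
  congr 1
  rw [Fintype.card_subtype_compl]; simp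

omit [Fintype α] in
theorem sw_x (β : Perm α) (x : α) : (swap x (β x) * β) x = x := by
  simp [Perm.mul_apply]

omit [Fintype α] in
theorem sw_of_ne (β : Perm α) (x z : α) (h1 : z ≠ x) (h2 : β z ≠ x) :
    (swap x (β x) * β) z = β z := by
  rw [Perm.mul_apply, swap_apply_of_ne_of_ne h2]
  intro h
  exact h1 (β.injective h)

omit [Fintype α] in
theorem sw_inv (β : Perm α) (x z : α) (h2 : β z = x) :
    (swap x (β x) * β) z = β x := by
  rw [Perm.mul_apply, h2, swap_apply_left]

omit [Fintype α] in
theorem it_eq (β : Perm α) (x : α) {l : ℕ} (hl : Function.minimalPeriod β x = l) (j : ℕ)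
    (hj : j + 2 ≤ l) : (swap x (β x) * β : Perm α)^[j] (β x) = β^[j + 1] x := by
  induction j with
  | zero => simp
  | succ j ih =>
    rw [Function.iterate_succ_apply', ih (by omega)]
    have key : ∀ i, 0 < i → i < l → β^[i] x ≠ x := by
      intro i hi hil h
      have := Function.IsPeriodicPt.minimalPeriod_le hi h
      omega
    rw [Function.iterate_succ_apply' β (j + 1) x]
    apply sw_of_ne
    · exact key (j + 1) (by omega) (by omega)
    · rw [← Function.iterate_succ_apply' β (j + 1) x]
      exact key (j + 1 + 1) (by omega) (by omega)

omit [Fintype α] in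
theorem per_sw (β : Perm α) (x : α) {l : ℕ} (hl : Function.minimalPeriod β x = l + 2) :
    Function.minimalPeriod (swap x (β x) * β : Perm α) (β x) = l + 1 := by
  have key : ∀ i, 0 < i → i < l + 2 → β^[i] x ≠ x := by
    intro i hi hil h
    have := Function.IsPeriodicPt.minimalPeriod_le hi h
    omega
  have hP : Function.IsPeriodicPt (swap x (β x) * β : Perm α) (l + 1) (β x) := by
    show (swap x (β x) * β : Perm α)^[l + 1] (β x) = β x
    rw [Function.iterate_succ_apply', it_eq β x hl l le_rfl]
    apply sw_inv
    rw [← Function.iterate_succ_apply' β (l + 1) x]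
    have := Function.isPeriodicPt_minimalPeriod β x
    rw [hl] at this
    exact this
  apply le_antisymm
  · exact hP.minimalPeriod_le (by omega)
  · by_contra hlt
    push Not at hlt
    have hpos : 0 < Function.minimalPeriod (swap x (β x) * β : Perm α) (β x) :=
      hP.minimalPeriod_pos (by omega)
    have h1 := Function.isPeriodicPt_minimalPeriod (swap x (β x) * β : Perm α) (β x)
    generalize hg : Function.minimalPeriod (swap x (β x) * β : Perm α) (β x) = j at *
    have h2 : (swap x (β x) * β : Perm α)^[j] (β x) = β x := h1
    rw [it_eq β x hl j (by omega), Function.iterate_succ_apply'] at h2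
    exact key j hpos (by omega) (β.injective h2)

omit [Fintype α] in
theorem it_other (β : Perm α) (x y : α) (hxy : ¬ β.SameCycle x y) (j : ℕ) :
    (swap x (β x) * β : Perm α)^[j] y = β^[j] y := by
  have key : ∀ i, β^[i] y ≠ x := by
    intro i hi
    apply hxy
    refine Perm.SameCycle.symm ⟨i, ?_⟩
    rw [zpow_natCast, ← Perm.iterate_eq_pow]
    exact hi
  induction j with
  | zero => rfl
  | succ j ih =>
    rw [Function.iterate_succ_apply', ih, Function.iterate_succ_apply']
    apply sw_of_ne
    · exact key j
    · rw [← Function.iterate_succ_apply' β j y]; exact key (j + 1)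

omit [Fintype α] in
theorem per_other (β : Perm α) (x y : α) (hxy : ¬ β.SameCycle x y) :
    Function.minimalPeriod (swap x (β x) * β : Perm α) y = Function.minimalPeriod β y := by
  rw [Function.minimalPeriod_eq_minimalPeriod_iff]
  intro n
  unfold Function.IsPeriodicPt Function.IsFixedPt
  rw [it_other β x y hxy]

theorem not_same (β : Perm α) (x y : α) (hxy : ¬ β.SameCycle x y) :
    ¬ (swap x (β x) * β : Perm α).SameCycle (β x) y := by
  intro h
  obtain ⟨n, -, hn⟩ := h.symm.exists_pow_eq'
  rw [← Perm.iterate_eq_pow, it_other β x y hxy] at hn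
  apply hxy
  refine Perm.SameCycle.symm ?_
  have : β.SameCycle y (β x) := ⟨n, by rw [zpow_natCast, ← Perm.iterate_eq_pow]; exact hn⟩
  exact (Perm.sameCycle_apply_right).1 this

omit [DecidableEq α] in
theorem per_pos (β : Perm α) (x : α) : 0 < Function.minimalPeriod β x := by
  apply Function.minimalPeriod_pos_of_mem_periodicPts
  exact Function.Injective.mem_periodicPts β.injective x

theorem card_period_gen (l : ℕ) : ∀ (S : Finset α) (x : α), x ∉ S →
    (Finset.univ.filter fun β : Perm α => (∀ s ∈ S, β s = s) ∧
      Function.minimalPeriod β x = l).card ≤ (Fintype.card α - S.card - 1).factorial := by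
  induction l with
  | zero =>
    intro S x hx
    rw [Finset.filter_false_of_mem]
    · simp
    · intro β _ h
      exact absurd h.2 (per_pos β x).ne'
  | succ l ih =>
    intro S x hx
    rcases Nat.eq_zero_or_pos l with rfl | hl
    · have h := card_fix (insert x S)
      rw [Finset.card_insert_of_notMem hx, ← Nat.sub_sub] at h
      rw [← h]
      apply Finset.card_le_card
      intro β hβ
      simp only [Finset.mem_filter, Finset.mem_univ, true_and, Finset.mem_insert] at hβ ⊢
      intro s hs
      rcases hs with rfl | hs
      · exact Function.minimalPeriod_eq_one_iff_isFixedPt.1 hβ.2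
      · exact hβ.1 s hs
    · obtain ⟨k, rfl⟩ : ∃ k, l = k + 1 := ⟨l - 1, by omega⟩
      have hsub : (Finset.univ.filter fun β : Perm α => (∀ s ∈ S, β s = s) ∧
          Function.minimalPeriod β x = k + 1 + 1) ⊆
          (Finset.univ \ insert x S).biUnion fun a => Finset.univ.filter fun β : Perm α =>
            ((∀ s ∈ S, β s = s) ∧ Function.minimalPeriod β x = k + 1 + 1) ∧ β x = a := by
        intro β hβ
        simp only [Finset.mem_filter, Finset.mem_univ, true_and, Finset.mem_biUnion,
          Finset.mem_sdiff, Finset.mem_insert] at hβ ⊢
        refine ⟨β x, ?_, hβ, rfl⟩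
        rintro (h | h)
        · have : Function.minimalPeriod β x = 1 := Function.minimalPeriod_eq_one_iff_isFixedPt.2 h
          omega
        · have h1 := hβ.1 _ h
          have h2 := β.injective h1
          exact hx (h2 ▸ h)
      refine (Finset.card_le_card hsub).trans (Finset.card_biUnion_le.trans ?_)
      have hone : ∀ a ∈ Finset.univ \ insert x S, (Finset.univ.filter fun β : Perm α =>
            ((∀ s ∈ S, β s = s) ∧ Function.minimalPeriod β x = k + 1 + 1) ∧ β x = a).card
            ≤ (Fintype.card α - (insert x S).card - 1).factorial := by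
        intro a ha
        have ha' : a ∉ insert x S := by simpa using ha
        refine le_trans ?_ (ih (insert x S) a ha')
        apply Finset.card_le_card_of_injOn (fun β => swap x a * β)
        · intro β hβ
          simp only [Finset.coe_filter, Finset.mem_univ, true_and, Set.mem_ofPred_eq] at hβ ⊢
          obtain ⟨⟨h1, h2⟩, rfl⟩ := hβ
          refine ⟨?_, per_sw β x h2⟩
          intro s hs
          rcases Finset.mem_insert.1 hs with rfl | hs
          · exact sw_x β s
          · have hsx : s ≠ x := fun h => hx (h ▸ hs)
            rw [sw_of_ne β x s hsx (by rw [h1 s hs]; exact hsx), h1 s hs]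
        · intro β _ β' _ h
          exact mul_left_cancel h
      refine (Finset.sum_le_sum hone).trans ?_
      rw [Finset.sum_const, smul_eq_mul, ← Finset.compl_eq_univ_sdiff, Finset.card_compl,
        Finset.card_insert_of_notMem hx, ← Nat.sub_sub]
      rcases Nat.eq_zero_or_pos (Fintype.card α - S.card - 1) with h | h
      · rw [h]; simp
      · exact le_of_eq (Nat.mul_factorial_pred h.ne')

theorem card_pair_gen (l : ℕ) : ∀ (S : Finset α) (x y : α) (m : ℕ), x ∉ S → y ∉ S → x ≠ y →
    ∀ [DecidablePred fun β : Perm α => (∀ s ∈ S, β s = s) ∧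
      Function.minimalPeriod β x = l ∧ Function.minimalPeriod β y = m ∧ ¬ β.SameCycle x y],
    (Finset.univ.filter fun β : Perm α => (∀ s ∈ S, β s = s) ∧
      Function.minimalPeriod β x = l ∧ Function.minimalPeriod β y = m ∧ ¬ β.SameCycle x y).card
      ≤ (Fintype.card α - S.card - 2).factorial := by
  classical
  induction l with
  | zero =>
    intro S x y m hx hy hxy _
    rw [Finset.filter_false_of_mem]
    · simp
    · intro β _ h
      exact absurd h.2.1 (per_pos β x).ne'
  | succ l ih =>
    intro S x y m hx hy hxy _
    rcases Nat.eq_zero_or_pos l with rfl | hl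
    · have h := card_period_gen m (insert x S) y (by simp [hy, hxy.symm])
      rw [Finset.card_insert_of_notMem hx, ← Nat.sub_sub, Nat.sub_sub _ 1 1] at h
      refine le_trans (Finset.card_le_card ?_) h
      intro β hβ
      simp only [Finset.mem_filter, Finset.mem_univ, true_and, Finset.mem_insert] at hβ ⊢
      refine ⟨?_, hβ.2.2.1⟩
      intro s hs
      rcases hs with rfl | hs
      · exact Function.minimalPeriod_eq_one_iff_isFixedPt.1 hβ.2.1
      · exact hβ.1 s hs
    · obtain ⟨k, rfl⟩ : ∃ k, l = k + 1 := ⟨l - 1, by omega⟩
      have hyS : y ∉ insert x S := by simp [hy, hxy.symm]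
      have hsub : (Finset.univ.filter fun β : Perm α => (∀ s ∈ S, β s = s) ∧
          Function.minimalPeriod β x = k + 1 + 1 ∧ Function.minimalPeriod β y = m ∧
            ¬ β.SameCycle x y) ⊆
          (Finset.univ \ insert y (insert x S)).biUnion fun a =>
            Finset.univ.filter fun β : Perm α =>
            ((∀ s ∈ S, β s = s) ∧ Function.minimalPeriod β x = k + 1 + 1 ∧
              Function.minimalPeriod β y = m ∧ ¬ β.SameCycle x y) ∧ β x = a := by
        intro β hβ
        simp only [Finset.mem_filter, Finset.mem_univ, true_and, Finset.mem_biUnion,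
          Finset.mem_sdiff, Finset.mem_insert] at hβ ⊢
        refine ⟨β x, ?_, hβ, rfl⟩
        rintro (h | h | h)
        · apply hβ.2.2.2
          rw [← h]
          exact (Perm.sameCycle_apply_right).2 (Perm.SameCycle.refl _ _)
        · have : Function.minimalPeriod β x = 1 := Function.minimalPeriod_eq_one_iff_isFixedPt.2 h
          omega
        · have h1 := hβ.1 _ h
          have h2 := β.injective h1
          exact hx (h2 ▸ h)
      refine (Finset.card_le_card hsub).trans (Finset.card_biUnion_le.trans ?_)
      have hone : ∀ a ∈ Finset.univ \ insert y (insert x S), (Finset.univ.filter fun β : Perm α =>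
            ((∀ s ∈ S, β s = s) ∧ Function.minimalPeriod β x = k + 1 + 1 ∧
              Function.minimalPeriod β y = m ∧ ¬ β.SameCycle x y) ∧ β x = a).card
            ≤ (Fintype.card α - (insert x S).card - 2).factorial := by
        intro a ha
        have ha' : a ∉ insert y (insert x S) := by simpa using ha
        have ha1 : a ∉ insert x S := fun h => ha' (Finset.mem_insert_of_mem h)
        have ha2 : a ≠ y := fun h => ha' (by simp [h])
        refine le_trans ?_ (ih (insert x S) a y m ha1 hyS ha2)
        apply Finset.card_le_card_of_injOn (fun β => swap x a * β)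
        · intro β hβ
          simp only [Finset.coe_filter, Finset.mem_univ, true_and, Set.mem_ofPred_eq] at hβ ⊢
          obtain ⟨⟨h1, h2, h3, h4⟩, rfl⟩ := hβ
          refine ⟨?_, per_sw β x h2, ?_, not_same β x y h4⟩
          · intro s hs
            rcases Finset.mem_insert.1 hs with rfl | hs
            · exact sw_x β s
            · have hsx : s ≠ x := fun h => hx (h ▸ hs)
              rw [sw_of_ne β x s hsx (by rw [h1 s hs]; exact hsx), h1 s hs]
          · rw [per_other β x y h4, h3]
        · intro β _ β' _ h
          exact mul_left_cancel h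
      refine (Finset.sum_le_sum hone).trans ?_
      rw [Finset.sum_const, smul_eq_mul, ← Finset.compl_eq_univ_sdiff, Finset.card_compl,
        Finset.card_insert_of_notMem hyS, Finset.card_insert_of_notMem hx,
        show S.card + 1 + 1 = S.card + 2 from rfl, ← Nat.sub_sub,
        show Fintype.card α - (S.card + 1) - 2 = Fintype.card α - S.card - 2 - 1 by omega]
      rcases Nat.eq_zero_or_pos (Fintype.card α - S.card - 2) with h | h
      · rw [h]; simp
      · exact le_of_eq (Nat.mul_factorial_pred h.ne')

end Gen

theorem card_period {d : ℕ} (x : Fin d) (l : ℕ) :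
    (Finset.univ.filter fun β : Perm (Fin d) => Function.minimalPeriod β x = l).card
      ≤ (d - 1).factorial := by
  have h := card_period_gen l ∅ x (by simp)
  simpa using h

open Classical in
theorem card_pair {d : ℕ} (x y : Fin d) (hxy : x ≠ y) (l m : ℕ) :
    (Finset.univ.filter fun β : Perm (Fin d) => Function.minimalPeriod β x = l ∧
      Function.minimalPeriod β y = m ∧ ¬ β.SameCycle x y).card ≤ (d - 2).factorial := by
  have h := card_pair_gen l ∅ x y m (by simp) (by simp) hxy
  simpa using h

end Pool.Agent.Helper52.RC
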