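import Pool.Agent.Helper52.RC.Defs

/-!
# RC module Rec: the recursion for the number of products of full cycles

CONTRACTION. For a permutation `ζ` and `z`, `con ζ z = swap z (ζ z) * ζ` fixes `z`, sends `v` to
`ζ v` if `ζ v ≠ z`, and to `ζ z` if `ζ v = z`. If `z, u ∈ A`, `u ≠ z`, `ζ u = z` then `Full A ζ ↔
Full (A.erase z) (con ζ z)`, and `ζ' = con ζ z` determines `ζ = swap z (ζ' u) * ζ'`
(for every `ζ'` fixing `z`, this `ζ` has `ζ u = z`).
PROOF of `cnt_rec`. `p = τ⁻¹ u ≠ u`, `σ = ζ τ`, `z := ζ u = σ p`. Full cycles on `A` (with at least two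
points) have no fixed points in `A`, so `z ≠ u`, `z ≠ p`, `z ∈ A`. For `z ∈ A \ {u, p}` map `ζ` to
`ζ' = con ζ z`. Then `con σ z = ζ' * red τ u z`: indeed `ζ * swap z u = swap (ζ z) (ζ u) * ζ
= swap (ζ z) z * ζ`, so `ζ' * red τ u z = swap z (ζ z) * ζ * swap z u * τ * swap p z
= ζ * τ * swap p z = σ * swap p z = swap (σ p) (σ z) * σ = swap z (σ z) * σ = con σ z`.
So `{ζ : ζ u = z, Full A ζ, Full A (ζ τ)}` is in bijection with `{ζ' : Full (A.erase z) ζ',
Full (A.erase z) (ζ' * red τ u z)}`.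
PROOF of `cnt_one`: the same with `τ = 1` : `cnt A 1 = ∑ z ∈ A.erase u, cnt (A.erase z) 1` if `A` has at
least two points (`u ∈ A`), and `cnt {u} 1 = 1`.
-/

set_option linter.unusedSectionVars false

open Equiv

namespace Pool.Agent.Helper52.RC

variable {α : Type*} [Fintype α] [DecidableEq α]

/-- contraction of `z` -/
def con (ζ : Perm α) (z : α) : Perm α := swap z (ζ z) * ζ

theorem con_self (ζ : Perm α) (z : α) : con ζ z z = z := by
  simp [con]

theorem con_of_eq {ζ : Perm α} {z v : α} (h : ζ v = z) (_hv : v ≠ z) : con ζ z v = ζ z := by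
  simp [con, h]

theorem con_of_ne {ζ : Perm α} {z v : α} (h : ζ v ≠ z) (hv : v ≠ z) : con ζ z v = ζ v := by
  have h2 : ζ v ≠ ζ z := fun h' => hv (ζ.injective h')
  simp [con, swap_apply_of_ne_of_ne h h2]

/-- the point after `z` is skipped -/
def nz (ζ : Perm α) (z w : α) : α := if w = z then ζ z else w

theorem con_apply {ζ : Perm α} {z v : α} (hv : v ≠ z) : con ζ z v = nz ζ z (ζ v) := by
  unfold nz
  split_ifs with h
  · exact con_of_eq h hv
  · exact con_of_ne h hv

theorem con_sameCycle_pow {ζ : Perm α} {z x : α} (hz : ζ z ≠ z) (hx : x ≠ z) (n : ℕ) :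
    (con ζ z).SameCycle x (nz ζ z ((ζ ^ n) x)) := by
  induction n with
  | zero =>
    have : nz ζ z x = x := if_neg hx
    simp only [pow_zero, Perm.coe_one, id_eq, this]
    exact Perm.SameCycle.refl _ _
  | succ n ih =>
    rw [pow_succ', Perm.mul_apply]
    by_cases h : (ζ ^ n) x = z
    · rw [h] at ih ⊢
      have h1 : nz ζ z z = ζ z := if_pos rfl
      have h2 : nz ζ z (ζ z) = ζ z := if_neg hz
      rw [h1] at ih
      rw [h2]
      exact ih
    · have h1 : nz ζ z ((ζ ^ n) x) = (ζ ^ n) x := if_neg h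
      rw [h1] at ih
      rw [← con_apply h]
      exact Perm.sameCycle_apply_right.2 ih

theorem sameCycle_con_apply {ζ : Perm α} {z : α} (v : α) : ζ.SameCycle v (con ζ z v) := by
  by_cases hv : v = z
  · subst hv
    rw [con_self]
  · rw [con_apply hv]
    unfold nz
    split_ifs with h
    · rw [← h]
      exact Perm.sameCycle_apply_right.2 (Perm.sameCycle_apply_right.2 (Perm.SameCycle.refl _ _))
    · exact Perm.sameCycle_apply_right.2 (Perm.SameCycle.refl _ _)

theorem sameCycle_of_con {ζ : Perm α} {z x y : α} (h : (con ζ z).SameCycle x y) :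
    ζ.SameCycle x y := by
  obtain ⟨n, -, hn⟩ := h.exists_pow_eq'
  subst hn
  clear h
  induction n with
  | zero => exact Perm.SameCycle.refl _ _
  | succ n ih =>
    rw [pow_succ', Perm.mul_apply]
    exact ih.trans (sameCycle_con_apply _)

theorem full_con_iff {A : Finset α} {ζ : Perm α} {z u : α} (hz : z ∈ A) (hu : u ∈ A) (huz : u ≠ z)
    (h : ζ u = z) : Full A ζ ↔ Full (A.erase z) (con ζ z) := by
  have hzz : ζ z ≠ z := fun h' => huz (ζ.injective (h.trans h'.symm))
  constructor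
  · rintro ⟨h1, h2⟩
    refine ⟨fun x hx => ?_, fun x hx y hy => ?_⟩
    · by_cases hxz : x = z
      · subst hxz
        exact con_self _ _
      · have hxA : x ∉ A := fun h' => hx (Finset.mem_erase.2 ⟨hxz, h'⟩)
        have h3 := h1 x hxA
        rw [con_of_ne (by rw [h3]; exact hxz) hxz, h3]
    · obtain ⟨hx1, hx2⟩ := Finset.mem_erase.1 hx
      obtain ⟨hy1, hy2⟩ := Finset.mem_erase.1 hy
      obtain ⟨n, -, hn⟩ := (h2 x hx2 y hy2).exists_pow_eq'
      have h3 := con_sameCycle_pow hzz hx1 n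
      rw [hn] at h3
      have h4 : nz ζ z y = y := if_neg hy1
      rwa [h4] at h3
  · rintro ⟨h1, h2⟩
    have h3 : ∀ x ∈ A, ζ.SameCycle u x := by
      intro x hx
      by_cases hxz : x = z
      · subst hxz
        rw [← h]
        exact Perm.sameCycle_apply_right.2 (Perm.SameCycle.refl _ _)
      · exact sameCycle_of_con (h2 u (Finset.mem_erase.2 ⟨huz, hu⟩) x (Finset.mem_erase.2 ⟨hxz, hx⟩))
    refine ⟨fun x hx => ?_, fun x hx y hy => (h3 x hx).symm.trans (h3 y hy)⟩
    have hxz : x ≠ z := fun h' => hx (h' ▸ hz)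
    have hxu : x ≠ u := fun h' => hx (h' ▸ hu)
    have h4 := h1 x (fun h' => hx (Finset.mem_of_mem_erase h'))
    have h5 : ζ x ≠ z := fun h' => hxu (ζ.injective (h'.trans h.symm))
    rwa [con_of_ne h5 hxz] at h4

theorem full_apply_ne {A : Finset α} {ζ : Perm α} (h : Full A ζ) {x y : α} (hx : x ∈ A) (hy : y ∈ A)
    (hxy : x ≠ y) : ζ x ≠ x := by
  intro h'
  obtain ⟨n, -, hn⟩ := (h.2 x hx y hy).exists_pow_eq'
  apply hxy
  rw [← hn]
  clear hn
  induction n with
  | zero => rfl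
  | succ n ih =>
    rw [pow_succ', Perm.mul_apply, ← ih, h']

theorem full_apply_mem {A : Finset α} {ζ : Perm α} (h : ∀ x, x ∉ A → ζ x = x) {x : α} (hx : x ∈ A) :
    ζ x ∈ A := by
  by_contra h'
  have h1 := h _ h'
  have h2 := ζ.injective h1
  rw [h2] at h'
  exact h' hx

/-- The bijection: `ζ ↦ con ζ z`. -/
theorem card_fiber (P : Perm α → Prop) (Q : Perm α → Prop) [DecidablePred P] [DecidablePred Q]
    (u z : α) (huz : u ≠ z) (hQ : ∀ ζ', Q ζ' → ζ' z = z)
    (hPQ : ∀ ζ : Perm α, ζ u = z → (P ζ ↔ Q (con ζ z))) :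
    (Finset.univ.filter fun ζ : Perm α => P ζ ∧ ζ u = z).card =
      (Finset.univ.filter fun ζ : Perm α => Q ζ).card := by
  refine Finset.card_nbij' (fun ζ => con ζ z) (fun ζ' => swap z (ζ' u) * ζ') ?_ ?_ ?_ ?_
  · intro ζ hζ
    have h := (Finset.mem_filter.1 (Finset.mem_coe.1 hζ)).2
    exact Finset.mem_coe.2 (Finset.mem_filter.2 ⟨Finset.mem_univ _, (hPQ ζ h.2).1 h.1⟩)
  · intro ζ' hζ'
    have h := (Finset.mem_filter.1 (Finset.mem_coe.1 hζ')).2
    have h0 := hQ _ h
    have h1 : (swap z (ζ' u) * ζ') u = z := by simp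
    have h2 : (swap z (ζ' u) * ζ') z = ζ' u := by simp [h0]
    refine Finset.mem_coe.2 (Finset.mem_filter.2 ⟨Finset.mem_univ _, (hPQ _ h1).2 ?_, h1⟩)
    have h3 : con (swap z (ζ' u) * ζ') z = ζ' := by
      unfold con
      rw [h2, ← mul_assoc, swap_mul_self, one_mul]
    rw [h3]
    exact h
  · intro ζ hζ
    have h := (Finset.mem_filter.1 (Finset.mem_coe.1 hζ)).2
    have h1 : con ζ z u = ζ z := con_of_eq h.2 huz
    show swap z (con ζ z u) * con ζ z = ζ
    rw [h1]
    unfold con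
    rw [← mul_assoc, swap_mul_self, one_mul]
  · intro ζ' hζ'
    have h := (Finset.mem_filter.1 (Finset.mem_coe.1 hζ')).2
    have h0 := hQ _ h
    have h2 : (swap z (ζ' u) * ζ') z = ζ' u := by simp [h0]
    show con (swap z (ζ' u) * ζ') z = ζ'
    unfold con
    rw [h2, ← mul_assoc, swap_mul_self, one_mul]

theorem ap_inv (τ : Perm α) (u : α) : τ (τ⁻¹ u) = u := by
  simp

theorem inv_mem {A : Finset α} {τ : Perm α} (hτ : ∀ x, x ∉ A → τ x = x) {u : α} (hu : u ∈ A) :
    τ⁻¹ u ∈ A := by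
  by_contra h
  have h1 := hτ _ h
  rw [ap_inv] at h1
  rw [← h1] at h
  exact h hu

theorem con_mul (ζ τ : Perm α) (u z : α) (h : ζ u = z) :
    con (ζ * τ) z = con ζ z * red τ u z := by
  have h1 : ζ * swap z u = swap z (ζ z) * ζ := by
    rw [Equiv.mul_swap_eq_swap_mul, h, swap_comm]
  have h2 : ζ * τ * swap (τ⁻¹ u) z = swap z ((ζ * τ) z) * (ζ * τ) := by
    rw [Equiv.mul_swap_eq_swap_mul]
    congr 2
    rw [Perm.mul_apply, ap_inv, h]
  unfold con red
  rw [← h2]
  calc ζ * τ * swap (τ⁻¹ u) z = swap z (ζ z) * (swap z (ζ z) * ζ) * τ * swap (τ⁻¹ u) z := by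
        rw [← mul_assoc (swap z (ζ z)), swap_mul_self, one_mul]
    _ = swap z (ζ z) * (ζ * swap z u) * τ * swap (τ⁻¹ u) z := by rw [h1]
    _ = swap z (ζ z) * ζ * (swap z u * τ * swap (τ⁻¹ u) z) := by
        simp only [mul_assoc]

theorem cnt_rec (A : Finset α) (τ : Perm α) (hτ : ∀ x, x ∉ A → τ x = x) (u : α) (hu : u ∈ A)
    (hu' : τ u ≠ u) :
    cnt A τ = ∑ z ∈ (A.erase u).erase (τ⁻¹ u), cnt (A.erase z) (red τ u z) := by
  classical
  have hp : τ⁻¹ u ∈ A := inv_mem hτ hu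
  have hpu : τ⁻¹ u ≠ u := by
    intro h
    apply hu'
    conv_lhs => rw [← h]
    exact ap_inv _ _
  unfold cnt
  rw [Finset.card_eq_sum_card_fiberwise (f := fun ζ : Perm α => ζ u)
    (t := (A.erase u).erase (τ⁻¹ u))]
  · refine Finset.sum_congr rfl fun z hz => ?_
    obtain ⟨hz1, hz2⟩ := Finset.mem_erase.1 hz
    obtain ⟨hz3, hz4⟩ := Finset.mem_erase.1 hz2
    rw [Finset.filter_filter]
    refine card_fiber (fun ζ => Full A ζ ∧ Full A (ζ * τ))
      (fun ζ' => Full (A.erase z) ζ' ∧ Full (A.erase z) (ζ' * red τ u z)) u z hz3.symm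
      (fun ζ' h => h.1.1 z (Finset.notMem_erase _ _)) fun ζ h => ?_
    have h1 : (ζ * τ) (τ⁻¹ u) = z := by
      rw [Perm.mul_apply, ap_inv, h]
    rw [full_con_iff hz4 hu hz3.symm h, full_con_iff hz4 hp hz1.symm h1, con_mul ζ τ u z h]
  · intro ζ hζ
    have h := (Finset.mem_filter.1 (Finset.mem_coe.1 hζ)).2
    refine Finset.mem_coe.2 (Finset.mem_erase.2 ⟨?_, Finset.mem_erase.2
      ⟨full_apply_ne h.1 hu hp hpu.symm, full_apply_mem h.1.1 hu⟩⟩)
    have h1 := full_apply_ne h.2 hp hu hpu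
    rwa [Perm.mul_apply, ap_inv] at h1

theorem cnt_one_rec (A : Finset α) (u : α) (hu : u ∈ A) (h2 : 2 ≤ A.card) :
    cnt A (1 : Perm α) = ∑ z ∈ A.erase u, cnt (A.erase z) (1 : Perm α) := by
  classical
  obtain ⟨v, hv, hvu⟩ := Finset.exists_mem_ne (s := A) (by omega) u
  unfold cnt
  rw [Finset.card_eq_sum_card_fiberwise (f := fun ζ : Perm α => ζ u) (t := A.erase u)]
  · refine Finset.sum_congr rfl fun z hz => ?_
    obtain ⟨hz1, hz2⟩ := Finset.mem_erase.1 hz
    rw [Finset.filter_filter]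
    refine card_fiber (fun ζ => Full A ζ ∧ Full A (ζ * 1))
      (fun ζ' => Full (A.erase z) ζ' ∧ Full (A.erase z) (ζ' * 1)) u z hz1.symm
      (fun ζ' h => h.1.1 z (Finset.notMem_erase _ _)) fun ζ h => ?_
    rw [mul_one, mul_one, full_con_iff hz2 hu hz1.symm h]
  · intro ζ hζ
    have h := (Finset.mem_filter.1 (Finset.mem_coe.1 hζ)).2
    exact Finset.mem_coe.2 (Finset.mem_erase.2
      ⟨full_apply_ne h.1 hu hv hvu.symm, full_apply_mem h.1.1 hu⟩)

theorem cnt_one (A : Finset α) (hA : A.Nonempty) : cnt A (1 : Perm α) = (A.card - 1).factorial := by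
  classical
  obtain ⟨n, hn⟩ : ∃ n, A.card = n + 1 := ⟨A.card - 1, by have := Finset.card_pos.2 hA; omega⟩
  induction n generalizing A with
  | zero =>
    obtain ⟨u, rfl⟩ := Finset.card_eq_one.1 hn
    unfold cnt
    rw [hn]
    have : (Finset.univ.filter fun ζ : Perm α => Full {u} ζ ∧ Full {u} (ζ * 1)) = {1} := by
      ext ζ
      rw [Finset.mem_filter, Finset.mem_singleton]
      constructor
      · rintro ⟨-, h, -⟩
        ext x
        by_cases hx : x ∈ ({u} : Finset α)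
        · have := full_apply_mem h.1 hx
          rw [Finset.mem_singleton] at this hx
          rw [this, hx]
          rfl
        · exact h.1 x hx
      · rintro rfl
        have h1 : Full ({u} : Finset α) (1 : Perm α) := by
          refine ⟨fun x _ => rfl, fun x hx y hy => ?_⟩
          rw [Finset.mem_singleton] at hx hy
          rw [hx, hy]
        exact ⟨Finset.mem_univ _, h1, by rw [mul_one]; exact h1⟩
    rw [this]
    rfl
  | succ n ih =>
    obtain ⟨u, hu⟩ := hA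
    rw [cnt_one_rec A u hu (by omega)]
    have h1 : ∀ z ∈ A.erase u, cnt (A.erase z) (1 : Perm α) = n.factorial := by
      intro z hz
      obtain ⟨hz1, hz2⟩ := Finset.mem_erase.1 hz
      have h3 : (A.erase z).card = n + 1 := by
        rw [Finset.card_erase_of_mem hz2]
        omega
      rw [ih (A.erase z) ⟨u, Finset.mem_erase.2 ⟨hz1.symm, hu⟩⟩ h3, h3]
      rfl
    rw [Finset.sum_congr rfl h1, Finset.sum_const, Finset.card_erase_of_mem hu, hn, smul_eq_mul]
    show (n + 1) * n.factorial = (n + 1).factorial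
    rw [Nat.factorial_succ]

theorem red_fix (A : Finset α) (τ : Perm α) (hτ : ∀ x, x ∉ A → τ x = x) (u : α) (hu : u ∈ A)
    (hu' : τ u ≠ u) (z : α) (hz : z ∈ (A.erase u).erase (τ⁻¹ u)) :
    ∀ x, x ∉ A.erase z → red τ u z x = x := by
  intro x hx
  have hp : τ⁻¹ u ∈ A := inv_mem hτ hu
  obtain ⟨hz1, hz2⟩ := Finset.mem_erase.1 hz
  obtain ⟨hz3, hz4⟩ := Finset.mem_erase.1 hz2
  unfold red
  rw [Perm.mul_apply, Perm.mul_apply]
  by_cases hxz : x = z
  · subst hxz
    rw [swap_apply_right, ap_inv, swap_apply_right]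
  · have hxA : x ∉ A := fun h' => hx (Finset.mem_erase.2 ⟨hxz, h'⟩)
    have hxp : x ≠ τ⁻¹ u := fun h' => hxA (h' ▸ hp)
    have hxu : x ≠ u := fun h' => hxA (h' ▸ hu)
    rw [swap_apply_of_ne_of_ne hxp hxz, hτ x hxA, swap_apply_of_ne_of_ne hxz hxu]

end Pool.Agent.Helper52.RC
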