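import Pool.Agent.PWI.State

/-!
# RC module Top: covers in which a nonseparating simple closed curve has connected preimage

(notation of PWI: `IsS x` = orbit of `a_0`, `sv` = maps to `Z` kill powers of such point pushes)
GENERATION. Let `Stab` be the `T : PMod g n` with `T b_0 = b_0` and `Q` the subgroup generated by `b_0` and all
`T a_0`, `T ∈ Stab`. `Q = ⊤` (`g ≥ 2`): `Q` is invariant under `Stab`. With `exC 0`: `C a_0 = a_0 c⁻¹`,
`C b_0 = c b_0 c⁻¹`, `c = b_0⁻¹ a_1 b_1 a_1⁻¹`, so `push (c⁻¹) C` is in `Stab` and `c⁻¹ a_0 ∈ Q`, `c ∈ Q`,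
`a_1 b_1 a_1⁻¹ ∈ Q`; as in Foot.lean `a_1 ∈ Q`, and `genZ` gives `Zc 0 ≤ Q`.
For `T ∈ Stab`, `T a_0 * b_0^k = T (a_0 b_0^k)` is `IsS` (`exB 0`), and so are its conjugates.
THEOREM. `K` finite index, `K ⟨b_0⟩ = ⊤`, `φ : K → Z` kills all powers (in `K`) of `IsS` elements. Then `φ = 1`:
`θ x := φ (x b_0^e)` (`e` with `x b_0^e ∈ K`) is well defined, `θ (k x) = φ k θ x`, and `{y : θ (x y) = θ x
for all x}` is a subgroup which contains `b_0` and `T a_0` (`b_0^j (T a_0) b_0^e` is a conjugate of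
`T a_0 b_0^(e+j)`), so it is everything and `φ k = θ k = θ 1 = 1`. For another curve `T b_0` use `comap T`.
-/

namespace Pool.Agent.Helper52.RC

open Pool.Agent.PWI

variable {g n : ℕ}

private theorem isS_ab (j : ℤ) : IsS (sa 0 * sb 0 ^ j : SG g n) := by
  obtain ⟨B, h1, h2, _⟩ := exB (g := g) (n := n) 0
  have i1 : (B⁻¹).1 (sa 0) = sa 0 * sb 0 := inv_apply_eq (by rw [map_mul, h1, h2]; group)
  have i2 : (B⁻¹).1 (sb 0) = sb 0 := inv_apply_eq h2
  induction j using Int.induction_on with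
  | zero => simpa using (isS_a0 : IsS (sa 0 : SG g n))
  | succ j ih =>
    have h := ih.act B⁻¹
    rw [map_mul, map_zpow, i1, i2] at h
    have e : sa 0 * sb 0 * sb 0 ^ (j : ℤ) = (sa 0 * sb 0 ^ ((j : ℤ) + 1) : SG g n) := by group
    rwa [e] at h
  | pred j ih =>
    have h := ih.act B
    rw [map_mul, map_zpow, h1, h2] at h
    have e : sa 0 * (sb 0)⁻¹ * sb 0 ^ (-(j : ℤ)) = (sa 0 * sb 0 ^ (-(j : ℤ) - 1) : SG g n) := by
      group
    rwa [e] at h

private theorem isS_ba (k : ℕ) : IsS (sb 0 * sa 0 ^ k : SG g n) := by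
  obtain ⟨A, h1, h2, _⟩ := exA (g := g) (n := n) 0
  induction k with
  | zero => simpa using (isS_b0 : IsS (sb 0 : SG g n))
  | succ k ih =>
    have h := ih.act A
    rw [map_mul, map_pow, h1, h2] at h
    have e : sb 0 * sa 0 * sa 0 ^ k = (sb 0 * sa 0 ^ (k + 1) : SG g n) := by
      rw [pow_succ', mul_assoc]
    rwa [e] at h

/-- Generation by `b_0` and the orbit of `a_0` under the stabiliser of `b_0`. -/
private theorem gen_top (hg : 2 ≤ g) (Y : Subgroup (SG g n)) (hb : sb 0 ∈ Y)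
    (ha : ∀ T : PMod g n, T.1 (sb 0) = sb 0 → T.1 (sa 0) ∈ Y) : Y = ⊤ := by
  let Q : Subgroup (SG g n) :=
    Subgroup.closure ({sb 0} ∪ {x | ∃ T : PMod g n, T.1 (sb 0) = sb 0 ∧ x = T.1 (sa 0)})
  have hQY : Q ≤ Y := by
    rw [Subgroup.closure_le]
    rintro x (hx | ⟨T, hT, rfl⟩)
    · rw [Set.mem_singleton_iff] at hx
      rw [hx]; exact hb
    · exact ha T hT
  have hbQ : sb 0 ∈ Q := Subgroup.subset_closure (Or.inl rfl)
  have haQ : ∀ T : PMod g n, T.1 (sb 0) = sb 0 → T.1 (sa 0) ∈ Q := fun T hT =>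
    Subgroup.subset_closure (Or.inr ⟨T, hT, rfl⟩)
  have hinv : ∀ S : PMod g n, S.1 (sb 0) = sb 0 → ∀ x ∈ Q, S.1 x ∈ Q := by
    intro S hS x hx
    induction hx using Subgroup.closure_induction with
    | mem x hx =>
      rcases hx with hx | ⟨T, hT, rfl⟩
      · rw [Set.mem_singleton_iff] at hx
        rw [hx, hS]; exact hbQ
      · exact haQ (S * T) (by rw [act_mul, hT, hS])
    | one => rw [map_one]; exact Q.one_mem
    | mul x y _ _ hx hy => rw [map_mul]; exact Q.mul_mem hx hy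
    | inv x _ hx => rw [map_inv]; exact Q.inv_mem hx
  have ha0 : sa 0 ∈ Q := haQ 1 rfl
  have h1 : sa 1 * sb 1 * (sa 1)⁻¹ ∈ Q := by
    obtain ⟨C, c1, c2, c3, c4, c5⟩ := exC (g := g) (n := n) 0 hg _ rfl
    simp only [zero_add] at c1 c2 c3 c4 c5
    set c : SG g n := (sb 0)⁻¹ * sa 1 * sb 1 * (sa 1)⁻¹ with hc
    have t1 : (push c⁻¹ * C).1 (sb 0) = sb 0 := by
      rw [act_mul, push_apply, c2]; group
    have t2 := haQ _ t1
    rw [act_mul, push_apply, c1] at t2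
    have t3 : sb 0 * (sa 0 * (c⁻¹ * (sa 0 * c⁻¹) * c⁻¹⁻¹)⁻¹) ∈ Q :=
      Q.mul_mem hbQ (Q.mul_mem ha0 (Q.inv_mem t2))
    have e : sb 0 * (sa 0 * (c⁻¹ * (sa 0 * c⁻¹) * c⁻¹⁻¹)⁻¹) = sa 1 * sb 1 * (sa 1)⁻¹ := by
      have e1 : sb 0 * (sa 0 * (c⁻¹ * (sa 0 * c⁻¹) * c⁻¹⁻¹)⁻¹) = sb 0 * c := by group
      rw [e1, hc]; group
    rwa [e] at t3
  have h2 : sa 1 ∈ Q := by
    obtain ⟨A, hA1, hA2, hA3⟩ := exA (g := g) (n := n) 1
    have n01 : (0 : ℕ) ∉ ({1} : Set ℕ) := by simp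
    have k1 := hinv A (hA3.1 0 n01).2 _ h1
    simp only [map_mul, map_inv, hA1, hA2] at k1
    have e : (sa 1 : SG g n) = (sa 1 * sb 1 * (sa 1)⁻¹)⁻¹ *
        (sa 1 * (sb 1 * sa 1) * (sa 1)⁻¹) := by group
    rw [e]
    exact Q.mul_mem (Q.inv_mem h1) k1
  have h3 : Zc 0 ≤ Q := genZ hg Q h2 (fun T _ hb _ => hinv T hb)
  rw [eq_top_iff, ← closure_gens, Subgroup.closure_le]
  rintro x (⟨k, hk⟩ | ⟨j, rfl⟩)
  · by_cases hk0 : k = 0
    · subst hk0
      rcases hk with rfl | rfl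
      · exact hQY ha0
      · exact hQY hbQ
    · rcases hk with rfl | rfl
      · exact hQY (h3 (sa_mem_Zc hk0))
      · exact hQY (h3 (sb_mem_Zc hk0))
  · exact hQY (h3 (sz_mem_Zc j 0))

/-- The algebraic core. -/
private theorem core (hg : 2 ≤ g) (K : Subgroup (SG g n)) (φ : SG g n → ℤ)
    (hφ : ∀ x ∈ K, ∀ y ∈ K, φ (x * y) = φ x + φ y)
    (hS : ∀ x, IsS x → ∀ m : ℤ, x ^ m ∈ K → φ (x ^ m) = 0)
    (hK : ∀ x : SG g n, ∃ e : ℤ, x * sb 0 ^ e ∈ K) (x : SG g n) (hx : x ∈ K) : φ x = 0 := by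
  classical
  choose e he using hK
  let θ : SG g n → ℤ := fun x => φ (x * sb 0 ^ e x)
  have hwd : ∀ (x : SG g n) (j : ℤ), x * sb 0 ^ j ∈ K → θ x = φ (x * sb 0 ^ j) := by
    intro x j hj
    have h1 : sb 0 ^ (e x - j) ∈ K := by
      have h := K.mul_mem (K.inv_mem hj) (he x)
      have e1 : (x * sb 0 ^ j)⁻¹ * (x * sb 0 ^ e x) = sb 0 ^ (e x - j) := by group
      rwa [e1] at h
    have h2 := hφ _ hj _ h1
    have e2 : x * sb 0 ^ j * sb 0 ^ (e x - j) = x * sb 0 ^ e x := by group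
    rw [e2, hS _ isS_b0 _ h1, add_zero] at h2
    exact h2
  let Y : Subgroup (SG g n) :=
    { carrier := {y | ∀ x, θ (x * y) = θ x}
      one_mem' := fun x => by rw [mul_one]
      mul_mem' := by
        intro y z hy hz x
        rw [← mul_assoc, hz, hy]
      inv_mem' := by
        intro y hy x
        have h := hy (x * y⁻¹)
        rw [inv_mul_cancel_right] at h
        exact h.symm }
  have hY : Y = ⊤ := by
    apply gen_top hg Y
    · intro x
      have h1 : x * sb 0 * sb 0 ^ (e x - 1) ∈ K := by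
        have e1 : x * sb 0 * sb 0 ^ (e x - 1) = x * sb 0 ^ e x := by group
        rw [e1]; exact he x
      rw [hwd _ _ h1]
      show φ _ = φ _
      congr 1
      group
    · intro T hT x
      have hk : x * sb 0 ^ e x ∈ K := he x
      set j : ℤ := e x with hj
      have hm : sb 0 ^ (-j) * T.1 (sa 0) * sb 0 ^ e (sb 0 ^ (-j) * T.1 (sa 0)) ∈ K := he _
      set i : ℤ := e (sb 0 ^ (-j) * T.1 (sa 0)) with hi
      have hs : IsS (sb 0 ^ (-j) * T.1 (sa 0) * sb 0 ^ i : SG g n) := by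
        have h1 := ((isS_ab (g := g) (n := n) (i - j)).act T).conj (sb 0 ^ (-j))
        rw [map_mul, map_zpow, hT] at h1
        have e1 : sb 0 ^ (-j) * (T.1 (sa 0) * sb 0 ^ (i - j)) * (sb 0 ^ (-j))⁻¹ =
            sb 0 ^ (-j) * T.1 (sa 0) * sb 0 ^ i := by group
        rwa [e1] at h1
      have h0 : φ (sb 0 ^ (-j) * T.1 (sa 0) * sb 0 ^ i) = 0 := by
        have h1 := hS _ hs 1 (by rw [zpow_one]; exact hm)
        rwa [zpow_one] at h1
      have e2 : x * T.1 (sa 0) * sb 0 ^ i =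
          x * sb 0 ^ j * (sb 0 ^ (-j) * T.1 (sa 0) * sb 0 ^ i) := by group
      have h2 : x * T.1 (sa 0) * sb 0 ^ i ∈ K := by
        rw [e2]; exact K.mul_mem hk hm
      show θ (x * T.1 (sa 0)) = θ x
      rw [hwd _ _ h2, e2, hφ _ hk _ hm, h0, add_zero]
  have h1 : θ x = θ 1 := by
    have h : x ∈ Y := by rw [hY]; exact Subgroup.mem_top x
    have h2 := h 1
    rwa [one_mul] at h2
  have h2 : θ x = φ x := by
    have h : x * sb 0 ^ (0 : ℤ) ∈ K := by rw [zpow_zero, mul_one]; exact hx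
    rw [hwd x 0 h, zpow_zero, mul_one]
  have h3 : θ 1 = φ 1 := by
    have h : (1 : SG g n) * sb 0 ^ (0 : ℤ) ∈ K := by
      rw [zpow_zero, mul_one]; exact K.one_mem
    rw [hwd 1 0 h, zpow_zero, mul_one]
  have h4 : φ 1 = 0 := by
    have h := hφ 1 K.one_mem 1 K.one_mem
    rw [mul_one] at h
    omega
  rw [← h2, h1, h3, h4]

/-- The core for an arbitrary nonseparating simple closed curve. -/
private theorem core_curve (hg : 2 ≤ g) (K : Subgroup (SG g n)) (φ : SG g n → ℤ)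
    (hφ : ∀ x ∈ K, ∀ y ∈ K, φ (x * y) = φ x + φ y)
    (hS : ∀ x, IsS x → ∀ m : ℤ, x ^ m ∈ K → φ (x ^ m) = 0) (c : SG g n) (hc : IsS c)
    (hK : ∀ x : SG g n, ∃ e : ℤ, x * c ^ e ∈ K) (x : SG g n) (hx : x ∈ K) : φ x = 0 := by
  obtain ⟨T, hT⟩ : ∃ T : PMod g n, T.1 (sb 0) = c := by
    obtain ⟨S, hS⟩ := hc
    obtain ⟨R, hR⟩ := (isS_b0 : IsS (sb 0 : SG g n))
    refine ⟨S * R⁻¹, ?_⟩
    rw [act_mul, inv_apply_eq hR.symm, hS]
  have h := core hg (K.comap (T.1 : SG g n →* SG g n)) (fun x => φ (T.1 x)) ?_ ?_ ?_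
    ((T⁻¹).1 x) ?_
  · have e : T.1 ((T⁻¹).1 x) = x := by
      show T.1 ((T.1)⁻¹ x) = x
      simp
    simp only [e] at h
    exact h
  · intro x hx y hy
    simp only [map_mul]
    exact hφ _ hx _ hy
  · intro x hx m hm
    simp only [map_zpow]
    exact hS _ (hx.act T) m (by
      have h : T.1 (x ^ m) ∈ K := hm
      rwa [map_zpow] at h)
  · intro x
    obtain ⟨e, he⟩ := hK (T.1 x)
    refine ⟨e, ?_⟩
    show T.1 (x * sb 0 ^ e) ∈ K
    rw [map_mul, map_zpow, hT]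
    exact he
  · show T.1 ((T⁻¹).1 x) ∈ K
    have e : T.1 ((T⁻¹).1 x) = x := by
      show T.1 ((T.1)⁻¹ x) = x
      simp
    rw [e]; exact hx

private theorem top_final (g n : ℕ) (hg : 3 ≤ g) (H : Subgroup (PMod g n)) [H.FiniteIndex]
    (K : Subgroup (SG g n)) [K.FiniteIndex] (k : ℕ)
    (hK : (∀ x : SG g n, ∃ e : ℤ, x * (sa 0 * sb 0 ^ k) ^ e ∈ K) ∨
      ∀ x : SG g n, ∃ e : ℤ, x * (sb 0 * sa 0 ^ k) ^ e ∈ K)
    (hH : ∀ x ∈ K, push x ∈ H) (f : H →* Multiplicative ℤ) (x : SG g n) (hx : push x ∈ H) :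
    f ⟨push x, hx⟩ = 1 := by
  classical
  obtain ⟨c, hc, hcK⟩ : ∃ c : SG g n, IsS c ∧ ∀ x : SG g n, ∃ e : ℤ, x * c ^ e ∈ K := by
    rcases hK with hK | hK
    · refine ⟨_, ?_, hK⟩
      have h := isS_ab (g := g) (n := n) (k : ℤ)
      rwa [zpow_natCast] at h
    · exact ⟨_, isS_ba k, hK⟩
  let φ : SG g n → ℤ := fun x => if h : push x ∈ H then Multiplicative.toAdd (f ⟨push x, h⟩) else 0
  have hφe : ∀ (x : SG g n) (h : push x ∈ H), φ x = Multiplicative.toAdd (f ⟨push x, h⟩) :=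
    fun x h => dif_pos h
  have key : ∀ x ∈ K, φ x = 0 := by
    refine core_curve (by omega) K φ ?_ ?_ c hc hcK
    · intro x hx y hy
      rw [hφe _ (hH _ hx), hφe _ (hH _ hy), hφe _ (hH _ (K.mul_mem hx hy)), ← toAdd_mul,
        ← map_mul]
      congr 2
      apply Subtype.ext
      show push (x * y) = push x * push y
      rw [map_mul]
    · have hnat : ∀ x : SG g n, IsS x → ∀ m : ℕ, x ^ m ∈ K → φ (x ^ m) = 0 := by
        intro x hx m hm
        have h1 : push x ^ m ∈ H := by rw [← map_pow]; exact hH _ hm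
        have h2 := sv hg H f x hx m h1
        rw [hφe _ (hH _ hm)]
        have e : (⟨push (x ^ m), hH _ hm⟩ : H) = ⟨push x ^ m, h1⟩ := by
          apply Subtype.ext
          show push (x ^ m) = push x ^ m
          rw [map_pow]
        rw [e, h2]
        rfl
      intro x hx m hm
      obtain ⟨m, rfl | rfl⟩ := m.eq_nat_or_neg
      · rw [zpow_natCast] at hm ⊢
        exact hnat x hx m hm
      · have e : x ^ (-(m : ℤ)) = (x⁻¹) ^ m := by
          rw [zpow_neg, zpow_natCast, inv_pow]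
        rw [e] at hm ⊢
        exact hnat _ (isS_inv hx) m hm
  obtain ⟨N, hN0, -, hN⟩ := Subgroup.exists_pow_mem_of_index_ne_zero
    (H := K) Subgroup.FiniteIndex.index_ne_zero x
  have h1 := key _ hN
  rw [hφe _ (hH _ hN)] at h1
  have e : (⟨push (x ^ N), hH _ hN⟩ : H) = ⟨push x, hx⟩ ^ N := by
    apply Subtype.ext
    show push (x ^ N) = push x ^ N
    rw [map_pow]
  rw [e] at h1
  have h2 : f (⟨push x, hx⟩ ^ N) = 1 := Multiplicative.toAdd.injective h1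
  rw [map_pow] at h2
  exact pow_eq_one_int hN0.ne' h2

/-- Covers in which `a_0 b_0^k` or `b_0 a_0^k` has connected preimage. -/
theorem top_main (g n : ℕ) (hg : 3 ≤ g) (H : Subgroup (Mcg g n)) [H.FiniteIndex]
    (K : Subgroup (Pi1 g n)) [K.FiniteIndex] (k : ℕ)
    (hK : (∀ x : Pi1 g n, ∃ e : ℤ, x * (loopA 0 * loopB 0 ^ k) ^ e ∈ K) ∨
      ∀ x : Pi1 g n, ∃ e : ℤ, x * (loopB 0 * loopA 0 ^ k) ^ e ∈ K)
    (hH : ∀ x ∈ K, pushPt x ∈ H) (f : H →* Multiplicative ℤ) (x : Pi1 g n) (hx : pushPt x ∈ H) :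
    f ⟨pushPt x, hx⟩ = 1 :=
  @top_final g n hg H ‹_› K ‹_› k hK hH f x hx

end Pool.Agent.Helper52.RC
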